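import Pool.Agent.DLS.Defs

/-!
# The lattice as a homogeneous graph with the `ℓ¹` length
-/

set_option autoImplicit false
set_option linter.unusedSectionVars false

namespace Pool.Agent.DLS

open Finset

theorem dist1_zero_iff_def {D : ℕ} (x : DL.Site D) :
    SB.dist1 x 0 = x.1.natAbs + ∑ i, (x.2 i).natAbs := by
  unfold SB.dist1
  rw [Prod.fst_zero, sub_zero]
  refine congrArg _ (Finset.sum_congr rfl fun i _ => ?_)
  rw [Prod.snd_zero, Pi.zero_apply, sub_zero]

theorem mem_box_iff {D L : ℕ} (x : DL.Site D) :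
    x ∈ SB.box D L ↔ x.1.natAbs ≤ L ∧ ∀ i, (x.2 i).natAbs ≤ L := by
  unfold SB.box
  rw [Finset.mem_product, Finset.mem_Icc, Finset.mem_Icc, Pi.le_def, Pi.le_def]
  constructor
  · rintro ⟨⟨h1, h2⟩, h3, h4⟩
    exact ⟨by omega, fun i => by have := h3 i; have := h4 i; omega⟩
  · rintro ⟨h1, h2⟩
    exact ⟨⟨by omega, by omega⟩, fun i => by have := h2 i; omega,
      fun i => by have := h2 i; omega⟩

theorem mem_box_of_dist1 {D L : ℕ} {x : DL.Site D} (h : SB.dist1 x 0 ≤ L) : x ∈ SB.box D L := by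
  rw [dist1_zero_iff_def] at h
  rw [mem_box_iff]
  refine ⟨by omega, fun i => ?_⟩
  have := Finset.single_le_sum (f := fun i => (x.2 i).natAbs) (fun _ _ => Nat.zero_le _)
    (Finset.mem_univ i)
  have h2 : (x.2 i).natAbs ≤ ∑ i, (x.2 i).natAbs := this
  omega

theorem dist1_le_of_mem_box {D L : ℕ} {x : DL.Site D} (h : x ∈ SB.box D L) :
    SB.dist1 x 0 ≤ (D + 1) * L := by
  rw [mem_box_iff] at h
  rw [dist1_zero_iff_def]
  have h2 : ∑ i, (x.2 i).natAbs ≤ ∑ _i : Fin D, L := Finset.sum_le_sum fun i _ => h.2 i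
  rw [Finset.sum_const, Finset.card_univ, Fintype.card_fin, smul_eq_mul] at h2
  have := h.1
  nlinarith

/-- The lattice as a homogeneous graph with the `ℓ¹` length. -/
noncomputable def latH (D : ℕ) : Hg (DL.Site D) (Option (Fin D)) where
  u := fun k => SB.dir (k, true)
  N := fun x => SB.dist1 x 0
  N0 := by
    rw [dist1_zero_iff_def]
    simp
  Nneg := fun x => by
    rw [dist1_zero_iff_def, dist1_zero_iff_def, Prod.fst_neg, Int.natAbs_neg]
    refine congrArg _ (Finset.sum_congr rfl fun i _ => ?_)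
    rw [Prod.snd_neg, Pi.neg_apply, Int.natAbs_neg]
  Nadd := fun x y => by
    rw [dist1_zero_iff_def, dist1_zero_iff_def, dist1_zero_iff_def]
    have h1 : (x + y).1.natAbs ≤ x.1.natAbs + y.1.natAbs := by
      rw [Prod.fst_add]
      exact Int.natAbs_add_le _ _
    have h2 : ∑ i, ((x + y).2 i).natAbs ≤ ∑ i, (x.2 i).natAbs + ∑ i, (y.2 i).natAbs := by
      rw [← Finset.sum_add_distrib]
      refine Finset.sum_le_sum fun i _ => ?_
      rw [Prod.snd_add, Pi.add_apply]
      exact Int.natAbs_add_le _ _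
    omega
  Nu := fun k => by
    rw [dist1_zero_iff_def]
    cases k with
    | none => simp [SB.dir]
    | some i =>
      simp only [SB.dir, Int.natAbs_zero, zero_add]
      rw [Finset.sum_eq_single i]
      · rw [Pi.single_eq_same]
        exact le_refl _
      · intro j _ hj
        rw [Pi.single_eq_of_ne hj]
        rfl
      · intro hi
        exact absurd (Finset.mem_univ i) hi
  ball := fun r => (SB.box D r).filter fun x => SB.dist1 x 0 < r
  mem_ball := fun r x => by
    rw [Finset.mem_filter]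
    exact ⟨fun h => h.2, fun h => ⟨mem_box_of_dist1 h.le, h⟩⟩

theorem latH_G (D : ℕ) : (latH D).G = DL.lat D := rfl

theorem latH_N (D : ℕ) (x : DL.Site D) : (latH D).N x = SB.dist1 x 0 := rfl

theorem latH_u (D : ℕ) (k : Option (Fin D)) : (latH D).u k = SB.dir (k, true) := rfl

theorem mem_latH_ball (D r : ℕ) (x : DL.Site D) : x ∈ (latH D).ball r ↔ SB.dist1 x 0 < r :=
  (latH D).mem_ball r x

end Pool.Agent.DLS
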