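import Pool.Agent.DLS.Der
import Pool.Agent.DLS.LatH
import Pool.Agent.SB.KSa

/-!
# Spins with boundary colour `0` and random clusters
-/

set_option autoImplicit false
set_option linter.unusedSectionVars false
set_option linter.unusedVariables false

namespace Pool.Agent.DLS

open Finset

section Count

variable {V ι : Type} [DecidableEq V] [DecidableEq ι] (G : DL.Gr V ι) (q : ℕ) [NeZero q]

theorem rch_const {I : Finset V} {ω : Finset ι} (σ : Cg G q I ω) {x y : V} (h : G.Rch ω x y) :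
    σ.1 x = σ.1 y := by
  induction h with
  | refl => rfl
  | tail _ hs ih =>
    obtain ⟨e, he, h1 | h1⟩ := hs
    · rw [ih, ← h1.1, ← h1.2]
      exact σ.2.2 e he
    · rw [ih, ← h1.1, ← h1.2]
      exact (σ.2.2 e he).symm

/-- The number of colourings with colour `0` at `x`. -/
noncomputable def nc0 (I : Finset V) (ω : Finset ι) (x : V) : ℝ :=
  (Nat.card {σ : Cg G q I ω // σ.1 x = 0} : ℝ)

theorem nc0_conn {I : Finset V} {ω : Finset ι} {x y : V} (hy : y ∉ I) (h : G.Rch ω x y) :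
    nc0 G q I ω x = nc G q I ω := by
  unfold nc0 nc
  rw [Nat.card_congr (Equiv.subtypeUnivEquiv fun σ : Cg G q I ω => by
    rw [rch_const G q σ h]
    exact σ.2.1 y hy)]

/-- The value at `x` as a homomorphism. -/
def evx (I : Finset V) (ω : Finset ι) (x : V) : Cg G q I ω →+ ZMod q where
  toFun σ := σ.1 x
  map_zero' := rfl
  map_add' _ _ := rfl

theorem rch_step_iff {ω : Finset ι} {x : V} {e : ι} (he : e ∈ ω) :
    G.Rch ω x (G.s e) ↔ G.Rch ω x (G.t e) :=
  ⟨fun h => Relation.ReflTransGen.tail h ⟨e, he, Or.inl ⟨rfl, rfl⟩⟩,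
    fun h => Relation.ReflTransGen.tail h ⟨e, he, Or.inr ⟨rfl, rfl⟩⟩⟩

open Classical in
/-- The colouring with colour `k` on the cluster of `x`. -/
noncomputable def clc {I : Finset V} {ω : Finset ι} {x : V} (h : ∀ y, y ∉ I → ¬ G.Rch ω x y)
    (k : ZMod q) : Cg G q I ω :=
  ⟨fun y => if G.Rch ω x y then k else 0, fun y hy => if_neg (h y hy), fun e he => by
    by_cases h1 : G.Rch ω x (G.s e)
    · have h2 := (rch_step_iff G he).1 h1
      simp only [if_pos h1, if_pos h2]
    · have h2 := fun h3 => h1 ((rch_step_iff G he).2 h3)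
      simp only [if_neg h1, if_neg h2]⟩

theorem nc0_not {I : Finset V} {ω : Finset ι} {x : V} (h : ∀ y, y ∉ I → ¬ G.Rch ω x y) :
    nc G q I ω = q * nc0 G q I ω x := by
  classical
  have hs : Function.Surjective (evx G q I ω x) := by
    intro k
    refine ⟨clc G q h k, ?_⟩
    change (if G.Rch ω x x then k else 0) = k
    exact if_pos Relation.ReflTransGen.refl
  have h1 := AddSubgroup.card_eq_card_quotient_mul_card_addSubgroup (evx G q I ω x).ker
  rw [Nat.card_congr (QuotientAddGroup.quotientKerEquivOfSurjective _ hs).toEquiv,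
    Nat.card_zmod] at h1
  unfold nc nc0
  rw [h1, Nat.cast_mul]
  rfl

open Classical in
theorem nc0_eq (I : Finset V) (ω : Finset ι) (x : V) :
    nc0 G q I ω x = nc G q I ω * (1 / q + (1 - 1 / q) *
      ind (fun ω => ∃ y, y ∉ I ∧ G.Rch ω x y) ω) := by
  have hq : (q : ℝ) ≠ 0 := by exact_mod_cast NeZero.ne q
  by_cases h : ∃ y, y ∉ I ∧ G.Rch ω x y
  · obtain ⟨y, hy, hr⟩ := h
    have h1 : ind (fun ω => ∃ y, y ∉ I ∧ G.Rch ω x y) ω = 1 := if_pos ⟨y, hy, hr⟩
    rw [h1, nc0_conn G q hy hr]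
    ring
  · have h1 : ind (fun ω => ∃ y, y ∉ I ∧ G.Rch ω x y) ω = 0 := if_neg h
    rw [h1, nc0_not G q (x := x) fun y hy hr => h ⟨y, hy, hr⟩]
    field_simp
    ring

end Count

section Spin

variable {D : ℕ}

/-- The edges of the lattice with an end in `Λ`. -/
def teL (Λ : Finset (DL.Site D)) : Finset (DL.Edge D) :=
  (Λ ×ˢ Finset.univ) ∪ (Λ ×ˢ Finset.univ).image fun e => (e.1 - SB.dir (e.2, true), e.2)

theorem dir_false (k : Option (Fin D)) : (SB.dir (k, false) : SB.Site D) = - SB.dir (k, true) := by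
  cases k with
  | none => simp [SB.dir]
  | some i => simp [SB.dir, Pi.single_neg]

theorem mem_img (Λ : Finset (DL.Site D)) (e : DL.Edge D) :
    e ∈ (Λ ×ˢ (Finset.univ : Finset (Option (Fin D)))).image
      (fun e => (e.1 - SB.dir (e.2, true), e.2)) ↔ e.1 + SB.dir (e.2, true) ∈ Λ := by
  simp only [Finset.mem_image, Finset.mem_product, Finset.mem_univ, and_true]
  constructor
  · rintro ⟨a, ha, rfl⟩
    simpa using ha
  · intro h
    exact ⟨(e.1 + SB.dir (e.2, true), e.2), h, by simp⟩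

theorem sum_teL (Λ : Finset (DL.Site D)) (f : DL.Site D → DL.Site D → ℝ)
    (hf : ∀ x y, f x y = f y x) :
    ∑ e ∈ teL Λ, f e.1 (e.1 + SB.dir (e.2, true)) =
      (1 / 2) * ∑ x ∈ Λ, ∑ y ∈ Λ, (if SB.dist1 x y = 1 then f x y else 0) +
        ∑ x ∈ Λ, ∑ y ∈ SB.nb x \ Λ, f x y := by
  classical
  set A : Finset (DL.Edge D) := Λ ×ˢ Finset.univ with hA
  set B : Finset (DL.Edge D) := A.image fun e => (e.1 - SB.dir (e.2, true), e.2) with hB
  set F : DL.Edge D → ℝ := fun e => f e.1 (e.1 + SB.dir (e.2, true)) with hF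
  set c : DL.Site D → ℝ := fun y => if y ∈ Λ then 1 / 2 else 1 with hc
  have hAm : ∀ e, e ∈ A ↔ e.1 ∈ Λ := fun e => by simp [hA]
  have hBm : ∀ e, e ∈ B ↔ e.1 + SB.dir (e.2, true) ∈ Λ := fun e => mem_img Λ e
  have h1 : ∑ e ∈ teL Λ, F e = ∑ e ∈ A, c (e.1 + SB.dir (e.2, true)) * F e +
      ∑ e ∈ B, c e.1 * F e := by
    have h2 : ∑ e ∈ A, c (e.1 + SB.dir (e.2, true)) * F e =
        ∑ e ∈ teL Λ, if e ∈ A then c (e.1 + SB.dir (e.2, true)) * F e else 0 := by
      rw [Finset.sum_ite_mem]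
      congr 1
      exact (Finset.inter_eq_right.2 Finset.subset_union_left).symm
    have h3 : ∑ e ∈ B, c e.1 * F e = ∑ e ∈ teL Λ, if e ∈ B then c e.1 * F e else 0 := by
      rw [Finset.sum_ite_mem]
      congr 1
      exact (Finset.inter_eq_right.2 Finset.subset_union_right).symm
    rw [h2, h3, ← Finset.sum_add_distrib]
    refine Finset.sum_congr rfl fun e he => ?_
    have he' : e ∈ A ∨ e ∈ B := Finset.mem_union.1 he
    by_cases ha : e ∈ A
    · by_cases hb : e ∈ B
      · rw [if_pos ha, if_pos hb]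
        simp only [hc]
        rw [if_pos ((hAm e).1 ha), if_pos ((hBm e).1 hb)]
        ring
      · rw [if_pos ha, if_neg hb]
        simp only [hc]
        rw [if_neg fun h => hb ((hBm e).2 h)]
        ring
    · rw [if_neg ha, if_pos (he'.resolve_left ha)]
      simp only [hc]
      rw [if_neg fun h => ha ((hAm e).2 h)]
      ring
  have h4 : ∑ e ∈ B, c e.1 * F e =
      ∑ e ∈ A, c (e.1 + SB.dir (e.2, false)) * f e.1 (e.1 + SB.dir (e.2, false)) := by
    rw [hB, Finset.sum_image]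
    · refine Finset.sum_congr rfl fun e _ => ?_
      simp only [hF]
      rw [dir_false, ← sub_eq_add_neg, sub_add_cancel, hf]
    · intro a _ b _ h
      obtain ⟨h6, h5⟩ := Prod.mk.inj h
      rw [h5] at h6
      exact Prod.ext (sub_left_injective h6) h5
  have h7 : ∀ x ∈ Λ, (1 / 2) * ∑ y ∈ Λ, (if SB.dist1 x y = 1 then f x y else 0) +
      ∑ y ∈ SB.nb x \ Λ, f x y = ∑ y ∈ SB.nb x, c y * f x y := by
    intro x _
    have h8 : ∑ y ∈ Λ, (if SB.dist1 x y = 1 then f x y else 0) =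
        ∑ y ∈ SB.nb x, if y ∈ Λ then f x y else 0 := by
      rw [Finset.sum_ite_mem, ← Finset.sum_filter]
      congr 1
      ext y
      rw [Finset.mem_filter, Finset.mem_inter, SB.mem_nb, SB.dist1_comm]
      exact and_comm
    have h9 : ∑ y ∈ SB.nb x \ Λ, f x y = ∑ y ∈ SB.nb x, if y ∉ Λ then f x y else 0 := by
      rw [← Finset.sum_filter]
      congr 1
      ext y
      simp
    rw [h8, h9, Finset.mul_sum, ← Finset.sum_add_distrib]
    refine Finset.sum_congr rfl fun y _ => ?_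
    simp only [hc]
    by_cases hy : y ∈ Λ
    · rw [if_pos hy, if_pos hy, if_neg (not_not.2 hy), add_zero]
    · rw [if_neg hy, if_neg hy, if_pos hy]
      ring
  have h10 : ∑ e ∈ teL Λ, f e.1 (e.1 + SB.dir (e.2, true)) = ∑ e ∈ teL Λ, F e := rfl
  have h11 : (1 / 2) * ∑ x ∈ Λ, ∑ y ∈ Λ, (if SB.dist1 x y = 1 then f x y else 0) +
        ∑ x ∈ Λ, ∑ y ∈ SB.nb x \ Λ, f x y = ∑ x ∈ Λ, ∑ y ∈ SB.nb x, c y * f x y := by
    rw [Finset.mul_sum, ← Finset.sum_add_distrib]
    exact Finset.sum_congr rfl h7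
  rw [h10, h1, h4, h11, ← Finset.sum_add_distrib, hA, Finset.sum_product]
  refine Finset.sum_congr rfl fun x _ => ?_
  rw [SB.sum_nb, Fintype.sum_prod_type]
  refine Finset.sum_congr rfl fun k _ => ?_
  rw [Fintype.sum_bool]

variable {q : ℕ} [NeZero q]

open Classical in
theorem energyP_eq (Λ : Finset (DL.Site D)) (s : Λ → ZMod q) :
    energyP Λ s = ∑ e ∈ teL Λ,
      if SB.ext s ((DL.lat D).s e) = SB.ext s ((DL.lat D).t e) then 1 else 0 := by
  have h := sum_teL Λ (fun x y => if SB.ext s x = SB.ext s y then (1 : ℝ) else 0) fun x y => by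
    by_cases h1 : SB.ext s x = SB.ext s y
    · rw [if_pos h1, if_pos h1.symm]
    · rw [if_neg h1, if_neg fun h2 => h1 h2.symm]
  have h2 : ∑ e ∈ teL Λ,
      (if SB.ext s ((DL.lat D).s e) = SB.ext s ((DL.lat D).t e) then (1 : ℝ) else 0) =
      ∑ e ∈ teL Λ, if SB.ext s e.1 = SB.ext s (e.1 + SB.dir (e.2, true)) then (1 : ℝ) else 0 := rfl
  rw [h2, h]
  unfold energyP SB.energy
  congr 2
  refine Finset.sum_congr rfl fun x _ => Finset.sum_congr rfl fun y _ => ?_
  have h3 : SB.coup 1 x y = 1 := by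
    unfold SB.coup
    split_ifs <;> rfl
  rw [h3, ite_and]

/-- The constraint. -/
def Cn (ω : Finset (DL.Edge D)) (σ : DL.Site D → ZMod q) : Prop :=
  ∀ e ∈ ω, σ ((DL.lat D).s e) = σ ((DL.lat D).t e)

open Classical in
theorem exp_energyP (β : ℝ) (Λ : Finset (DL.Site D)) (s : Λ → ZMod q) :
    Real.exp (β * energyP Λ s) = ∑ ω ∈ (teL Λ).powerset,
      (Real.exp β - 1) ^ ω.card * if Cn ω (SB.ext s) then 1 else 0 := by
  rw [energyP_eq, Finset.mul_sum, Real.exp_sum]
  have h1 : ∀ e ∈ teL Λ, Real.exp (β *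
      if SB.ext s ((DL.lat D).s e) = SB.ext s ((DL.lat D).t e) then 1 else 0) =
      1 + (Real.exp β - 1) *
        if SB.ext s ((DL.lat D).s e) = SB.ext s ((DL.lat D).t e) then 1 else 0 := by
    intro e _
    split_ifs
    · rw [mul_one, mul_one]
      ring
    · rw [mul_zero, Real.exp_zero, mul_zero, add_zero]
  rw [Finset.prod_congr rfl h1, Finset.prod_one_add]
  refine Finset.sum_congr rfl fun ω _ => ?_
  rw [Finset.prod_mul_distrib, Finset.prod_const, Finset.prod_boole]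
  congr 1
  by_cases h : Cn ω (SB.ext s)
  · rw [if_pos h]
    exact if_pos h
  · rw [if_neg h]
    exact if_neg h

open Classical in
theorem sum_count (Λ : Finset (DL.Site D)) (ω : Finset (DL.Edge D))
    (R : (DL.Site D → ZMod q) → Prop) :
    ∑ s : Λ → ZMod q, (if Cn ω (SB.ext s) ∧ R (SB.ext s) then (1 : ℝ) else 0) =
      (Nat.card {σ : Cg (DL.lat D) q Λ ω // R σ.1} : ℝ) := by
  rw [← Finset.sum_filter, Finset.sum_const, nsmul_eq_mul, mul_one]
  have h1 : (Finset.univ.filter fun s : Λ → ZMod q => Cn ω (SB.ext s) ∧ R (SB.ext s)).card =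
      Nat.card {s : Λ → ZMod q // Cn ω (SB.ext s) ∧ R (SB.ext s)} := by
    rw [Nat.card_eq_fintype_card, Fintype.card_subtype]
  rw [h1]
  congr 1
  have h2 : ∀ σ : Cg (DL.lat D) q Λ ω, SB.ext (fun x : Λ => σ.1 x.1) = σ.1 := by
    intro σ
    funext x
    unfold SB.ext
    split_ifs with h
    · rfl
    · exact (σ.2.1 x h).symm
  refine Nat.card_congr ⟨fun s => ⟨⟨SB.ext s.1, fun x hx => dif_neg hx, s.2.1⟩, s.2.2⟩,
    fun σ => ⟨fun x => σ.1.1 x.1, ?_, ?_⟩, ?_, ?_⟩
  · rw [h2]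
    exact σ.1.2.2
  · rw [h2]
    exact σ.2
  · intro s
    apply Subtype.ext
    funext x
    change SB.ext s.1 x.1 = s.1 x
    unfold SB.ext
    rw [dif_pos x.2]
  · intro σ
    apply Subtype.ext
    apply Subtype.ext
    exact h2 σ.1

/-- The probability that the colour at the origin is the boundary colour. -/
theorem plus_eq_aux (D q : ℕ) [NeZero q] (β : ℝ) (hβ : 0 < β) (L : ℕ) :
    plus D q β L - 1 / q = (1 - 1 / q) * Ex (teL (SB.box D L))
      (w (DL.lat D) q (SB.box D L) (Real.exp β - 1))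
      (ind fun ω => ∃ y, y ∉ SB.box D L ∧ (DL.lat D).Rch ω 0 y) := by
  classical
  set Λ := SB.box D L with hΛ
  set v := Real.exp β - 1 with hv
  have hv0 : 0 < v := by
    have := Real.add_one_lt_exp hβ.ne'
    rw [hv]
    linarith
  set C : Finset (DL.Edge D) → Prop := fun ω => ∃ y, y ∉ Λ ∧ (DL.lat D).Rch ω 0 y with hC
  have hD : ∑ s : Λ → ZMod q, Real.exp (β * energyP Λ s) =
      Sm (teL Λ) (w (DL.lat D) q Λ v) fun _ => 1 := by
    unfold Sm w
    rw [Finset.sum_congr rfl fun s _ => exp_energyP β Λ s, Finset.sum_comm]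
    refine Finset.sum_congr rfl fun ω _ => ?_
    rw [← Finset.mul_sum, mul_one]
    congr 1
    have h := sum_count (q := q) Λ ω fun _ => True
    simp only [and_true] at h
    rw [h]
    unfold nc
    rw [Nat.card_congr (Equiv.subtypeUnivEquiv fun _ => trivial)]
  have hN : ∑ s : Λ → ZMod q, (if SB.ext s 0 = 0 then Real.exp (β * energyP Λ s) else 0) =
      1 / q * Sm (teL Λ) (w (DL.lat D) q Λ v) (fun _ => 1) +
        (1 - 1 / q) * Sm (teL Λ) (w (DL.lat D) q Λ v) (ind C) := by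
    have h1 : ∀ s : Λ → ZMod q, (if SB.ext s 0 = 0 then Real.exp (β * energyP Λ s) else 0) =
        ∑ ω ∈ (teL Λ).powerset, v ^ ω.card *
          if Cn ω (SB.ext s) ∧ SB.ext s 0 = 0 then 1 else 0 := by
      intro s
      rw [exp_energyP]
      by_cases h : SB.ext s 0 = 0
      · rw [if_pos h]
        refine Finset.sum_congr rfl fun ω _ => ?_
        simp only [h, and_true]
        rfl
      · rw [if_neg h, Finset.sum_eq_zero]
        intro ω _
        rw [if_neg fun h1 => h h1.2, mul_zero]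
    rw [Finset.sum_congr rfl fun s _ => h1 s, Finset.sum_comm]
    unfold Sm
    rw [Finset.mul_sum, Finset.mul_sum, ← Finset.sum_add_distrib]
    refine Finset.sum_congr rfl fun ω _ => ?_
    rw [← Finset.mul_sum]
    have h2 : ∑ s : Λ → ZMod q, (if Cn ω (SB.ext s) ∧ SB.ext s 0 = 0 then (1 : ℝ) else 0) =
        (Nat.card {σ : Cg (DL.lat D) q Λ ω // σ.1 0 = 0} : ℝ) := by
      convert sum_count (q := q) Λ ω fun σ => σ 0 = 0
    have h3 := nc0_eq (DL.lat D) q Λ ω 0
    unfold nc0 at h3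
    rw [h2, h3]
    unfold w
    ring
  have hp : 0 < Sm (teL Λ) (w (DL.lat D) q Λ v) fun _ => 1 :=
    Sm_one_pos fun a => w_pos_aux (DL.lat D) q hv0 Λ a
  unfold plus Ex
  rw [← hΛ, hD, hN]
  field_simp
  ring

theorem latH_te (Λ : Finset (DL.Site D)) : (latH D).te Λ = teL Λ := rfl

/-- Spins and random clusters. -/
theorem plus_eq (D q : ℕ) [NeZero q] (hq : 2 ≤ q) {β : ℝ} (hβ : 0 < β) (L : ℕ) :
    plus D q β L - 1 / q = (1 - 1 / q) * Ex ((latH D).te (SB.box D L))
      (w (DL.lat D) q (SB.box D L) (Real.exp β - 1))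
      (ind fun ω => ∃ y, y ∉ SB.box D L ∧ (DL.lat D).Rch ω 0 y) := by
  rw [latH_te]
  exact plus_eq_aux D q β hβ L

end Spin

end Pool.Agent.DLS
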