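import Pool.Agent.DLS.Defs

/-!
# Sharpness: the exploration of the clusters of the vertices with `P`

The tree keeps the set `S` of the queried edges and the set `A` of the open ones among them. It
queries an edge outside `S` with an end connected in `A` to a vertex with `P`, and stops if there
is none.
-/

set_option autoImplicit false
set_option linter.unusedSectionVars false

namespace Pool.Agent.DLS

open Finset

section S3

variable {V ι : Type} [DecidableEq V] [DecidableEq ι] (G : DL.Gr V ι)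

/-- the edges of ω whose ends are connected in ω to a vertex with P -/
noncomputable def clus (P : V → Prop) (ω : Finset ι) : Finset ι :=
  open Classical in ω.filter fun e => ∃ y, P y ∧ G.Rch ω (G.s e) y

variable {G}

theorem ex_step_symm {ω : Finset ι} {x y : V} (h : G.Step ω x y) : G.Step ω y x := by
  obtain ⟨e, he, h⟩ := h
  exact ⟨e, he, h.symm⟩

theorem ex_rch_symm {ω : Finset ι} {x y : V} (h : G.Rch ω x y) : G.Rch ω y x := by
  induction h with
  | refl => exact Relation.ReflTransGen.refl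
  | tail _ h ih => exact Relation.ReflTransGen.head (ex_step_symm h) ih

theorem ex_rch_mono {a b : Finset ι} (hab : a ⊆ b) {x y : V} (h : G.Rch a x y) : G.Rch b x y :=
  Relation.ReflTransGen.mono (r := G.Step a) (p := G.Step b)
    (fun _ _ ⟨e, he, h⟩ => ⟨e, hab he, h⟩) _ _ h

/-- A vertex of `P` is connected in `ω` only to the vertices to which it is connected in `A`, if
the edges of `ω` which touch the clusters of `P` in `A` are edges of `A`. -/
theorem ex_rch_closed {A ω : Finset ι} {P : V → Prop}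
    (h : ∀ e ∈ ω, ((∃ y, P y ∧ G.Rch A (G.s e) y) ∨ ∃ y, P y ∧ G.Rch A (G.t e) y) → e ∈ A)
    {x y : V} (hy : P y) (hxy : G.Rch ω x y) : G.Rch A x y := by
  apply ex_rch_symm
  have h1 := ex_rch_symm hxy
  induction h1 with
  | refl => exact Relation.ReflTransGen.refl
  | tail h2 h3 ih =>
    have h4 := ih (ex_rch_symm h2)
    obtain ⟨e, he, hs⟩ := h3
    refine h4.tail ⟨e, h e he ?_, hs⟩
    rcases hs with ⟨hs, -⟩ | ⟨-, hs⟩
    · exact Or.inl ⟨y, hy, hs ▸ ex_rch_symm h4⟩
    · exact Or.inr ⟨y, hy, hs ▸ ex_rch_symm h4⟩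

theorem ex_clus_eq {A ω : Finset ι} {P : V → Prop} (hA : A ⊆ ω)
    (h : ∀ e ∈ ω, ((∃ y, P y ∧ G.Rch A (G.s e) y) ∨ ∃ y, P y ∧ G.Rch A (G.t e) y) → e ∈ A) :
    clus G P ω = clus G P A := by
  ext e
  simp only [clus, mem_filter]
  constructor
  · rintro ⟨he, y, hy, hr⟩
    have h1 := ex_rch_closed h hy hr
    exact ⟨h e he (Or.inl ⟨y, hy, h1⟩), y, hy, h1⟩
  · rintro ⟨he, y, hy, hr⟩
    exact ⟨hA he, y, hy, ex_rch_mono hA hr⟩

theorem explore_aux (E : Finset ι) (P : V → Prop) (F : Finset ι → Prop)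
    (hF : ∀ ω, ω ⊆ E → (F ω ↔ F (clus G P ω))) (n : ℕ) :
    ∀ S A : Finset ι, S ⊆ E → A ⊆ S → (E \ S).card = n →
    ∃ T : DT ι, T.ok E S ∧ (∀ ω, ω ∩ S = A → T.val ω = ind F (ω ∩ E)) ∧
      ∀ ω, ω ∩ S = A → ∀ e ∈ T.qs ω, e ∈ E ∧
        ((∃ y, P y ∧ G.Rch (ω ∩ E) (G.s e) y) ∨ ∃ y, P y ∧ G.Rch (ω ∩ E) (G.t e) y) := by
  induction n with
  | zero =>
    intro S A hS hA hn
    have hSE : S = E := subset_antisymm hS (sdiff_eq_empty_iff_subset.1 (card_eq_zero.1 hn))
    subst hSE
    refine ⟨DT.leaf (ind F A), ?_, fun ω hω => by rw [hω]; rfl, fun ω _ e he => ?_⟩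
    · unfold ind DT.ok
      split_ifs <;> norm_num
    · exact absurd he (notMem_empty e)
  | succ n ih =>
    intro S A hS hA hn
    by_cases hex : ∃ e ∈ E \ S,
        (∃ y, P y ∧ G.Rch A (G.s e) y) ∨ ∃ y, P y ∧ G.Rch A (G.t e) y
    · obtain ⟨e, he, hr⟩ := hex
      obtain ⟨heE, heS⟩ := mem_sdiff.1 he
      have hS' : insert e S ⊆ E := insert_subset heE hS
      have hc : (E \ insert e S).card = n := by
        have h1 : E \ insert e S = (E \ S).erase e := by
          ext x
          simp only [mem_sdiff, mem_insert, mem_erase]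
          tauto
        rw [h1, card_erase_of_mem he, hn]
        rfl
      obtain ⟨T0, h01, h02, h03⟩ := ih (insert e S) A hS' (hA.trans (subset_insert _ _)) hc
      obtain ⟨T1, h11, h12, h13⟩ := ih (insert e S) (insert e A) hS' (insert_subset_insert _ hA) hc
      have h0 : ∀ ω, ω ∩ S = A → e ∉ ω → ω ∩ insert e S = A := by
        intro ω hω heω
        rw [inter_insert_of_notMem heω, hω]
      have h1 : ∀ ω, ω ∩ S = A → e ∈ ω → ω ∩ insert e S = insert e A := by
        intro ω hω heω
        rw [inter_insert_of_mem heω, hω]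
      refine ⟨DT.node e T0 T1, ⟨heE, heS, h01, h11⟩, fun ω hω => ?_, fun ω hω x hx => ?_⟩
      · by_cases heω : e ∈ ω
        · simp only [DT.val, if_pos heω]
          exact h12 ω (h1 ω hω heω)
        · simp only [DT.val, if_neg heω]
          exact h02 ω (h0 ω hω heω)
      · simp only [DT.qs, mem_insert] at hx
        rcases hx with rfl | hx
        · have hsub : A ⊆ ω ∩ E := by
            rw [← hω]
            exact inter_subset_inter_left hS
          refine ⟨heE, ?_⟩
          rcases hr with ⟨y, hy, hr⟩ | ⟨y, hy, hr⟩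
          · exact Or.inl ⟨y, hy, ex_rch_mono hsub hr⟩
          · exact Or.inr ⟨y, hy, ex_rch_mono hsub hr⟩
        · by_cases heω : e ∈ ω
          · rw [if_pos heω] at hx
            exact h13 ω (h1 ω hω heω) x hx
          · rw [if_neg heω] at hx
            exact h03 ω (h0 ω hω heω) x hx
    · refine ⟨DT.leaf (ind F A), ?_, fun ω hω => ?_, fun ω _ e he => ?_⟩
      · unfold ind DT.ok
        split_ifs <;> norm_num
      · have hsub : A ⊆ ω ∩ E := by
          rw [← hω]
          exact inter_subset_inter_left hS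
        have hcl : clus G P (ω ∩ E) = clus G P A := by
          refine ex_clus_eq hsub fun e he hr => ?_
          by_contra hne
          refine hex ⟨e, mem_sdiff.2 ⟨(mem_inter.1 he).2, fun heS => hne ?_⟩, hr⟩
          rw [← hω]
          exact mem_inter.2 ⟨(mem_inter.1 he).1, heS⟩
        have h1 := hF (ω ∩ E) inter_subset_right
        have h2 := hF A (hA.trans hS)
        rw [hcl] at h1
        have h3 : F A ↔ F (ω ∩ E) := h2.trans h1.symm
        change ind F A = ind F (ω ∩ E)
        unfold ind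
        by_cases hFA : F A
        · rw [if_pos hFA, if_pos (h3.1 hFA)]
        · rw [if_neg hFA, if_neg fun h => hFA (h3.2 h)]
      · exact absurd he (notMem_empty e)

variable (G)

theorem explore (E : Finset ι) (P : V → Prop) (F : Finset ι → Prop)
    (hF : ∀ ω, ω ⊆ E → (F ω ↔ F (clus G P ω))) :
    ∃ T : DT ι, T.ok E ∅ ∧ (∀ ω, T.val ω = ind F (ω ∩ E)) ∧
      ∀ ω, ∀ e ∈ T.qs ω, e ∈ E ∧
        ((∃ y, P y ∧ G.Rch (ω ∩ E) (G.s e) y) ∨ ∃ y, P y ∧ G.Rch (ω ∩ E) (G.t e) y) := by
  obtain ⟨T, h1, h2, h3⟩ := explore_aux (G := G) E P F hF (E \ ∅).card ∅ ∅ (empty_subset _)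
    (empty_subset _) rfl
  exact ⟨T, h1, fun ω => h2 ω (inter_empty ω), fun ω => h3 ω (inter_empty ω)⟩

end S3

end Pool.Agent.DLS
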