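import Pool.Agent.DLS.LatH
import Pool.Agent.DLS.Expl
import Pool.Agent.DL.FKA

/-!
# Sharpness: the bridge between colourings and ranks

The number of the colourings supported in `I` in terms of the rank; the wired box.
-/

set_option autoImplicit false
set_option linter.unusedSectionVars false

namespace Pool.Agent.DLS

open Finset

section B1

variable {V ι : Type} [DecidableEq V] [DecidableEq ι] (G : DL.Gr V ι) (q : ℕ) [NeZero q]

theorem br_finite (I : Finset V) (ω : Finset ι) : Finite (Cg G q I ω) := by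
  refine Finite.of_injective (fun σ : Cg G q I ω => fun x : I => σ.1 x.1) ?_
  intro σ τ h
  apply Subtype.ext
  funext x
  by_cases hx : x ∈ I
  · exact congrFun h ⟨x, hx⟩
  · rw [σ.2.1 x hx, τ.2.1 x hx]

/-- All colourings. -/
def brEquiv (I : Finset V) : Cg G q I ∅ ≃ (I → ZMod q) where
  toFun := fun σ x => σ.1 x.1
  invFun := fun f => ⟨fun x => if h : x ∈ I then f ⟨x, h⟩ else 0,
    ⟨fun x hx => dif_neg hx, fun e he => absurd he (notMem_empty e)⟩⟩
  left_inv := by
    intro σ
    apply Subtype.ext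
    funext x
    change (if h : x ∈ I then σ.1 x else 0) = σ.1 x
    by_cases hx : x ∈ I
    · rw [dif_pos hx]
    · rw [dif_neg hx, σ.2.1 x hx]
  right_inv := by
    intro f
    funext x
    change (if h : x.1 ∈ I then f ⟨x.1, h⟩ else 0) = f x
    rw [dif_pos x.2]

theorem br_nc_empty (I : Finset V) : nc G q I ∅ = (q : ℝ) ^ I.card := by
  unfold nc
  rw [Nat.card_congr (brEquiv G q I), Nat.card_eq_fintype_card, Fintype.card_fun, ZMod.card,
    Fintype.card_coe]
  push_cast
  rfl

variable {G}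

theorem br_const {ω : Finset ι} {σ : V → ZMod q} (h : ∀ e ∈ ω, σ (G.s e) = σ (G.t e)) {x y : V}
    (hxy : G.Rch ω x y) : σ x = σ y := by
  induction hxy with
  | refl => rfl
  | tail _ h2 ih =>
    obtain ⟨e, he, ⟨h3, h4⟩ | ⟨h3, h4⟩⟩ := h2
    · rw [ih, ← h3, ← h4, h e he]
    · rw [ih, ← h3, ← h4, h e he]

theorem br_stay {ω : Finset ι} {I : Finset V} (hω : ∀ e ∈ ω, G.s e ∈ I ∧ G.t e ∈ I) {x y : V}
    (hx : x ∈ I) (hxy : G.Rch ω x y) : y ∈ I := by
  induction hxy with
  | refl => exact hx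
  | tail _ h2 _ =>
    obtain ⟨e, he, ⟨h3, h4⟩ | ⟨h3, h4⟩⟩ := h2
    · rw [← h4]
      exact (hω e he).2
    · rw [← h3]
      exact (hω e he).1

theorem br_nc_insert_rch {I : Finset V} {ω : Finset ι} {e : ι}
    (h : G.Rch ω (G.s e) (G.t e)) : nc G q I (insert e ω) = nc G q I ω := by
  have h1 : Cg G q I (insert e ω) = Cg G q I ω := by
    ext σ
    constructor
    · rintro ⟨h1, h2⟩
      exact ⟨h1, fun f hf => h2 f (mem_insert_of_mem hf)⟩
    · rintro ⟨h1, h2⟩
      refine ⟨h1, fun f hf => ?_⟩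
      rcases mem_insert.1 hf with rfl | hf
      · exact br_const q h2 h
      · exact h2 f hf
  unfold nc
  rw [h1]

/-- The difference of the colours at the ends of an edge. -/
def brDiff (I : Finset V) (ω : Finset ι) (e : ι) : Cg G q I ω →+ ZMod q where
  toFun := fun σ => σ.1 (G.s e) - σ.1 (G.t e)
  map_zero' := sub_self _
  map_add' := fun σ τ => by
    change σ.1 (G.s e) + τ.1 (G.s e) - (σ.1 (G.t e) + τ.1 (G.t e)) = _
    ring

/-- The kernel. -/
def brKer (I : Finset V) (ω : Finset ι) (e : ι) :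
    (brDiff (G := G) q I ω e).ker ≃ Cg G q I (insert e ω) where
  toFun := fun σ => ⟨σ.1.1, σ.1.2.1, fun f hf => by
    rcases mem_insert.1 hf with rfl | hf
    · exact sub_eq_zero.1 ((AddMonoidHom.mem_ker).1 σ.2)
    · exact σ.1.2.2 f hf⟩
  invFun := fun σ => ⟨⟨σ.1, σ.2.1, fun f hf => σ.2.2 f (mem_insert_of_mem hf)⟩,
    (AddMonoidHom.mem_ker).2 (sub_eq_zero.2 (σ.2.2 e (mem_insert_self _ _)))⟩
  left_inv := fun _ => rfl
  right_inv := fun _ => rfl

theorem br_nc_insert_not {I : Finset V} {ω : Finset ι} (hω : ∀ e ∈ ω, G.s e ∈ I ∧ G.t e ∈ I)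
    {e : ι} (hs : G.s e ∈ I) (h : ¬ G.Rch ω (G.s e) (G.t e)) :
    nc G q I ω = q * nc G q I (insert e ω) := by
  classical
  have hsurj : Function.Surjective (brDiff (G := G) q I ω e) := by
    intro c
    refine ⟨⟨fun x => if G.Rch ω (G.s e) x then c else 0, fun x hx => ?_, fun f hf => ?_⟩, ?_⟩
    · exact if_neg fun hr => hx (br_stay hω hs hr)
    · have h1 : G.Rch ω (G.s e) (G.s f) ↔ G.Rch ω (G.s e) (G.t f) :=
        ⟨fun hr => hr.tail ⟨f, hf, Or.inl ⟨rfl, rfl⟩⟩, fun hr => hr.tail ⟨f, hf, Or.inr ⟨rfl, rfl⟩⟩⟩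
      simp only [h1]
    · change (if G.Rch ω (G.s e) (G.s e) then c else 0) -
        (if G.Rch ω (G.s e) (G.t e) then c else 0) = c
      have hrefl : G.Rch ω (G.s e) (G.s e) := Relation.ReflTransGen.refl
      rw [if_pos hrefl, if_neg h, sub_zero]
  have h1 := AddSubgroup.card_eq_card_quotient_mul_card_addSubgroup
    (brDiff (G := G) q I ω e).ker
  have h2 : Nat.card (Cg G q I ω ⧸ (brDiff (G := G) q I ω e).ker) = q := by
    rw [Nat.card_congr (QuotientAddGroup.quotientKerEquivOfSurjective _ hsurj).toEquiv,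
      Nat.card_zmod]
  have h3 : Nat.card (brDiff (G := G) q I ω e).ker = Nat.card (Cg G q I (insert e ω)) :=
    Nat.card_congr (brKer q I ω e)
  unfold nc
  rw [h1, h2, h3]
  push_cast
  rfl

/-- The number of colourings in terms of the rank. -/
theorem nc_eq (Λ : Finset V) (ω : Finset ι) (h : ∀ e ∈ ω, G.s e ∈ Λ ∧ G.t e ∈ Λ) :
    nc G q Λ ω = (q : ℝ) ^ Λ.card * ((q : ℝ)⁻¹) ^ G.rk ω := by
  have hq : (q : ℝ) ≠ 0 := Nat.cast_ne_zero.2 (NeZero.ne q)
  induction ω using Finset.induction_on with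
  | empty => rw [br_nc_empty, DL.Gr.rk_empty, pow_zero, mul_one]
  | insert e ω he ih =>
    have h1 : ∀ f ∈ ω, G.s f ∈ Λ ∧ G.t f ∈ Λ := fun f hf => h f (mem_insert_of_mem hf)
    by_cases hr : G.Rch ω (G.s e) (G.t e)
    · rw [br_nc_insert_rch q hr, DL.Gr.rk_insert_of_rch G hr, ih h1]
    · have h2 := br_nc_insert_not q h1 (h e (mem_insert_self _ _)).1 hr
      rw [ih h1] at h2
      rw [DL.Gr.rk_insert_of_not G hr, pow_succ, ← mul_assoc, h2]
      field_simp

end B1

section B2

variable {D : ℕ}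

/-- The coordinates. -/
def co (x : DL.Site D) : Option (Fin D) → ℤ
  | none => x.1
  | some i => x.2 i

theorem co_add (x y : DL.Site D) (k : Option (Fin D)) : co (x + y) k = co x k + co y k := by
  cases k <;> rfl

theorem co_dir (k k' : Option (Fin D)) :
    co (SB.dir (k, true) : DL.Site D) k' = if k' = k then 1 else 0 := by
  cases k with
  | none =>
    cases k' with
    | none => rfl
    | some i => rfl
  | some j =>
    cases k' with
    | none => rfl
    | some i =>
      change (Pi.single j 1 : Fin D → ℤ) i = _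
      by_cases h : i = j
      · subst h
        rw [Pi.single_eq_same, if_pos rfl]
      · rw [Pi.single_eq_of_ne h, if_neg fun h' => h (Option.some_injective _ h')]

theorem mem_box_co {L : ℕ} (x : DL.Site D) :
    x ∈ SB.box D L ↔ ∀ k, (co x k).natAbs ≤ L := by
  rw [mem_box_iff]
  constructor
  · rintro ⟨h1, h2⟩ k
    cases k with
    | none => exact h1
    | some i => exact h2 i
  · intro h
    exact ⟨h none, fun i => h (some i)⟩

theorem co_ext {x y : DL.Site D} (h : ∀ k, co x k = co y k) : x = y :=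
  Prod.ext (h none) (funext fun i => h (some i))

/-- The edges of the box with both ends on the sphere. -/
noncomputable def sphE (D N : ℕ) : Finset (DL.Edge D) :=
  (DL.edg (SB.box D N)).filter fun e =>
    e.1 ∉ SB.box D (N - 1) ∧ (DL.lat D).t e ∉ SB.box D (N - 1)

theorem mem_edg {Λ : Finset (DL.Site D)} (e : DL.Edge D) :
    e ∈ DL.edg Λ ↔ e.1 ∈ Λ ∧ (DL.lat D).t e ∈ Λ := by
  unfold DL.edg
  rw [mem_filter, mem_product]
  exact ⟨fun h => ⟨h.1.1, h.2⟩, fun h => ⟨⟨h.1, mem_univ _⟩, h.2⟩⟩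

theorem t_eq (e : DL.Edge D) : (DL.lat D).t e = e.1 + SB.dir (e.2, true) := rfl

theorem co_t (e : DL.Edge D) (k : Option (Fin D)) :
    co ((DL.lat D).t e) k = co e.1 k + if k = e.2 then 1 else 0 := by
  rw [t_eq, co_add, co_dir]

theorem sph_coord {N : ℕ} (hN : 1 ≤ N) {x : DL.Site D} (hx : x ∈ SB.box D N)
    (hx' : x ∉ SB.box D (N - 1)) : ∃ k, (co x k).natAbs = N := by
  rw [mem_box_co] at hx hx'
  push Not at hx'
  obtain ⟨k, hk⟩ := hx'
  exact ⟨k, by have := hx k; omega⟩

theorem not_box_of_coord {N : ℕ} (hN : 1 ≤ N) {x : DL.Site D} {k : Option (Fin D)}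
    (h : (co x k).natAbs = N) : x ∉ SB.box D (N - 1) := by
  intro hx
  have := (mem_box_co x).1 hx k
  omega

/-- The corner of the box. -/
def crn (D N : ℕ) : DL.Site D := ((N : ℤ), fun _ => (N : ℤ))

theorem co_crn (N : ℕ) (k : Option (Fin D)) : co (crn D N) k = N := by
  cases k <;> rfl

theorem crn_mem {N : ℕ} (hN : 1 ≤ N) : crn D N ∈ SB.box D N ∧ crn D N ∉ SB.box D (N - 1) :=
  ⟨(mem_box_co _).2 fun k => by rw [co_crn]; omega,
    not_box_of_coord hN (k := none) (by rw [co_crn]; omega)⟩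

theorem sph_crn (hD : 1 ≤ D) {N : ℕ} (hN : 1 ≤ N) (n : ℕ) : ∀ x : DL.Site D,
    ∑ k, ((N : ℤ) - co x k).toNat = n → x ∈ SB.box D N → x ∉ SB.box D (N - 1) →
      (DL.lat D).Rch (sphE D N) x (crn D N) := by
  induction n using Nat.strong_induction_on with
  | _ n ih =>
    intro x hn hx hx'
    have hxc := (mem_box_co x).1 hx
    by_cases hc : ∀ k, co x k = N
    · have : x = crn D N := co_ext fun k => by rw [hc k, co_crn]
      rw [this]
      exact Relation.ReflTransGen.refl
    · push Not at hc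
      have hex : ∃ k i, i ≠ k ∧ co x k < N ∧ (co x i).natAbs = N := by
        obtain ⟨i, hi⟩ := sph_coord hN hx hx'
        by_cases h1 : ∃ k, k ≠ i ∧ co x k ≠ N
        · obtain ⟨k, hk, hk'⟩ := h1
          have := hxc k
          exact ⟨k, i, hk.symm, by omega, hi⟩
        · push Not at h1
          obtain ⟨k, hk⟩ := hc
          have hki : k = i := by
            by_contra h2
            exact hk (h1 k h2)
          subst hki
          have hne : ∃ j : Option (Fin D), j ≠ k := by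
            have : Nontrivial (Option (Fin D)) := by
              refine ⟨⟨none, some ⟨0, hD⟩, fun h => ?_⟩⟩
              cases h
            exact exists_ne k
          obtain ⟨j, hj⟩ := hne
          have := hxc k
          exact ⟨k, j, hj, by omega, by rw [h1 j hj]; omega⟩
      obtain ⟨k, i, hik, hk, hi⟩ := hex
      set y : DL.Site D := (DL.lat D).t (x, k) with hy
      have hco : ∀ j, co y j = co x j + if j = k then 1 else 0 := fun j => co_t (x, k) j
      have hyi : (co y i).natAbs = N := by rw [hco, if_neg hik, add_zero, hi]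
      have hyb : y ∈ SB.box D N := by
        rw [mem_box_co]
        intro j
        rw [hco]
        have := hxc j
        by_cases hj : j = k
        · subst hj
          rw [if_pos rfl]
          omega
        · rw [if_neg hj, add_zero]
          exact this
      have hyb' : y ∉ SB.box D (N - 1) := not_box_of_coord hN hyi
      have hlt : ∑ j, ((N : ℤ) - co y j).toNat < n := by
        rw [← hn]
        refine sum_lt_sum (fun j _ => ?_) ⟨k, mem_univ _, ?_⟩
        · rw [hco]
          split_ifs <;> omega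
        · rw [hco, if_pos rfl]
          omega
      refine Relation.ReflTransGen.head ?_ (ih _ hlt y rfl hyb hyb')
      refine ⟨(x, k), ?_, Or.inl ⟨rfl, rfl⟩⟩
      unfold sphE
      rw [mem_filter, mem_edg]
      exact ⟨⟨hx, hyb⟩, hx', hyb'⟩

theorem sph_conn (hD : 1 ≤ D) {N : ℕ} (hN : 1 ≤ N) {x y : DL.Site D} (hx : x ∈ SB.box D N)
    (hx' : x ∉ SB.box D (N - 1)) (hy : y ∈ SB.box D N) (hy' : y ∉ SB.box D (N - 1)) :
    (DL.lat D).Rch (sphE D N) x y :=
  Relation.ReflTransGen.trans (sph_crn hD hN _ x rfl hx hx')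
    (ex_rch_symm (sph_crn hD hN _ y rfl hy hy'))

theorem br_mem_te {I : Finset (DL.Site D)} (e : DL.Edge D) :
    e ∈ (latH D).te I ↔ e.1 ∈ I ∨ (DL.lat D).t e ∈ I := by
  unfold Hg.te
  rw [mem_union, mem_image]
  constructor
  · rintro (h | ⟨f, hf, rfl⟩)
    · exact Or.inl (mem_product.1 h).1
    · right
      rw [t_eq]
      change f.1 - (latH D).u f.2 + SB.dir (f.2, true) ∈ I
      rw [latH_u, sub_add_cancel]
      exact (mem_product.1 hf).1
  · rintro (h | h)
    · exact Or.inl (mem_product.2 ⟨h, mem_univ _⟩)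
    · refine Or.inr ⟨((DL.lat D).t e, e.2), mem_product.2 ⟨h, mem_univ _⟩, ?_⟩
      refine Prod.ext ?_ rfl
      change (DL.lat D).t e - (latH D).u e.2 = e.1
      rw [latH_u, t_eq, add_sub_cancel_right]

/-- The edges of the box are those of the sphere and those which touch the smaller box. -/
theorem edg_split {N : ℕ} (hN : 1 ≤ N) (e : DL.Edge D) :
    e ∈ DL.edg (SB.box D N) ↔ e ∈ sphE D N ∨ e ∈ (latH D).te (SB.box D (N - 1)) := by
  have h1 : ∀ e : DL.Edge D, e ∈ (latH D).te (SB.box D (N - 1)) → e ∈ DL.edg (SB.box D N) := by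
    intro e he
    rw [mem_edg, mem_box_co, mem_box_co]
    rcases (br_mem_te e).1 he with h | h
    · have h2 := (mem_box_co _).1 h
      refine ⟨fun k => by have := h2 k; omega, fun k => ?_⟩
      rw [co_t]
      have := h2 k
      split_ifs <;> omega
    · have h2 := (mem_box_co _).1 h
      refine ⟨fun k => ?_, fun k => by have := h2 k; omega⟩
      have := h2 k
      rw [co_t] at this
      split_ifs at this <;> omega
  constructor
  · intro he
    by_cases h : e ∈ (latH D).te (SB.box D (N - 1))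
    · exact Or.inr h
    · left
      rw [br_mem_te] at h
      push Not at h
      exact mem_filter.2 ⟨he, h⟩
  · rintro (h | h)
    · exact (mem_filter.1 h).1
    · exact h1 e h

theorem sph_disj {N : ℕ} : Disjoint (sphE D N) ((latH D).te (SB.box D (N - 1))) := by
  rw [disjoint_left]
  intro e h1 h2
  have h3 := (mem_filter.1 h1).2
  rcases (br_mem_te e).1 h2 with h | h
  · exact h3.1 h
  · exact h3.2 h

variable (q : ℕ) [NeZero q]

/-- The colour of the sphere. -/
def brAt (I : Finset (DL.Site D)) (ω : Finset (DL.Edge D)) (p : DL.Site D) :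
    Cg (DL.lat D) q I ω →+ ZMod q where
  toFun := fun σ => σ.1 p
  map_zero' := rfl
  map_add' := fun _ _ => rfl

/-- The colourings with colour `0` on the sphere. -/
def brKer2 (hD : 1 ≤ D) {N : ℕ} (hN : 1 ≤ N) (ω : Finset (DL.Edge D)) :
    (brAt q (SB.box D N) (sphE D N ∪ ω) (crn D N)).ker ≃
      Cg (DL.lat D) q (SB.box D (N - 1)) ω where
  toFun := fun σ => ⟨σ.1.1, fun x hx => by
    by_cases hb : x ∈ SB.box D N
    · have h1 := br_const q (G := DL.lat D) (fun e he => σ.1.2.2 e (mem_union_left _ he))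
        (sph_conn hD hN hb hx (crn_mem hN).1 (crn_mem hN).2)
      rw [h1]
      exact (AddMonoidHom.mem_ker).1 σ.2
    · exact σ.1.2.1 x hb, fun e he => σ.1.2.2 e (mem_union_right _ he)⟩
  invFun := fun σ => ⟨⟨σ.1, fun x hx => σ.2.1 x fun h => hx <| by
      rw [mem_box_co] at h ⊢
      intro k
      have := h k
      omega, fun e he => by
      rcases mem_union.1 he with h | h
      · have h3 := (mem_filter.1 h).2
        rw [show σ.1 ((DL.lat D).t e) = 0 from σ.2.1 _ h3.2]
        exact σ.2.1 _ h3.1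
      · exact σ.2.2 e h⟩, (AddMonoidHom.mem_ker).2 (σ.2.1 _ (crn_mem hN).2)⟩
  left_inv := fun _ => rfl
  right_inv := fun _ => rfl

theorem br_nc_sph (hD : 1 ≤ D) {N : ℕ} (hN : 1 ≤ N) {ω : Finset (DL.Edge D)}
    (hω : ω ⊆ (latH D).te (SB.box D (N - 1))) :
    nc (DL.lat D) q (SB.box D N) (sphE D N ∪ ω) =
      q * nc (DL.lat D) q (SB.box D (N - 1)) ω := by
  classical
  have hE : ∀ e ∈ sphE D N ∪ ω, e.1 ∈ SB.box D N ∧ (DL.lat D).t e ∈ SB.box D N := by
    intro e he
    rw [← mem_edg, edg_split hN]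
    rcases mem_union.1 he with h | h
    · exact Or.inl h
    · exact Or.inr (hω h)
  have hsurj : Function.Surjective (brAt q (SB.box D N) (sphE D N ∪ ω) (crn D N)) := by
    intro c
    refine ⟨⟨fun x => if x ∈ SB.box D N then c else 0, fun x hx => if_neg hx,
      fun e he => ?_⟩, if_pos (crn_mem hN).1⟩
    have := hE e he
    change (if e.1 ∈ SB.box D N then c else 0) = if (DL.lat D).t e ∈ SB.box D N then c else 0
    rw [if_pos this.1, if_pos this.2]
  have h1 := AddSubgroup.card_eq_card_quotient_mul_card_addSubgroup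
    (brAt q (SB.box D N) (sphE D N ∪ ω) (crn D N)).ker
  have h2 : Nat.card (Cg (DL.lat D) q (SB.box D N) (sphE D N ∪ ω) ⧸
      (brAt q (SB.box D N) (sphE D N ∪ ω) (crn D N)).ker) = q := by
    rw [Nat.card_congr (QuotientAddGroup.quotientKerEquivOfSurjective _ hsurj).toEquiv,
      Nat.card_zmod]
  have h3 := Nat.card_congr (brKer2 q hD hN ω)
  unfold nc
  rw [h1, h2, h3]
  push_cast
  rfl

/-- The weight of the wired box. -/
theorem br_wt (hD : 1 ≤ D) {N : ℕ} (hN : 1 ≤ N) (v : ℝ) {ω : Finset (DL.Edge D)}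
    (hω : ω ⊆ (latH D).te (SB.box D (N - 1))) :
    (DL.lat D).wt (q : ℝ) (fun _ => v) (sphE D N ∪ ω) =
      v ^ (sphE D N).card * q / (q : ℝ) ^ (SB.box D N).card *
        w (DL.lat D) q (SB.box D (N - 1)) v ω := by
  have hq : (q : ℝ) ≠ 0 := Nat.cast_ne_zero.2 (NeZero.ne q)
  have hE : ∀ e ∈ sphE D N ∪ ω, (DL.lat D).s e ∈ SB.box D N ∧ (DL.lat D).t e ∈ SB.box D N := by
    intro e he
    have : e ∈ DL.edg (SB.box D N) := by
      rw [edg_split hN]
      rcases mem_union.1 he with h | h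
      · exact Or.inl h
      · exact Or.inr (hω h)
    exact (mem_edg e).1 this
  have h1 := nc_eq q (G := DL.lat D) (SB.box D N) (sphE D N ∪ ω) hE
  rw [br_nc_sph q hD hN hω] at h1
  have hdis : Disjoint (sphE D N) ω := disjoint_of_subset_right hω sph_disj
  unfold DL.Gr.wt w
  rw [prod_const, card_union_of_disjoint hdis, pow_add]
  have h2 : ((q : ℝ)⁻¹) ^ (DL.lat D).rk (sphE D N ∪ ω) =
      q * nc (DL.lat D) q (SB.box D (N - 1)) ω / (q : ℝ) ^ (SB.box D N).card := by
    rw [h1]
    field_simp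
  rw [h2]
  ring

/-- The first exit of a box. -/
theorem first_exit {I : Finset (DL.Site D)} {ω : Finset (DL.Edge D)} {x y : DL.Site D}
    (hx : x ∈ I) (h : (DL.lat D).Rch ω x y) :
    ((DL.lat D).Rch (ω ∩ (latH D).te I) x y ∧ y ∈ I) ∨
      ∃ y', y' ∉ I ∧ (DL.lat D).Rch (ω ∩ (latH D).te I) x y' := by
  induction h with
  | refl => exact Or.inl ⟨Relation.ReflTransGen.refl, hx⟩
  | tail _ h2 ih =>
    rename_i z y _
    rcases ih with ⟨ih, hz⟩ | ih
    · obtain ⟨e, he, hs⟩ := h2
      have hT : e ∈ (latH D).te I := by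
        rw [br_mem_te]
        rcases hs with ⟨hs, -⟩ | ⟨-, hs⟩
        · left
          change e.1 = z at hs
          rw [hs]
          exact hz
        · right
          rw [hs]
          exact hz
      have h3 : (DL.lat D).Rch (ω ∩ (latH D).te I) x y := ih.tail ⟨e, mem_inter.2 ⟨he, hT⟩, hs⟩
      by_cases hy : y ∈ I
      · exact Or.inl ⟨h3, hy⟩
      · exact Or.inr ⟨y, hy, h3⟩
    · exact Or.inr ih

theorem zero_mem_box (L : ℕ) : (0 : DL.Site D) ∈ SB.box D L := by
  rw [mem_box_co]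
  intro k
  cases k <;> simp [co]

theorem br_exit {N : ℕ} {ω : Finset (DL.Edge D)}
    (hω : ω ⊆ (latH D).te (SB.box D (N - 1))) :
    (∃ y, y ∉ SB.box D (N - 1) ∧ (DL.lat D).Rch (sphE D N ∪ ω) 0 y) ↔
      ∃ y, y ∉ SB.box D (N - 1) ∧ (DL.lat D).Rch ω 0 y := by
  have h1 : (sphE D N ∪ ω) ∩ (latH D).te (SB.box D (N - 1)) = ω := by
    rw [union_inter_distrib_right, disjoint_iff_inter_eq_empty.1 sph_disj, empty_union]
    exact inter_eq_left.2 hω
  constructor
  · rintro ⟨y, hy, h⟩
    rcases first_exit (zero_mem_box (N - 1)) h with ⟨-, h2⟩ | h2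
    · exact absurd h2 hy
    · rwa [h1] at h2
  · rintro ⟨y, hy, h⟩
    exact ⟨y, hy, ex_rch_mono subset_union_right h⟩

open Classical in
/-- The configurations of the box in which the edges of the sphere are open. -/
theorem br_sum0 {N : ℕ} (hN : 1 ≤ N) (f : Finset (DL.Edge D) → ℝ)
    (A B : Finset (DL.Edge D) → Prop)
    (hAB : ∀ ω ⊆ (latH D).te (SB.box D (N - 1)), A (sphE D N ∪ ω) ↔ B ω) :
    ∑ ω ∈ (DL.edg (SB.box D N)).powerset.filter (fun ω => sphE D N ⊆ ω ∧ A ω), f ω =
      ∑ ω ∈ ((latH D).te (SB.box D (N - 1))).powerset.filter B, f (sphE D N ∪ ω) := by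
  have hmem : ∀ e, e ∈ DL.edg (SB.box D N) ↔ e ∈ sphE D N ∨
      e ∈ (latH D).te (SB.box D (N - 1)) := fun e => edg_split hN e
  have hrec : ∀ ω : Finset (DL.Edge D), ω ⊆ DL.edg (SB.box D N) → sphE D N ⊆ ω →
      sphE D N ∪ ω ∩ (latH D).te (SB.box D (N - 1)) = ω := by
    intro ω h1 h2
    ext e
    rw [mem_union, mem_inter]
    constructor
    · rintro (h | h)
      · exact h2 h
      · exact h.1
    · intro h
      rcases (hmem e).1 (h1 h) with h5 | h5
      · exact Or.inl h5
      · exact Or.inr ⟨h, h5⟩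
  refine sum_nbij' (fun ω => ω ∩ (latH D).te (SB.box D (N - 1))) (fun ω => sphE D N ∪ ω)
    ?_ ?_ ?_ ?_ ?_
  · intro ω hω
    rw [mem_filter, mem_powerset] at hω
    obtain ⟨h1, h2, h3⟩ := hω
    rw [mem_filter, mem_powerset]
    refine ⟨inter_subset_right, (hAB _ inter_subset_right).1 ?_⟩
    rw [hrec ω h1 h2]
    exact h3
  · intro ω hω
    rw [mem_filter, mem_powerset] at hω
    rw [mem_filter, mem_powerset]
    refine ⟨fun e he => ?_, subset_union_left, (hAB ω hω.1).2 hω.2⟩
    rw [hmem]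
    rcases mem_union.1 he with h | h
    · exact Or.inl h
    · exact Or.inr (hω.1 h)
  · intro ω hω
    rw [mem_filter, mem_powerset] at hω
    exact hrec ω hω.1 hω.2.1
  · intro ω hω
    rw [mem_filter, mem_powerset] at hω
    rw [union_inter_distrib_right, disjoint_iff_inter_eq_empty.1 sph_disj, empty_union]
    exact inter_eq_left.2 hω.1
  · intro ω hω
    rw [mem_filter, mem_powerset] at hω
    rw [hrec ω hω.1 hω.2.1]

open Classical in
theorem br_sum {N : ℕ} (hD : 1 ≤ D) (hN : 1 ≤ N) (v : ℝ) (A B : Finset (DL.Edge D) → Prop)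
    (hAB : ∀ ω ⊆ (latH D).te (SB.box D (N - 1)), A (sphE D N ∪ ω) ↔ B ω) :
    ∑ ω ∈ (DL.edg (SB.box D N)).powerset.filter (fun ω => sphE D N ⊆ ω ∧ A ω),
        (DL.lat D).wt (q : ℝ) (fun _ => v) ω =
      v ^ (sphE D N).card * q / (q : ℝ) ^ (SB.box D N).card *
        Sm ((latH D).te (SB.box D (N - 1))) (w (DL.lat D) q (SB.box D (N - 1)) v) (ind B) := by
  rw [br_sum0 hN _ A B hAB]
  unfold Sm
  rw [mul_sum]
  have h0 : ∀ ω ∈ ((latH D).te (SB.box D (N - 1))).powerset,
      v ^ (sphE D N).card * q / (q : ℝ) ^ (SB.box D N).card *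
        (w (DL.lat D) q (SB.box D (N - 1)) v ω * ind B ω) =
      if B ω then (DL.lat D).wt (q : ℝ) (fun _ => v) (sphE D N ∪ ω) else 0 := by
    intro ω hω
    rw [br_wt q hD hN v (mem_powerset.1 hω)]
    unfold ind
    split_ifs <;> ring
  rw [sum_congr rfl h0, ← sum_filter]

/-- The wired box in the form with ranks. -/
theorem bridge (hD : 1 ≤ D) {N : ℕ} (hN : 1 ≤ N) {v : ℝ} (hv : 0 < v) :
    (DL.lat D).pr (q : ℝ) (fun _ => v) (DL.edg (SB.box D N)) (fun ω => sphE D N ⊆ ω ∧
        ∃ y, y ∉ SB.box D (N - 1) ∧ (DL.lat D).Rch ω 0 y) /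
      (DL.lat D).pr (q : ℝ) (fun _ => v) (DL.edg (SB.box D N)) (fun ω => sphE D N ⊆ ω) =
    Ex ((latH D).te (SB.box D (N - 1))) (w (DL.lat D) q (SB.box D (N - 1)) v)
      (ind fun ω => ∃ y, y ∉ SB.box D (N - 1) ∧ (DL.lat D).Rch ω 0 y) := by
  classical
  have hq : (0 : ℝ) < q := Nat.cast_pos.2 (Nat.pos_of_ne_zero (NeZero.ne q))
  have hz : 0 < (DL.lat D).zz (q : ℝ) (fun _ => v) (DL.edg (SB.box D N)) := by
    unfold DL.Gr.zz DL.Gr.wt
    refine sum_pos (fun ω _ => ?_) ⟨∅, empty_mem_powerset _⟩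
    rw [prod_const]
    positivity
  have h1 := br_sum q hD hN v (fun ω => ∃ y, y ∉ SB.box D (N - 1) ∧ (DL.lat D).Rch ω 0 y)
    (fun ω => ∃ y, y ∉ SB.box D (N - 1) ∧ (DL.lat D).Rch ω 0 y) fun ω hω => br_exit hω
  have h2 := br_sum q hD hN v (fun _ => True) (fun _ => True) fun ω hω => Iff.rfl
  have h3 : ind (fun _ : Finset (DL.Edge D) => True) = fun _ => 1 := by
    funext ω
    unfold ind
    rw [if_pos trivial]
  rw [h3] at h2
  simp only [and_true] at h2
  have hK : 0 < v ^ (sphE D N).card * q / (q : ℝ) ^ (SB.box D N).card := by positivity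
  unfold DL.Gr.pr
  rw [div_div_div_cancel_right₀ hz.ne']
  have h4 : ∀ a b c d : ℝ, a = c → b = d → a / b = c / d := fun a b c d hac hbd => by rw [hac, hbd]
  refine (h4 _ _ _ _ (Eq.trans ?_ h1) (Eq.trans ?_ h2)).trans ?_
  · refine sum_congr ?_ fun _ _ => rfl
    ext ω
    simp only [mem_filter]
  · refine sum_congr ?_ fun _ _ => rfl
    ext ω
    simp only [mem_filter]
  · rw [mul_div_mul_left _ _ hK.ne']
    rfl

end B2

/-- The probability that the centre is connected to the sphere in the wired box. -/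
noncomputable def wsp (D : ℕ) (q v : ℝ) (N : ℕ) : ℝ :=
  (DL.lat D).pr q (fun _ => v) (DL.edg (SB.box D N)) (fun ω => sphE D N ⊆ ω ∧
      ∃ y, y ∉ SB.box D (N - 1) ∧ (DL.lat D).Rch ω 0 y) /
    (DL.lat D).pr q (fun _ => v) (DL.edg (SB.box D N)) (fun ω => sphE D N ⊆ ω)

end Pool.Agent.DLS
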