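import Mathlib

/-!
# Positive association on the subsets of a finite set

Weights `μ : Finset α → ℝ`, sums over the subsets of a finite set `E`, sums over the subsets `ω`
with given trace `ω ∩ S = A`.
-/

set_option autoImplicit false
set_option linter.unusedSectionVars false

namespace Pool.Agent.DLS

open Finset

variable {α : Type*} [DecidableEq α]

/-- The sum of `μ f` over the subsets of `E`. -/
noncomputable def Sm (E : Finset α) (μ f : Finset α → ℝ) : ℝ := ∑ ω ∈ E.powerset, μ ω * f ω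

/-- The mean of `f`. -/
noncomputable def Ex (E : Finset α) (μ f : Finset α → ℝ) : ℝ := Sm E μ f / Sm E μ fun _ => 1

open scoped FinsetFamily in
/-- The four functions theorem for all subsets of `E`. -/
theorem four (E : Finset α) {f₁ f₂ f₃ f₄ : Finset α → ℝ} (h₁ : ∀ a, 0 ≤ f₁ a) (h₂ : ∀ a, 0 ≤ f₂ a)
    (h₃ : ∀ a, 0 ≤ f₃ a) (h₄ : ∀ a, 0 ≤ f₄ a)
    (h : ∀ a, a ⊆ E → ∀ b, b ⊆ E → f₁ a * f₂ b ≤ f₃ (a ∩ b) * f₄ (a ∪ b)) :
    (∑ a ∈ E.powerset, f₁ a) * ∑ a ∈ E.powerset, f₂ a ≤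
      (∑ a ∈ E.powerset, f₃ a) * ∑ a ∈ E.powerset, f₄ a := by
  have h0 := Finset.four_functions_theorem E (f₁ := f₁) (f₂ := f₂) (f₃ := f₃) (f₄ := f₄)
    h₁ h₂ h₃ h₄ (fun a ha b hb => h a ha b hb) (Finset.Subset.refl E.powerset)
    (Finset.Subset.refl E.powerset)
  refine h0.trans ?_
  have hi : E.powerset ⊼ E.powerset ⊆ E.powerset := by
    intro c hc
    rw [Finset.mem_infs] at hc
    obtain ⟨a, ha, b, hb, rfl⟩ := hc
    rw [Finset.mem_powerset] at ha ⊢
    exact Finset.inter_subset_left.trans ha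
  have hs : E.powerset ⊻ E.powerset ⊆ E.powerset := by
    intro c hc
    rw [Finset.mem_sups] at hc
    obtain ⟨a, ha, b, hb, rfl⟩ := hc
    rw [Finset.mem_powerset] at ha hb ⊢
    exact Finset.union_subset ha hb
  exact mul_le_mul (Finset.sum_le_sum_of_subset_of_nonneg hi fun a _ _ => h₃ a)
    (Finset.sum_le_sum_of_subset_of_nonneg hs fun a _ _ => h₄ a)
    (Finset.sum_nonneg fun a _ => h₄ a) (Finset.sum_nonneg fun a _ => h₃ a)

/-- Holley's inequality in product form. -/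
theorem holley_mul (E : Finset α) {m₁ m₂ g : Finset α → ℝ} (h₁ : ∀ a, 0 ≤ m₁ a)
    (h₂ : ∀ a, 0 ≤ m₂ a) (hg : ∀ a, 0 ≤ g a) (hm : ∀ a b, a ⊆ b → g a ≤ g b)
    (h : ∀ a, a ⊆ E → ∀ b, b ⊆ E → m₁ a * m₂ b ≤ m₁ (a ∩ b) * m₂ (a ∪ b)) :
    Sm E m₁ g * Sm E m₂ (fun _ => 1) ≤ Sm E m₁ (fun _ => 1) * Sm E m₂ g := by
  unfold Sm
  refine four E (fun a => mul_nonneg (h₁ a) (hg a)) (fun a => mul_nonneg (h₂ a) zero_le_one)
    (fun a => mul_nonneg (h₁ a) zero_le_one) (fun a => mul_nonneg (h₂ a) (hg a)) ?_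
  intro a ha b hb
  have h3 : m₁ a * m₂ b * g a ≤ m₁ (a ∩ b) * m₂ (a ∪ b) * g (a ∪ b) :=
    mul_le_mul (h a ha b hb) (hm _ _ Finset.subset_union_left) (hg a)
      (mul_nonneg (h₁ _) (h₂ _))
  nlinarith [h3]

theorem Sm_one_pos {E : Finset α} {μ : Finset α → ℝ} (hμ : ∀ a, 0 < μ a) :
    0 < Sm E μ fun _ => 1 := by
  unfold Sm
  exact Finset.sum_pos (fun a _ => by have := hμ a; linarith) ⟨∅, Finset.empty_mem_powerset E⟩

/-- Stochastic domination: means of increasing functions. -/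
theorem Ex_le_Ex (E : Finset α) {m₁ m₂ g : Finset α → ℝ} (h₁ : ∀ a, 0 < m₁ a)
    (h₂ : ∀ a, 0 < m₂ a) (hg : ∀ a, 0 ≤ g a) (hm : ∀ a b, a ⊆ b → g a ≤ g b)
    (h : ∀ a, a ⊆ E → ∀ b, b ⊆ E → m₁ a * m₂ b ≤ m₁ (a ∩ b) * m₂ (a ∪ b)) :
    Ex E m₁ g ≤ Ex E m₂ g := by
  unfold Ex
  rw [div_le_div_iff₀ (Sm_one_pos h₁) (Sm_one_pos h₂)]
  have := holley_mul E (fun a => (h₁ a).le) (fun a => (h₂ a).le) hg hm h
  linarith [mul_comm (Sm E m₁ fun _ => 1) (Sm E m₂ g)]

/-- The inequality of Fortuin, Kasteleyn and Ginibre. -/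
theorem fkg_mul (E : Finset α) {μ f g : Finset α → ℝ} (hμ : ∀ a, 0 ≤ μ a)
    (hf : ∀ a, 0 ≤ f a) (hg : ∀ a, 0 ≤ g a) (hfm : ∀ a b, a ⊆ b → b ⊆ E → f a ≤ f b)
    (hgm : ∀ a b, a ⊆ b → b ⊆ E → g a ≤ g b)
    (h : ∀ a, a ⊆ E → ∀ b, b ⊆ E → μ a * μ b ≤ μ (a ∩ b) * μ (a ∪ b)) :
    Sm E μ f * Sm E μ g ≤ Sm E μ (fun _ => 1) * Sm E μ fun ω => f ω * g ω := by
  unfold Sm
  refine four E (fun a => mul_nonneg (hμ a) (hf a)) (fun a => mul_nonneg (hμ a) (hg a))
    (fun a => mul_nonneg (hμ a) zero_le_one)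
    (fun a => mul_nonneg (hμ a) (mul_nonneg (hf a) (hg a))) ?_
  intro a ha b hb
  have h3 : f a * g b ≤ f (a ∪ b) * g (a ∪ b) :=
    mul_le_mul (hfm _ _ Finset.subset_union_left (Finset.union_subset ha hb))
      (hgm _ _ Finset.subset_union_right (Finset.union_subset ha hb)) (hg b) (hf _)
  have h4 : μ a * μ b * (f a * g b) ≤ μ (a ∩ b) * μ (a ∪ b) * (f (a ∪ b) * g (a ∪ b)) :=
    mul_le_mul (h a ha b hb) h3 (mul_nonneg (hf _) (hg _)) (mul_nonneg (hμ _) (hμ _))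
  nlinarith [h4]

theorem Sm_add (E : Finset α) (μ f g : Finset α → ℝ) :
    Sm E μ (fun ω => f ω + g ω) = Sm E μ f + Sm E μ g := by
  unfold Sm
  rw [← Finset.sum_add_distrib]
  exact Finset.sum_congr rfl fun _ _ => by ring

theorem Sm_const_mul (E : Finset α) (μ f : Finset α → ℝ) (c : ℝ) :
    Sm E μ (fun ω => c * f ω) = c * Sm E μ f := by
  unfold Sm
  rw [Finset.mul_sum]
  exact Finset.sum_congr rfl fun _ _ => by ring

theorem Sm_sum {ι : Type*} (E : Finset α) (μ : Finset α → ℝ) (s : Finset ι)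
    (f : ι → Finset α → ℝ) : Sm E μ (fun ω => ∑ i ∈ s, f i ω) = ∑ i ∈ s, Sm E μ (f i) := by
  unfold Sm
  rw [Finset.sum_comm]
  exact Finset.sum_congr rfl fun _ _ => by rw [Finset.mul_sum]

theorem Sm_congr {E : Finset α} {μ f g : Finset α → ℝ} (h : ∀ ω, ω ⊆ E → f ω = g ω) :
    Sm E μ f = Sm E μ g := by
  unfold Sm
  exact Finset.sum_congr rfl fun ω hω => by rw [h ω (Finset.mem_powerset.1 hω)]

theorem Sm_mono {E : Finset α} {μ f g : Finset α → ℝ} (hμ : ∀ a, 0 ≤ μ a)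
    (h : ∀ ω, ω ⊆ E → f ω ≤ g ω) : Sm E μ f ≤ Sm E μ g := by
  unfold Sm
  exact Finset.sum_le_sum fun ω hω =>
    mul_le_mul_of_nonneg_left (h ω (Finset.mem_powerset.1 hω)) (hμ ω)

/-- The restriction of a weight to the configurations with trace `A` on `S`. -/
def rs (S A : Finset α) (μ : Finset α → ℝ) (ω : Finset α) : ℝ := if ω ∩ S = A then μ ω else 0

theorem rs_nonneg {μ : Finset α → ℝ} (hμ : ∀ a, 0 < μ a) (S A ω : Finset α) :
    0 ≤ rs S A μ ω := by
  unfold rs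
  split_ifs
  · exact (hμ ω).le
  · exact le_refl _

theorem rs_lat' {μ : Finset α → ℝ} (hμ : ∀ a, 0 < μ a)
    (h : ∀ a b, μ a * μ b ≤ μ (a ∩ b) * μ (a ∪ b)) (S A B : Finset α)
    (a b : Finset α) :
    rs S A μ a * rs S B μ b ≤ rs S (A ∩ B) μ (a ∩ b) * rs S (A ∪ B) μ (a ∪ b) := by
  by_cases ha : a ∩ S = A
  · by_cases hb : b ∩ S = B
    · have h1 : a ∩ b ∩ S = A ∩ B := by
        rw [← ha, ← hb]
        ext x
        simp only [Finset.mem_inter]
        tauto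
      have h2 : (a ∪ b) ∩ S = A ∪ B := by
        rw [Finset.union_inter_distrib_right, ha, hb]
      unfold rs
      rw [if_pos ha, if_pos hb, if_pos h1, if_pos h2]
      exact h a b
    · have : rs S B μ b = 0 := if_neg hb
      rw [this, mul_zero]
      exact mul_nonneg (rs_nonneg hμ _ _ _) (rs_nonneg hμ _ _ _)
  · have : rs S A μ a = 0 := if_neg ha
    rw [this, zero_mul]
    exact mul_nonneg (rs_nonneg hμ _ _ _) (rs_nonneg hμ _ _ _)

theorem rs_lat {μ : Finset α → ℝ} (hμ : ∀ a, 0 < μ a)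
    (h : ∀ a b, μ a * μ b ≤ μ (a ∩ b) * μ (a ∪ b)) {S A B : Finset α} (hAB : A ⊆ B)
    (a b : Finset α) : rs S A μ a * rs S B μ b ≤ rs S A μ (a ∩ b) * rs S B μ (a ∪ b) := by
  have h1 := rs_lat' hμ h S A B a b
  rwa [Finset.inter_eq_left.2 hAB, Finset.union_eq_right.2 hAB] at h1

theorem Sm_rs_pos {E : Finset α} {μ : Finset α → ℝ} (hμ : ∀ a, 0 < μ a) {S A : Finset α}
    (hA : A ⊆ S) (hE : A ⊆ E) : 0 < Sm E (rs S A μ) fun _ => 1 := by
  unfold Sm
  refine Finset.sum_pos' (fun a _ => by have := rs_nonneg hμ S A a; linarith)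
    ⟨A, Finset.mem_powerset.2 hE, ?_⟩
  unfold rs
  rw [if_pos (Finset.inter_eq_left.2 hA), mul_one]
  exact hμ A

/-- The splitting according to the state of a new element. -/
theorem rs_split {S A : Finset α} {e : α} (he : e ∉ S) (hA : A ⊆ S) (μ : Finset α → ℝ)
    (ω : Finset α) : rs S A μ ω =
      rs (insert e S) (insert e A) μ ω + rs (insert e S) A μ ω := by
  have heA : e ∉ A := fun h => he (hA h)
  by_cases hω : e ∈ ω
  · have h2 : ω ∩ insert e S ≠ A := by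
      intro h
      exact heA (h ▸ Finset.mem_inter.2 ⟨hω, Finset.mem_insert_self _ _⟩)
    have h3 : ω ∩ insert e S = insert e (ω ∩ S) := Finset.inter_insert_of_mem hω
    unfold rs
    rw [if_neg h2, add_zero, h3]
    by_cases h : ω ∩ S = A
    · rw [if_pos h, if_pos (by rw [h])]
    · rw [if_neg h, if_neg]
      intro h4
      apply h
      have h5 : e ∉ ω ∩ S := fun h6 => he (Finset.mem_inter.1 h6).2
      rw [← Finset.erase_insert h5, h4, Finset.erase_insert heA]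
  · have h3 : ω ∩ insert e S = ω ∩ S := Finset.inter_insert_of_notMem hω
    have h2 : ω ∩ insert e S ≠ insert e A := by
      intro h
      have : e ∈ ω ∩ insert e S := by rw [h]; exact Finset.mem_insert_self _ _
      exact hω (Finset.mem_inter.1 this).1
    unfold rs
    rw [if_neg h2, zero_add, h3]

theorem Sm_rs_split (E : Finset α) {S A : Finset α} {e : α} (he : e ∉ S) (hA : A ⊆ S)
    (μ f : Finset α → ℝ) : Sm E (rs S A μ) f =
      Sm E (rs (insert e S) (insert e A) μ) f + Sm E (rs (insert e S) A μ) f := by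
  unfold Sm
  rw [← Finset.sum_add_distrib]
  exact Finset.sum_congr rfl fun ω _ => by rw [rs_split he hA μ ω]; ring

theorem Sm_rs_mem (E : Finset α) {S A : Finset α} {e : α} (he : e ∉ S) (hA : A ⊆ S)
    (μ f : Finset α → ℝ) : Sm E (rs (insert e S) (insert e A) μ) f =
      Sm E (rs S A μ) fun ω => f ω * if e ∈ ω then 1 else 0 := by
  have heA : e ∉ A := fun h => he (hA h)
  unfold Sm
  refine Finset.sum_congr rfl fun ω _ => ?_
  rw [rs_split he hA μ ω]
  by_cases hω : e ∈ ω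
  · have h2 : ω ∩ insert e S ≠ A := by
      intro h
      exact heA (h ▸ Finset.mem_inter.2 ⟨hω, Finset.mem_insert_self _ _⟩)
    have h4 : rs (insert e S) A μ ω = 0 := if_neg h2
    simp only [h4, if_pos hω]
    ring
  · have h2 : ω ∩ insert e S ≠ insert e A := by
      intro h
      have : e ∈ ω ∩ insert e S := by rw [h]; exact Finset.mem_insert_self _ _
      exact hω (Finset.mem_inter.1 this).1
    have h4 : rs (insert e S) (insert e A) μ ω = 0 := if_neg h2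
    simp only [h4, if_neg hω]
    ring

theorem rs_empty (μ : Finset α → ℝ) : rs ∅ ∅ μ = μ := by
  funext ω
  unfold rs
  rw [if_pos (Finset.inter_empty ω)]

/-- The sum over all traces. -/
theorem sum_rs {E S : Finset α} (μ f : Finset α → ℝ) :
    ∑ A ∈ S.powerset, Sm E (rs S A μ) f = Sm E μ f := by
  unfold Sm
  rw [Finset.sum_comm]
  refine Finset.sum_congr rfl fun ω _ => ?_
  rw [Finset.sum_eq_single (ω ∩ S)]
  · unfold rs
    rw [if_pos rfl]
  · intro A _ hA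
    unfold rs
    rw [if_neg (fun h => hA h.symm), zero_mul]
  · intro h
    exact absurd (Finset.mem_powerset.2 Finset.inter_subset_right) h

end Pool.Agent.DLS
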