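import Pool.Agent.DL.Defs
import Pool.Agent.DLS.Four

/-!
# Sharpness: definitions

Colourings supported in a finite set `I` (wired boundary condition, boundary colour `0`), decision
trees, homogeneous graphs with a length function.
-/

set_option autoImplicit false
set_option linter.unusedSectionVars false

namespace Pool.Agent.DLS

open Finset

section Col

variable {V ι : Type}

/-- The colourings supported in `I` which are constant along the open edges. -/
def Cg (G : DL.Gr V ι) (q : ℕ) (I : Finset V) (ω : Finset ι) : AddSubgroup (V → ZMod q) where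
  carrier := {σ | (∀ x, x ∉ I → σ x = 0) ∧ ∀ e ∈ ω, σ (G.s e) = σ (G.t e)}
  zero_mem' := ⟨fun _ _ => rfl, fun _ _ => rfl⟩
  add_mem' := fun {a b} ha hb => ⟨fun x hx => by
    rw [Pi.add_apply, ha.1 x hx, hb.1 x hx, add_zero], fun e he => by
    rw [Pi.add_apply, Pi.add_apply, ha.2 e he, hb.2 e he]⟩
  neg_mem' := fun {a} ha => ⟨fun x hx => by rw [Pi.neg_apply, ha.1 x hx, neg_zero], fun e he => by
    rw [Pi.neg_apply, Pi.neg_apply, ha.2 e he]⟩

/-- The number of these colourings. -/
noncomputable def nc (G : DL.Gr V ι) (q : ℕ) (I : Finset V) (ω : Finset ι) : ℝ :=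
  (Nat.card (Cg G q I ω) : ℝ)

/-- The weight of `ω` with the wired boundary condition outside `I`. -/
noncomputable def w (G : DL.Gr V ι) (q : ℕ) (I : Finset V) (v : ℝ) (ω : Finset ι) : ℝ :=
  v ^ ω.card * nc G q I ω

end Col

open Classical in
/-- The indicator function. -/
noncomputable def ind {α : Type} (A : α → Prop) (a : α) : ℝ := if A a then 1 else 0

/-- The covariance of `g` with the indicator function of `e ∈ ω`. -/
noncomputable def cv {α : Type} [DecidableEq α] (E : Finset α) (μ g : Finset α → ℝ) (e : α) : ℝ :=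
  Ex E μ (fun ω => g ω * ind (fun ω => e ∈ ω) ω) - Ex E μ g * Ex E μ (ind fun ω => e ∈ ω)

/-- Decision trees with real values. -/
inductive DT (α : Type) : Type
  | leaf (c : ℝ) : DT α
  | node (e : α) (t0 t1 : DT α) : DT α

namespace DT

variable {α : Type} [DecidableEq α]

/-- The value at the configuration `ω`. -/
def val : DT α → Finset α → ℝ
  | leaf c, _ => c
  | node e t0 t1, ω => if e ∈ ω then t1.val ω else t0.val ω

/-- The queried elements. -/
def qs : DT α → Finset α → Finset α
  | leaf _, _ => ∅
  | node e t0 t1, ω => insert e (if e ∈ ω then t1.qs ω else t0.qs ω)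

/-- The tree queries elements of `E`, outside `S`, at most once; its values are in `[0, 1]`. -/
def ok (E : Finset α) : DT α → Finset α → Prop
  | leaf c, _ => 0 ≤ c ∧ c ≤ 1
  | node e t0 t1, S => e ∈ E ∧ e ∉ S ∧ t0.ok E (insert e S) ∧ t1.ok E (insert e S)

end DT

/-- Data of a homogeneous graph with a length function. -/
structure Hg (V κ : Type) [AddCommGroup V] where
  u : κ → V
  N : V → ℕ
  N0 : N 0 = 0
  Nneg : ∀ x, N (-x) = N x
  Nadd : ∀ x y, N (x + y) ≤ N x + N y
  Nu : ∀ k, N (u k) ≤ 1
  ball : ℕ → Finset V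
  mem_ball : ∀ r x, x ∈ ball r ↔ N x < r

namespace Hg

variable {V κ : Type} [AddCommGroup V] [DecidableEq V] [Fintype κ] [DecidableEq κ] (h : Hg V κ)

/-- The graph: the edge `(x, k)` joins `x` and `x + u k`. -/
def G : DL.Gr V (V × κ) := ⟨fun e => e.1, fun e => e.1 + h.u e.2⟩

/-- The edges with an end in `I`. -/
def te (I : Finset V) : Finset (V × κ) :=
  (I ×ˢ Finset.univ) ∪ (I ×ˢ Finset.univ).image fun e => (e.1 - h.u e.2, e.2)

/-- `x` is connected to a point at distance at least `n` from `x`. -/
def far (ω : Finset (V × κ)) (x : V) (n : ℕ) : Prop := ∃ y, h.G.Rch ω x y ∧ n ≤ h.N (y - x)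

/-- The probability that `0` is connected to distance `n`, in the ball of radius `2 n` with wired
boundary condition. -/
noncomputable def th (q n : ℕ) (β : ℝ) : ℝ :=
  Ex (h.te (h.ball (2 * n))) (w h.G q (h.ball (2 * n)) (Real.exp β - 1))
    (ind fun ω => h.far ω 0 n)

end Hg

/-! ### The Potts model with boundary colour `0` -/

/-- The energy in `Λ` with colour `0` outside: the pairs in `Λ` and the pairs `{x, y}` with `x` in
`Λ` and `y` not in `Λ`. -/
noncomputable def energyP {D q : ℕ} [NeZero q] (Λ : Finset (DL.Site D)) (s : Λ → ZMod q) : ℝ :=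
  SB.energy 1 Λ s + ∑ x ∈ Λ, ∑ y ∈ SB.nb x \ Λ, if SB.ext s x = SB.ext s y then 1 else 0

/-- The probability that the colour at the origin is `0` in the box `[-L, L]^(D+1)`, with colour
`0` outside. -/
noncomputable def plus (D q : ℕ) [NeZero q] (β : ℝ) (L : ℕ) : ℝ :=
  (∑ s : SB.box D L → ZMod q, if SB.ext s 0 = 0 then Real.exp (β * energyP (SB.box D L) s) else 0) /
    ∑ s : SB.box D L → ZMod q, Real.exp (β * energyP (SB.box D L) s)

end Pool.Agent.DLS
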