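import Pool.Agent.DLS.Defs

/-!
# The derivative of the means in the edge weight
-/

set_option autoImplicit false
set_option linter.unusedSectionVars false

namespace Pool.Agent.DLS

open Finset

section Der

variable {V ι : Type} [DecidableEq V] [DecidableEq ι] (G : DL.Gr V ι) (q : ℕ) [NeZero q]

theorem nc_pos_aux (I : Finset V) (ω : Finset ι) : 0 < nc G q I ω := by
  have hf : Finite (Cg G q I ω) := by
    refine Finite.of_injective (fun (σ : Cg G q I ω) (x : I) => σ.1 x.1) ?_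
    intro σ τ h
    apply Subtype.ext
    funext x
    by_cases hx : x ∈ I
    · exact congrFun h ⟨x, hx⟩
    · rw [σ.2.1 x hx, τ.2.1 x hx]
  unfold nc
  exact_mod_cast Nat.card_pos

theorem w_pos_aux {v : ℝ} (hv : 0 < v) (I : Finset V) (ω : Finset ι) : 0 < w G q I v ω :=
  mul_pos (pow_pos hv _) (nc_pos_aux G q I ω)

theorem sum_ind_mem {E ω : Finset ι} (hω : ω ⊆ E) :
    ∑ e ∈ E, ind (fun ω : Finset ι => e ∈ ω) ω = (ω.card : ℝ) := by
  have h1 : ∀ e ∈ E, ind (fun ω : Finset ι => e ∈ ω) ω = if e ∈ ω then (1 : ℝ) else 0 := by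
    intro e _
    unfold ind
    split_ifs <;> rfl
  rw [Finset.sum_congr rfl h1, ← Finset.sum_filter, Finset.sum_const, nsmul_eq_mul, mul_one]
  congr 2
  ext e
  simp only [Finset.mem_filter]
  exact ⟨fun h => h.2, fun h => ⟨hω h, h⟩⟩

theorem hasDeriv_Sm (E : Finset ι) (I : Finset V) {v : ℝ} (hv : 0 < v) (g : Finset ι → ℝ) :
    HasDerivAt (fun v => Sm E (w G q I v) g)
      ((∑ e ∈ E, Sm E (w G q I v) fun ω => g ω * ind (fun ω => e ∈ ω) ω) / v) v := by
  unfold Sm w
  have h1 : HasDerivAt (fun v : ℝ => ∑ ω ∈ E.powerset, v ^ ω.card * nc G q I ω * g ω)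
      (∑ ω ∈ E.powerset, ((ω.card : ℝ) * v ^ (ω.card - 1)) * nc G q I ω * g ω) v := by
    refine HasDerivAt.fun_sum ?_
    intro ω _
    exact ((hasDerivAt_pow ω.card v).mul_const _).mul_const _
  refine h1.congr_deriv ?_
  rw [Finset.sum_comm, Finset.sum_div]
  refine Finset.sum_congr rfl fun ω hω => ?_
  have h2 : ∑ e ∈ E, v ^ ω.card * nc G q I ω * (g ω * ind (fun ω => e ∈ ω) ω) =
      v ^ ω.card * nc G q I ω * g ω * (ω.card : ℝ) := by
    rw [← sum_ind_mem (Finset.mem_powerset.1 hω), Finset.mul_sum]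
    exact Finset.sum_congr rfl fun e _ => by ring
  rw [h2]
  rcases Nat.eq_zero_or_pos ω.card with h0 | h0
  · rw [h0]
    simp
  · obtain ⟨m, hm⟩ := Nat.exists_eq_succ_of_ne_zero h0.ne'
    rw [hm, Nat.succ_sub_one, pow_succ]
    field_simp

/-- The derivative in the weight. -/
theorem hasDeriv (E : Finset ι) (I : Finset V) {v : ℝ} (hv : 0 < v) (g : Finset ι → ℝ) :
    HasDerivAt (fun v => Ex E (w G q I v) g) ((∑ e ∈ E, cv E (w G q I v) g e) / v) v := by
  have hD : Sm E (w G q I v) (fun _ => 1) ≠ 0 :=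
    (Sm_one_pos fun a => w_pos_aux G q hv I a).ne'
  have h1 := (hasDeriv_Sm G q E I hv g).div (hasDeriv_Sm G q E I hv fun _ => 1) hD
  refine h1.congr_deriv ?_
  have h2 : ∀ e ∈ E, cv E (w G q I v) g e =
      (Sm E (w G q I v) (fun ω => g ω * ind (fun ω => e ∈ ω) ω) * Sm E (w G q I v) (fun _ => 1) -
        Sm E (w G q I v) g * Sm E (w G q I v) (fun ω => 1 * ind (fun ω => e ∈ ω) ω)) /
        Sm E (w G q I v) (fun _ => 1) ^ 2 := by
    intro e _
    unfold cv Ex
    have h3 : Sm E (w G q I v) (fun ω => 1 * ind (fun ω => e ∈ ω) ω) =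
        Sm E (w G q I v) (ind fun ω => e ∈ ω) := by
      congr 1
      funext ω
      rw [one_mul]
    rw [h3]
    field_simp
  rw [Finset.sum_congr rfl h2, ← Finset.sum_div, Finset.sum_sub_distrib, ← Finset.sum_mul,
    ← Finset.mul_sum]
  field_simp

end Der

end Pool.Agent.DLS
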