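import Pool.Agent.DLS.Wt

/-!
# Sharpness: homogeneous graphs, translations
-/

set_option autoImplicit false
set_option linter.unusedSectionVars false

namespace Pool.Agent.DLS

open Finset Filter Topology

section H

theorem hm_ind_nonneg {α : Type} (A : α → Prop) (a : α) : 0 ≤ ind A a := by
  unfold ind
  split_ifs <;> norm_num

theorem hm_ind_le_one {α : Type} (A : α → Prop) (a : α) : ind A a ≤ 1 := by
  unfold ind
  split_ifs <;> norm_num

theorem hm_ind_mono {α β : Type} {A : α → Prop} {B : β → Prop} {a : α} {b : β} (h : A a → B b) :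
    ind A a ≤ ind B b := by
  unfold ind
  split_ifs with h1 h2
  · exact le_refl _
  · exact absurd (h h1) h2
  · norm_num
  · exact le_refl _

theorem hm_ind_congr {α β : Type} {A : α → Prop} {B : β → Prop} {a : α} {b : β} (h : A a ↔ B b) :
    ind A a = ind B b :=
  le_antisymm (hm_ind_mono h.1) (hm_ind_mono h.2)

theorem hm_Ex_le_of_le {α : Type} [DecidableEq α] {E : Finset α} {μ f g : Finset α → ℝ}
    (hμ : ∀ a, 0 < μ a) (h : ∀ ω, ω ⊆ E → f ω ≤ g ω) : Ex E μ f ≤ Ex E μ g := by
  unfold Ex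
  exact div_le_div_of_nonneg_right (Sm_mono (fun a => (hμ a).le) h) (Sm_one_pos hμ).le

theorem hm_Ex_one {α : Type} [DecidableEq α] {E : Finset α} {μ : Finset α → ℝ} (hμ : ∀ a, 0 < μ a) :
    Ex E μ (fun _ => 1) = 1 := by
  unfold Ex
  exact div_self (Sm_one_pos hμ).ne'

theorem hm_Ex_zero {α : Type} [DecidableEq α] {E : Finset α} {μ : Finset α → ℝ} :
    Ex E μ (fun _ => 0) = 0 := by
  unfold Ex Sm
  simp

theorem hm_Ex_add {α : Type} [DecidableEq α] {E : Finset α} {μ f g : Finset α → ℝ} :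
    Ex E μ (fun ω => f ω + g ω) = Ex E μ f + Ex E μ g := by
  unfold Ex
  rw [Sm_add, add_div]

variable {V κ : Type} [AddCommGroup V] [DecidableEq V] [Fintype κ] [DecidableEq κ] (h : Hg V κ)
  (q : ℕ) [NeZero q]

theorem mem_te (I : Finset V) (e : V × κ) : e ∈ h.te I ↔ h.G.s e ∈ I ∨ h.G.t e ∈ I := by
  obtain ⟨x, k⟩ := e
  unfold Hg.te Hg.G
  simp only [mem_union, mem_product, mem_univ, and_true, mem_image, Prod.mk.injEq, Prod.exists]
  constructor
  · rintro (h1 | ⟨y, l, h1, h2, rfl⟩)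
    · exact Or.inl h1
    · right
      rw [← h2, sub_add_cancel]
      exact h1
  · rintro (h1 | h1)
    · exact Or.inl h1
    · right
      exact ⟨x + h.u k, k, h1, by rw [add_sub_cancel_right], rfl⟩

variable {h} in
theorem hm_rch_mono {a b : Finset (V × κ)} (hab : a ⊆ b) {x y : V} (hr : h.G.Rch a x y) :
    h.G.Rch b x y :=
  Relation.ReflTransGen.mono (r := h.G.Step a) (p := h.G.Step b)
    (fun _ _ ⟨e, he, h⟩ => ⟨e, hab he, h⟩) _ _ hr

theorem far_mono {a b : Finset (V × κ)} (hab : a ⊆ b) {x : V} {m n : ℕ} (hmn : m ≤ n)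
    (hf : h.far a x n) : h.far b x m := by
  obtain ⟨y, hy, hn⟩ := hf
  exact ⟨y, hm_rch_mono hab hy, hmn.trans hn⟩

/-- the event depends on the edges touching the open ball of radius n -/
theorem far_te (ω : Finset (V × κ)) (x : V) (n : ℕ) (I : Finset V)
    (hI : ∀ y, h.N (y - x) < n → y ∈ I) : h.far ω x n ↔ h.far (ω ∩ h.te I) x n := by
  constructor
  · rintro ⟨y, hy, hn⟩
    have key : ∀ z, h.G.Rch ω x z → h.far (ω ∩ h.te I) x n ∨ h.G.Rch (ω ∩ h.te I) x z := by
      intro z hz
      induction hz with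
      | refl => exact Or.inr Relation.ReflTransGen.refl
      | @tail z' z _ h2 ih =>
        rcases ih with ih | ih
        · exact Or.inl ih
        · by_cases hz' : n ≤ h.N (z' - x)
          · exact Or.inl ⟨z', ih, hz'⟩
          · right
            have h3 := hI z' (not_le.1 hz')
            obtain ⟨e, he, hs⟩ := h2
            refine ih.tail ⟨e, Finset.mem_inter.2 ⟨he, ?_⟩, hs⟩
            rw [mem_te]
            rcases hs with ⟨hs, -⟩ | ⟨-, hs⟩
            · exact Or.inl (hs ▸ h3)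
            · exact Or.inr (hs ▸ h3)
    rcases key y hy with h1 | h1
    · exact h1
    · exact ⟨y, h1, hn⟩
  · exact far_mono h Finset.inter_subset_left le_rfl

/-- translation of edges -/
def hm_tre (x : V) : V × κ ≃ V × κ where
  toFun e := (e.1 + x, e.2)
  invFun e := (e.1 - x, e.2)
  left_inv e := by simp
  right_inv e := by simp

theorem hm_step_tr (x : V) {ω : Finset (V × κ)} {y z : V} (hs : h.G.Step ω y z) :
    h.G.Step (ω.map (hm_tre x).toEmbedding) (y + x) (z + x) := by
  obtain ⟨e, he, hs⟩ := hs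
  refine ⟨hm_tre x e, ?_, ?_⟩
  · rw [Finset.mem_map]
    exact ⟨e, he, rfl⟩
  · rcases hs with ⟨h1, h2⟩ | ⟨h1, h2⟩
    · left
      constructor
      · rw [← h1]; rfl
      · rw [← h2]
        change e.1 + x + h.u e.2 = e.1 + h.u e.2 + x
        abel
    · right
      constructor
      · rw [← h1]; rfl
      · rw [← h2]
        change e.1 + x + h.u e.2 = e.1 + h.u e.2 + x
        abel

theorem hm_rch_tr (x : V) {ω : Finset (V × κ)} {y z : V} (hs : h.G.Rch ω y z) :
    h.G.Rch (ω.map (hm_tre x).toEmbedding) (y + x) (z + x) := by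
  induction hs with
  | refl => exact Relation.ReflTransGen.refl
  | tail _ h2 ih => exact ih.tail (hm_step_tr h x h2)

theorem hm_map_tre_neg (x : V) (ω : Finset (V × κ)) :
    (ω.map (hm_tre x).toEmbedding).map (hm_tre (-x)).toEmbedding = ω := by
  rw [Finset.map_map]
  have h1 : (hm_tre (κ := κ) x).toEmbedding.trans (hm_tre (-x)).toEmbedding =
      Function.Embedding.refl _ := by
    ext e
    · change e.1 + x + -x = e.1
      abel
    · rfl
  rw [h1, Finset.map_refl]

theorem hm_far_tr (x : V) {ω : Finset (V × κ)} {n : ℕ} (hf : h.far ω 0 n) :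
    h.far (ω.map (hm_tre x).toEmbedding) x n := by
  obtain ⟨y, hy, hn⟩ := hf
  refine ⟨y + x, ?_, ?_⟩
  · have := hm_rch_tr h x hy
    rwa [zero_add] at this
  · rw [add_sub_cancel_right]
    rwa [sub_zero] at hn

theorem hm_far_tr_iff (x : V) {ω : Finset (V × κ)} {n : ℕ} :
    h.far (ω.map (hm_tre x).toEmbedding) x n ↔ h.far ω 0 n := by
  constructor
  · rintro ⟨y, hy, hn⟩
    have h1 := hm_rch_tr h (-x) hy
    rw [hm_map_tre_neg, add_neg_cancel] at h1
    refine ⟨y + -x, h1, ?_⟩
    have h2 : y + -x - 0 = y - x := by abel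
    rw [h2]
    exact hn
  · exact hm_far_tr h x

/-- translation of a finite set of vertices -/
def hm_trv (x : V) : V ≃ V := Equiv.addRight x

theorem hm_mem_map_trv (x : V) (I : Finset V) (y : V) :
    y ∈ I.map (hm_trv x).toEmbedding ↔ y - x ∈ I := by
  rw [Finset.mem_map]
  constructor
  · rintro ⟨z, hz, rfl⟩
    change z + x - x ∈ I
    rwa [add_sub_cancel_right]
  · intro hy
    exact ⟨y - x, hy, sub_add_cancel y x⟩

theorem hm_te_tr (x : V) (I : Finset V) :
    h.te (I.map (hm_trv x).toEmbedding) = (h.te I).map (hm_tre x).toEmbedding := by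
  ext e
  rw [mem_te, hm_mem_map_trv, hm_mem_map_trv, Finset.mem_map]
  constructor
  · intro h1
    refine ⟨(e.1 - x, e.2), ?_, ?_⟩
    · rw [mem_te]
      rcases h1 with h1 | h1
      · exact Or.inl h1
      · right
        change e.1 - x + h.u e.2 ∈ I
        have h2 : e.1 - x + h.u e.2 = h.G.t e - x := by
          change e.1 - x + h.u e.2 = e.1 + h.u e.2 - x
          abel
        rw [h2]
        exact h1
    · change (e.1 - x + x, e.2) = e
      rw [sub_add_cancel]
  · rintro ⟨e', he', rfl⟩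
    rw [mem_te] at he'
    rcases he' with h1 | h1
    · left
      change e'.1 + x - x ∈ I
      rw [add_sub_cancel_right]
      exact h1
    · right
      change e'.1 + x + h.u e'.2 - x ∈ I
      have h2 : e'.1 + x + h.u e'.2 - x = h.G.t e' := by
        change e'.1 + x + h.u e'.2 - x = e'.1 + h.u e'.2
        abel
      rw [h2]
      exact h1

theorem hm_nc_tr_le (x : V) (I : Finset V) (ω : Finset (V × κ)) :
    ∀ σ ∈ Cg h.G q I ω, (fun y => σ (y - x)) ∈
      Cg h.G q (I.map (hm_trv x).toEmbedding) (ω.map (hm_tre x).toEmbedding) := by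
  intro σ hσ
  constructor
  · intro y hy
    rw [hm_mem_map_trv] at hy
    exact hσ.1 _ hy
  · intro e he
    rw [Finset.mem_map] at he
    obtain ⟨e', he', rfl⟩ := he
    have h1 := hσ.2 e' he'
    change σ (e'.1 + x - x) = σ (e'.1 + x + h.u e'.2 - x)
    rw [add_sub_cancel_right]
    have h2 : e'.1 + x + h.u e'.2 - x = e'.1 + h.u e'.2 := by abel
    rw [h2]
    exact h1

theorem hm_map_trv_neg (x : V) (I : Finset V) :
    (I.map (hm_trv x).toEmbedding).map (hm_trv (-x)).toEmbedding = I := by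
  ext y
  rw [hm_mem_map_trv, hm_mem_map_trv]
  have : y - -x - x = y := by abel
  rw [this]

theorem hm_nc_tr (x : V) (I : Finset V) (ω : Finset (V × κ)) :
    nc h.G q (I.map (hm_trv x).toEmbedding) (ω.map (hm_tre x).toEmbedding) = nc h.G q I ω := by
  unfold nc
  congr 1
  refine Nat.card_congr
    { toFun := fun σ => ⟨fun y => σ.1 (y + x), ?_⟩
      invFun := fun σ => ⟨fun y => σ.1 (y - x), hm_nc_tr_le h q x I ω σ.1 σ.2⟩
      left_inv := ?_
      right_inv := ?_ }
  · have h1 := hm_nc_tr_le h q (-x) _ _ σ.1 σ.2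
    rw [hm_map_trv_neg, hm_map_tre_neg] at h1
    have h2 : (fun y => σ.1 (y - -x)) = fun y => σ.1 (y + x) := by
      funext y
      rw [sub_neg_eq_add]
    rw [h2] at h1
    exact h1
  · intro σ
    apply Subtype.ext
    funext y
    change σ.1 (y - x + x) = σ.1 y
    rw [sub_add_cancel]
  · intro σ
    apply Subtype.ext
    funext y
    change σ.1 (y + x - x) = σ.1 y
    rw [add_sub_cancel_right]

theorem hm_w_tr (x : V) (I : Finset V) (v : ℝ) (ω : Finset (V × κ)) :
    w h.G q (I.map (hm_trv x).toEmbedding) v (ω.map (hm_tre x).toEmbedding) = w h.G q I v ω := by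
  unfold w
  rw [hm_nc_tr, Finset.card_map]

theorem hm_Sm_map {α : Type} [DecidableEq α] (τ : α ≃ α) (E : Finset α) {μ μ' f f' : Finset α → ℝ}
    (h1 : ∀ ω, μ' (ω.map τ.toEmbedding) = μ ω) (h2 : ∀ ω, f' (ω.map τ.toEmbedding) = f ω) :
    Sm (E.map τ.toEmbedding) μ' f' = Sm E μ f := by
  unfold Sm
  symm
  apply Finset.sum_bij (fun ω _ => ω.map τ.toEmbedding)
  · intro ω hω
    rw [Finset.mem_powerset] at hω ⊢
    exact Finset.map_subset_map.2 hω
  · intro ω _ ω' _ he
    exact Finset.map_injective _ he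
  · intro ω hω
    rw [Finset.mem_powerset] at hω
    refine ⟨ω.map τ.symm.toEmbedding, ?_, ?_⟩
    · rw [Finset.mem_powerset]
      intro e he
      rw [Finset.mem_map] at he
      obtain ⟨e', he', rfl⟩ := he
      have h3 := hω he'
      rw [Finset.mem_map] at h3
      obtain ⟨e'', he'', rfl⟩ := h3
      have h4 : τ.symm.toEmbedding (τ.toEmbedding e'') = e'' := τ.symm_apply_apply e''
      rw [h4]
      exact he''
    · rw [Finset.map_map]
      have h3 : τ.symm.toEmbedding.trans τ.toEmbedding = Function.Embedding.refl _ := by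
        ext e
        exact τ.apply_symm_apply e
      rw [h3, Finset.map_refl]
  · intro ω _
    rw [h1, h2]

theorem hm_Ex_tr (x : V) (I : Finset V) (v : ℝ) (n : ℕ) :
    Ex (h.te (I.map (hm_trv x).toEmbedding)) (w h.G q (I.map (hm_trv x).toEmbedding) v)
      (ind fun ω => h.far ω x n) = Ex (h.te I) (w h.G q I v) (ind fun ω => h.far ω 0 n) := by
  rw [hm_te_tr]
  unfold Ex
  rw [hm_Sm_map (hm_tre x) (h.te I) (fun ω => hm_w_tr h q x I v ω)
      (fun ω => hm_ind_congr (hm_far_tr_iff h x) : ∀ ω : Finset (V × κ),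
        ind (fun ω => h.far ω x n) (ω.map (hm_tre x).toEmbedding) = ind (fun ω => h.far ω 0 n) ω),
    hm_Sm_map (hm_tre x) (h.te I) (fun ω => hm_w_tr h q x I v ω) (fun _ => rfl)]

theorem hm_te_mono {I J : Finset V} (hIJ : I ⊆ J) : h.te I ⊆ h.te J := by
  intro e he
  rw [mem_te] at he ⊢
  exact he.imp (fun h1 => hIJ h1) fun h1 => hIJ h1

theorem hm_exp_sub_one_pos {β : ℝ} (hβ : 0 < β) : 0 < Real.exp β - 1 := by
  have := Real.add_one_lt_exp hβ.ne'
  linarith

/-- translation and comparison: every large ball around x sees less -/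
theorem far_le_th {β : ℝ} (hβ : 0 < β) (I : Finset V) (E : Finset (V × κ)) (hE : h.te I ⊆ E)
    (x : V) (m : ℕ) (hI : ∀ y, h.N (y - x) < 2 * m → y ∈ I) :
    Ex E (w h.G q I (Real.exp β - 1)) (ind fun ω => h.far ω x m) ≤ h.th q m β := by
  have hv := hm_exp_sub_one_pos hβ
  have hI0 : (h.ball (2 * m)).map (hm_trv x).toEmbedding ⊆ I := by
    intro y hy
    rw [hm_mem_map_trv, h.mem_ball] at hy
    exact hI y hy
  have hmon : ∀ a b : Finset (V × κ), a ⊆ b →
      ind (fun ω => h.far ω x m) a ≤ ind (fun ω => h.far ω x m) b := fun a b hab =>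
    hm_ind_mono fun hf => far_mono h hab le_rfl hf
  refine (Ex_mono h.G q E hI0 hv le_rfl (fun a => hm_ind_nonneg _ a) hmon).trans (le_of_eq ?_)
  rw [Ex_indep h.G q ((hm_te_mono h hI0).trans hE) hv]
  · rw [hm_Ex_tr]
    rfl
  · intro e _ he
    rw [mem_te, not_or] at he
    exact he
  · intro ω _
    apply hm_ind_congr
    apply far_te
    intro y hy
    rw [hm_mem_map_trv, h.mem_ball]
    omega

theorem th_zero {β : ℝ} (hβ : 0 < β) : h.th q 0 β = 1 := by
  unfold Hg.th
  have h1 : (ind fun ω : Finset (V × κ) => h.far ω 0 0) = fun _ => 1 := by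
    funext ω
    unfold ind
    rw [if_pos]
    exact ⟨0, Relation.ReflTransGen.refl, Nat.zero_le _⟩
  rw [h1]
  exact hm_Ex_one fun a => w_pos h.G q (hm_exp_sub_one_pos hβ) _ a

theorem th_nonneg {β : ℝ} (hβ : 0 < β) (n : ℕ) : 0 ≤ h.th q n β := by
  unfold Hg.th
  rw [← hm_Ex_zero (E := h.te (h.ball (2 * n))) (μ := w h.G q (h.ball (2 * n)) (Real.exp β - 1))]
  exact hm_Ex_le_of_le (fun a => w_pos h.G q (hm_exp_sub_one_pos hβ) _ a) fun ω _ => hm_ind_nonneg _ ω

theorem th_le_one {β : ℝ} (hβ : 0 < β) (n : ℕ) : h.th q n β ≤ 1 := by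
  unfold Hg.th
  have hμ : ∀ a, 0 < w h.G q (h.ball (2 * n)) (Real.exp β - 1) a :=
    fun a => w_pos h.G q (hm_exp_sub_one_pos hβ) _ a
  exact (hm_Ex_le_of_le hμ fun ω _ => hm_ind_le_one _ ω).trans (le_of_eq (hm_Ex_one hμ))

theorem th_anti {β : ℝ} (hβ : 0 < β) (n : ℕ) : h.th q (n + 1) β ≤ h.th q n β := by
  refine le_trans ?_ (far_le_th h q hβ (h.ball (2 * (n + 1))) (h.te (h.ball (2 * (n + 1))))
    (Finset.Subset.refl _) 0 n ?_)
  · unfold Hg.th
    exact hm_Ex_le_of_le (fun a => w_pos h.G q (hm_exp_sub_one_pos hβ) _ a) fun ω _ =>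
      hm_ind_mono fun hf => far_mono h (Finset.Subset.refl _) (Nat.le_succ n) hf
  · intro y hy
    rw [h.mem_ball]
    rw [sub_zero] at hy
    omega

theorem th_mono {β β' : ℝ} (hβ : 0 < β) (hb : β ≤ β') (n : ℕ) : h.th q n β ≤ h.th q n β' := by
  unfold Hg.th
  refine Ex_mono h.G q _ (Finset.Subset.refl _) (hm_exp_sub_one_pos hβ) ?_ (fun a => hm_ind_nonneg _ a) ?_
  · have := Real.exp_le_exp.2 hb
    linarith
  · intro a b hab
    exact hm_ind_mono fun hf => far_mono h hab le_rfl hf

/-- finite energy at 0: the edges touching 0 are closed -/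
theorem th_lt_one {β : ℝ} (hβ : 0 < β) {n : ℕ} (hn : 1 ≤ n) :
    Real.exp (-(2 * Fintype.card κ * β)) ≤ 1 - h.th q n β := by
  have hv := hm_exp_sub_one_pos hβ
  have h0 : (0 : V) ∈ h.ball (2 * n) := by
    rw [h.mem_ball, h.N0]
    omega
  have hE : h.te {0} ⊆ h.te (h.ball (2 * n)) := hm_te_mono h (Finset.singleton_subset_iff.2 h0)
  have h1 := fin_energy h.G q hE (I := h.ball (2 * n)) hv
  have hμ : ∀ a, 0 < w h.G q (h.ball (2 * n)) (Real.exp β - 1) a := fun a => w_pos h.G q hv _ a
  have h2 : Ex (h.te (h.ball (2 * n))) (w h.G q (h.ball (2 * n)) (Real.exp β - 1))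
      (ind fun ω => Disjoint ω (h.te {0})) + h.th q n β ≤ 1 := by
    unfold Hg.th
    rw [← hm_Ex_add]
    refine (hm_Ex_le_of_le (g := fun _ => 1) hμ fun ω _ => ?_).trans (le_of_eq (hm_Ex_one hμ))
    unfold ind
    by_cases h3 : Disjoint ω (h.te {0})
    · have h4 : ¬ h.far ω 0 n := by
        rintro ⟨y, hy, hny⟩
        rcases Relation.ReflTransGen.cases_head hy with h5 | ⟨z, ⟨e, he, hs⟩, -⟩
        · rw [← h5, sub_zero, h.N0] at hny
          omega
        · have h6 : e ∈ h.te {0} := by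
            rw [mem_te, Finset.mem_singleton, Finset.mem_singleton]
            rcases hs with ⟨hs, -⟩ | ⟨-, hs⟩
            · exact Or.inl hs
            · exact Or.inr hs
          exact Finset.disjoint_left.1 h3 he h6
      rw [if_pos h3, if_neg h4]
      norm_num
    · rw [if_neg h3]
      split_ifs <;> norm_num
  have h3 : (h.te {(0 : V)}).card ≤ 2 * Fintype.card κ := by
    unfold Hg.te
    refine (Finset.card_union_le _ _).trans ?_
    have h4 : (({0} : Finset V) ×ˢ (Finset.univ : Finset κ)).card = Fintype.card κ := by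
      rw [Finset.card_product, Finset.card_singleton, one_mul, Finset.card_univ]
    have h5 := Finset.card_image_le (s := ({0} : Finset V) ×ˢ (Finset.univ : Finset κ))
      (f := fun e => (e.1 - h.u e.2, e.2))
    omega
  have h4 : 1 + (Real.exp β - 1) = Real.exp β := by ring
  rw [h4] at h1
  have h5 : Real.exp (-(2 * Fintype.card κ * β)) ≤ (Real.exp β ^ (h.te {(0 : V)}).card)⁻¹ := by
    rw [Real.exp_neg]
    apply inv_anti₀ (by positivity)
    rw [← Real.exp_nat_mul]
    apply Real.exp_le_exp.2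
    have h6 : ((h.te {(0 : V)}).card : ℝ) ≤ 2 * Fintype.card κ := by exact_mod_cast h3
    exact mul_le_mul_of_nonneg_right h6 hβ.le
  linarith

end H

end Pool.Agent.DLS
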