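import Pool.Agent.DLS.Defs

/-!
# The inequality of O'Donnell, Saks, Schramm and Servedio for monotonic measures

A proof by induction on the decision tree: the two configurations follow the tree together.
-/

set_option autoImplicit false
set_option linter.unusedSectionVars false

namespace Pool.Agent.DLS

open Finset

section Step

/-- The mean of a function of two coupled bits of means `p`, `p'`. -/
noncomputable def Wc (p p' h11 h10 h01 h00 : ℝ) : ℝ :=
  min p p' * h11 + (p - min p p') * h10 + (p' - min p p') * h01 + (1 - p - p' + min p p') * h00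

theorem Wc_mono {p p' p'' h11 h10 h01 h00 k11 k10 k01 k00 : ℝ} (hp0 : 0 ≤ p) (hp1 : p ≤ 1)
    (h'0 : 0 ≤ p') (h'' : p' ≤ p'') (h''1 : p'' ≤ 1) (a11 : h11 ≤ k11) (a10 : h10 ≤ k10)
    (a1 : h10 ≤ k11) (a01 : h01 ≤ k01) (a00 : h00 ≤ k00) (a0 : h00 ≤ k01) :
    Wc p p' h11 h10 h01 h00 ≤ Wc p p'' k11 k10 k01 k00 := by
  unfold Wc
  rcases le_total p p' with h1 | h1
  · have h2 : p ≤ p'' := h1.trans h''
    rw [min_eq_left h1, min_eq_left h2]
    have e1 := mul_nonneg hp0 (sub_nonneg.2 a11)
    have e2 := mul_nonneg (sub_nonneg.2 h1) (sub_nonneg.2 a01)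
    have e3 := mul_nonneg (sub_nonneg.2 h'') (sub_nonneg.2 a0)
    have e4 := mul_nonneg (sub_nonneg.2 h''1) (sub_nonneg.2 a00)
    nlinarith
  · rcases le_total p p'' with h2 | h2
    · rw [min_eq_right h1, min_eq_left h2]
      have e1 := mul_nonneg h'0 (sub_nonneg.2 a11)
      have e2 := mul_nonneg (sub_nonneg.2 h1) (sub_nonneg.2 a1)
      have e3 := mul_nonneg (sub_nonneg.2 h2) (sub_nonneg.2 a0)
      have e4 := mul_nonneg (sub_nonneg.2 h''1) (sub_nonneg.2 a00)
      nlinarith
    · rw [min_eq_right h1, min_eq_right h2]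
      have e1 := mul_nonneg h'0 (sub_nonneg.2 a11)
      have e2 := mul_nonneg (sub_nonneg.2 h'') (sub_nonneg.2 a1)
      have e3 := mul_nonneg (sub_nonneg.2 h2) (sub_nonneg.2 a10)
      have e4 := mul_nonneg (sub_nonneg.2 hp1) (sub_nonneg.2 a00)
      nlinarith

theorem Wc_sub (p p' h11 h10 h01 h00 g1 g0 : ℝ) :
    Wc p p' (g1 - h11) (g0 - h10) (g1 - h01) (g0 - h00) =
      (p' * g1 + (1 - p') * g0) - Wc p p' h11 h10 h01 h00 := by
  unfold Wc
  ring

theorem Wc_self (p h11 h10 h01 h00 : ℝ) : Wc p p h11 h10 h01 h00 = p * h11 + (1 - p) * h00 := by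
  unfold Wc
  rw [min_self]
  ring

/-- The cost of making the step independent. -/
theorem Wc_le {p p' h11 h10 h01 h00 g1 g0 : ℝ} (hp0 : 0 ≤ p) (hp1 : p ≤ 1)
    (h'0 : 0 ≤ p') (h'1 : p' ≤ 1) (a1 : h11 - h10 ≤ g1 - g0) (a0 : h00 ≤ h01) (hg : g0 ≤ g1) :
    Wc p p' h11 h10 h01 h00 ≤ p * p' * h11 + p * (1 - p') * h10 + (1 - p) * p' * h01 +
      (1 - p) * (1 - p') * h00 + p' * (1 - p') * (g1 - g0) := by
  have hk0 : 0 ≤ min p p' - p * p' := by
    rcases le_total p p' with h | h
    · rw [min_eq_left h]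
      nlinarith
    · rw [min_eq_right h]
      nlinarith
  have hk1 : min p p' - p * p' ≤ p' * (1 - p') := by
    rcases le_total p p' with h | h
    · rw [min_eq_left h]
      nlinarith
    · rw [min_eq_right h]
      nlinarith
  have h1 : Wc p p' h11 h10 h01 h00 = p * p' * h11 + p * (1 - p') * h10 + (1 - p) * p' * h01 +
      (1 - p) * (1 - p') * h00 + (min p p' - p * p') * ((h11 - h10) - (h01 - h00)) := by
    unfold Wc
    ring
  rw [h1]
  have h2 : (min p p' - p * p') * ((h11 - h10) - (h01 - h00)) ≤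
      (min p p' - p * p') * (g1 - g0) :=
    mul_le_mul_of_nonneg_left (by linarith) hk0
  have h3 : (min p p' - p * p') * (g1 - g0) ≤ p' * (1 - p') * (g1 - g0) :=
    mul_le_mul_of_nonneg_right hk1 (by linarith)
  linarith

end Step

section S1
variable {ι : Type} [DecidableEq ι]

/-- The mass of a trace. -/
noncomputable def Nm (E : Finset ι) (μ : Finset ι → ℝ) (S A : Finset ι) : ℝ :=
  Sm E (rs S A μ) fun _ => 1

/-- The conditional mean of `g`. -/
noncomputable def mm (E : Finset ι) (μ g : Finset ι → ℝ) (S A : Finset ι) : ℝ :=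
  Sm E (rs S A μ) g / Nm E μ S A

/-- The conditional probability of `e`. -/
noncomputable def pp (E : Finset ι) (μ : Finset ι → ℝ) (S A : Finset ι) (e : ι) : ℝ :=
  Nm E μ (insert e S) (insert e A) / Nm E μ S A

variable {E : Finset ι} {μ g : Finset ι → ℝ}

theorem Nm_pos (hμ : ∀ a, 0 < μ a) {S A : Finset ι} (hA : A ⊆ S) (hS : S ⊆ E) :
    0 < Nm E μ S A := Sm_rs_pos hμ hA (hA.trans hS)

theorem Nm_nonneg (hμ : ∀ a, 0 < μ a) (S A : Finset ι) : 0 ≤ Nm E μ S A :=
  Finset.sum_nonneg fun a _ => by have := rs_nonneg hμ S A a; linarith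

theorem Nm_split {S A : Finset ι} {e : ι} (he : e ∉ S) (hA : A ⊆ S) :
    Nm E μ S A = Nm E μ (insert e S) (insert e A) + Nm E μ (insert e S) A :=
  Sm_rs_split E he hA μ _

theorem pp_mul (hμ : ∀ a, 0 < μ a) {S A : Finset ι} (hA : A ⊆ S) (hS : S ⊆ E) (e : ι) :
    pp E μ S A e * Nm E μ S A = Nm E μ (insert e S) (insert e A) :=
  div_mul_cancel₀ _ (Nm_pos hμ hA hS).ne'

theorem pp_mul' (hμ : ∀ a, 0 < μ a) {S A : Finset ι} {e : ι} (he : e ∉ S) (hA : A ⊆ S)
    (hS : S ⊆ E) : (1 - pp E μ S A e) * Nm E μ S A = Nm E μ (insert e S) A := by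
  have h1 := pp_mul hμ hA hS e
  have h2 := Nm_split (E := E) (μ := μ) he hA
  linarith

theorem pp_nonneg (hμ : ∀ a, 0 < μ a) (S A : Finset ι) (e : ι) : 0 ≤ pp E μ S A e :=
  div_nonneg (Nm_nonneg hμ _ _) (Nm_nonneg hμ _ _)

theorem pp_le_one (hμ : ∀ a, 0 < μ a) {S A : Finset ι} {e : ι} (he : e ∉ S) (hA : A ⊆ S)
    (hS : S ⊆ E) : pp E μ S A e ≤ 1 := by
  unfold pp
  rw [div_le_one (Nm_pos hμ hA hS), Nm_split (E := E) (μ := μ) he hA]
  have := Nm_nonneg (E := E) hμ (insert e S) A
  linarith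

theorem mm_mono (hμ : ∀ a, 0 < μ a) (hl : ∀ a b, μ a * μ b ≤ μ (a ∩ b) * μ (a ∪ b))
    (hg : ∀ a, 0 ≤ g a) (hm : ∀ a b, a ⊆ b → g a ≤ g b) {S A B : Finset ι} (hAB : A ⊆ B)
    (hB : B ⊆ S) (hS : S ⊆ E) : mm E μ g S A ≤ mm E μ g S B := by
  unfold mm
  rw [div_le_div_iff₀ (Nm_pos hμ (hAB.trans hB) hS) (Nm_pos hμ hB hS)]
  have := holley_mul E (rs_nonneg hμ S A) (rs_nonneg hμ S B) hg hm
    fun a _ b _ => rs_lat hμ hl hAB a b
  unfold Nm
  linarith [mul_comm (Sm E (rs S A μ) fun _ => 1) (Sm E (rs S B μ) g)]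

theorem pp_eq (he : ι) {S A : Finset ι} (h : he ∉ S) (hA : A ⊆ S) : pp E μ S A he =
    mm E μ (fun ω => if he ∈ ω then 1 else 0) S A := by
  unfold pp mm
  congr 1
  unfold Nm
  rw [Sm_rs_mem E h hA]
  refine Sm_congr fun ω _ => ?_
  rw [one_mul]

theorem pp_mono (hμ : ∀ a, 0 < μ a) (hl : ∀ a b, μ a * μ b ≤ μ (a ∩ b) * μ (a ∪ b))
    {S A B : Finset ι} {e : ι} (he : e ∉ S) (hAB : A ⊆ B) (hB : B ⊆ S) (hS : S ⊆ E) :
    pp E μ S A e ≤ pp E μ S B e := by
  rw [pp_eq e he (hAB.trans hB), pp_eq e he hB]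
  refine mm_mono hμ hl (fun a => ?_) (fun a b hab => ?_) hAB hB hS
  · split_ifs
    · exact zero_le_one
    · exact le_refl _
  · by_cases h : e ∈ a
    · rw [if_pos h, if_pos (hab h)]
    · rw [if_neg h]
      split_ifs
      · exact zero_le_one
      · exact le_refl _

theorem mm_split (hμ : ∀ a, 0 < μ a) (f : Finset ι → ℝ) {S A : Finset ι} {e : ι} (he : e ∉ S)
    (hE : e ∈ E) (hA : A ⊆ S) (hS : S ⊆ E) : mm E μ f S A =
      pp E μ S A e * mm E μ f (insert e S) (insert e A) +
        (1 - pp E μ S A e) * mm E μ f (insert e S) A := by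
  have hS' : insert e S ⊆ E := Finset.insert_subset hE hS
  have h0 := (Nm_pos hμ hA hS).ne'
  have h1 := (Nm_pos hμ (Finset.insert_subset_insert e hA) hS').ne'
  have h2 := (Nm_pos hμ (hA.trans (Finset.subset_insert e S)) hS').ne'
  have h3 : 1 - pp E μ S A e = Nm E μ (insert e S) A / Nm E μ S A := by
    rw [eq_div_iff h0]
    exact pp_mul' hμ he hA hS
  rw [h3]
  unfold mm pp
  rw [Sm_rs_split E he hA μ f]
  field_simp

/-- The coupled mean. -/
noncomputable def Hc (E : Finset ι) (μ g : Finset ι → ℝ) :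
    DT ι → Finset ι → Finset ι → Finset ι → ℝ
  | .leaf c, S, _, B => c * mm E μ g S B
  | .node e t0 t1, S, A, B => Wc (pp E μ S A e) (pp E μ S B e)
      (Hc E μ g t1 (insert e S) (insert e A) (insert e B)) (Hc E μ g t1 (insert e S) (insert e A) B)
      (Hc E μ g t0 (insert e S) A (insert e B)) (Hc E μ g t0 (insert e S) A B)

theorem Hc_bounds (hμ : ∀ a, 0 < μ a) (hl : ∀ a b, μ a * μ b ≤ μ (a ∩ b) * μ (a ∪ b))
    (hg : ∀ a, 0 ≤ g a) (hm : ∀ a b, a ⊆ b → g a ≤ g b) (t : DT ι) :
    ∀ S A B B' : Finset ι, t.ok E S → S ⊆ E → A ⊆ S → B ⊆ B' → B' ⊆ S →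
      Hc E μ g t S A B ≤ Hc E μ g t S A B' ∧
      Hc E μ g t S A B' - Hc E μ g t S A B ≤ mm E μ g S B' - mm E μ g S B := by
  induction t with
  | leaf c =>
    intro S A B B' hok hS hA hB hB'
    have h1 := mm_mono hμ hl hg hm hB hB' hS
    obtain ⟨h2, h3⟩ := hok
    simp only [Hc]
    constructor
    · exact mul_le_mul_of_nonneg_left h1 h2
    · nlinarith
  | node e t0 t1 ih0 ih1 =>
    intro S A B B' hok hS hA hB hB'
    obtain ⟨hE, he, h0, h1⟩ := hok
    have hS' : insert e S ⊆ E := Finset.insert_subset hE hS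
    have i1 : insert e A ⊆ insert e S := Finset.insert_subset_insert e hA
    have i0 : A ⊆ insert e S := hA.trans (Finset.subset_insert e S)
    have j1 : insert e B ⊆ insert e B' := Finset.insert_subset_insert e hB
    have j01 : B ⊆ insert e B' := hB.trans (Finset.subset_insert e B')
    have k1 : insert e B' ⊆ insert e S := Finset.insert_subset_insert e hB'
    have k0 : B' ⊆ insert e S := hB'.trans (Finset.subset_insert e S)
    have hp0 := pp_nonneg (E := E) hμ S A e
    have hp1 := pp_le_one hμ he hA hS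
    have hq0 := pp_nonneg (E := E) hμ S B e
    have hq := pp_mono hμ hl he hB hB' hS
    have hq1 := pp_le_one hμ he hB' hS
    have a11 := ih1 _ _ _ _ h1 hS' i1 j1 k1
    have a10 := ih1 _ _ _ _ h1 hS' i1 hB k0
    have a1 := ih1 _ _ _ _ h1 hS' i1 j01 k1
    have a01 := ih0 _ _ _ _ h0 hS' i0 j1 k1
    have a00 := ih0 _ _ _ _ h0 hS' i0 hB k0
    have a0 := ih0 _ _ _ _ h0 hS' i0 j01 k1
    simp only [Hc]
    constructor
    · exact Wc_mono hp0 hp1 hq0 hq hq1 a11.1 a10.1 a1.1 a01.1 a00.1 a0.1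
    · have h3 := Wc_mono (h11 := mm E μ g (insert e S) (insert e B) -
          Hc E μ g t1 (insert e S) (insert e A) (insert e B))
        (h10 := mm E μ g (insert e S) B - Hc E μ g t1 (insert e S) (insert e A) B)
        (h01 := mm E μ g (insert e S) (insert e B) - Hc E μ g t0 (insert e S) A (insert e B))
        (h00 := mm E μ g (insert e S) B - Hc E μ g t0 (insert e S) A B)
        (k11 := mm E μ g (insert e S) (insert e B') -
          Hc E μ g t1 (insert e S) (insert e A) (insert e B'))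
        (k10 := mm E μ g (insert e S) B' - Hc E μ g t1 (insert e S) (insert e A) B')
        (k01 := mm E μ g (insert e S) (insert e B') - Hc E μ g t0 (insert e S) A (insert e B'))
        (k00 := mm E μ g (insert e S) B' - Hc E μ g t0 (insert e S) A B')
        hp0 hp1 hq0 hq hq1 (by linarith [a11.2]) (by linarith [a10.2]) (by linarith [a1.2])
        (by linarith [a01.2]) (by linarith [a00.2]) (by linarith [a0.2])
      rw [Wc_sub, Wc_sub, ← mm_split hμ g he hE (hB.trans hB') hS,
        ← mm_split hμ g he hE hB' hS] at h3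
      linarith

/-- Both configurations agree. -/
theorem Hc_diag (hμ : ∀ a, 0 < μ a) (t : DT ι) :
    ∀ S A : Finset ι, t.ok E S → S ⊆ E → A ⊆ S →
      Hc E μ g t S A A = mm E μ (fun ω => t.val ω * g ω) S A := by
  induction t with
  | leaf c =>
    intro S A _ _ _
    simp only [Hc, DT.val]
    unfold mm
    rw [Sm_const_mul, mul_div_assoc]
  | node e t0 t1 ih0 ih1 =>
    intro S A hok hS hA
    obtain ⟨hE, he, h0, h1⟩ := hok
    have hS' : insert e S ⊆ E := Finset.insert_subset hE hS
    have i1 : insert e A ⊆ insert e S := Finset.insert_subset_insert e hA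
    have i0 : A ⊆ insert e S := hA.trans (Finset.subset_insert e S)
    have heA : e ∉ A := fun h => he (hA h)
    simp only [Hc]
    rw [Wc_self, ih1 _ _ h1 hS' i1, ih0 _ _ h0 hS' i0,
      mm_split hμ (fun ω => (DT.node e t0 t1).val ω * g ω) he hE hA hS]
    congr 2
    · unfold mm Sm
      congr 1
      refine Finset.sum_congr rfl fun ω _ => ?_
      by_cases hω : ω ∩ insert e S = insert e A
      · have h3 : e ∈ ω := by
          have : e ∈ ω ∩ insert e S := by rw [hω]; exact Finset.mem_insert_self _ _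
          exact (Finset.mem_inter.1 this).1
        simp only [DT.val, if_pos h3]
      · simp only [rs, if_neg hω, zero_mul]
    · unfold mm Sm
      congr 1
      refine Finset.sum_congr rfl fun ω _ => ?_
      by_cases hω : ω ∩ insert e S = A
      · have h3 : e ∉ ω := by
          intro h
          exact heA (hω ▸ Finset.mem_inter.2 ⟨h, Finset.mem_insert_self _ _⟩)
        simp only [DT.val, if_neg h3]
      · simp only [rs, if_neg hω, zero_mul]

theorem qs_notMem (t : DT ι) : ∀ (S ω : Finset ι), t.ok E S → ∀ e ∈ t.qs ω, e ∉ S ∧ e ∈ E := by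
  induction t with
  | leaf c =>
    intro S ω _ e he
    simp only [DT.qs] at he
    exact absurd he (Finset.notMem_empty e)
  | node e t0 t1 ih0 ih1 =>
    intro S ω hok e' he'
    obtain ⟨hE, he, h0, h1⟩ := hok
    simp only [DT.qs, Finset.mem_insert] at he'
    rcases he' with rfl | he'
    · exact ⟨he, hE⟩
    · by_cases hω : e ∈ ω
      · rw [if_pos hω] at he'
        have := ih1 _ ω h1 e' he'
        exact ⟨fun h => this.1 (Finset.mem_insert_of_mem h), this.2⟩
      · rw [if_neg hω] at he'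
        have := ih0 _ ω h0 e' he'
        exact ⟨fun h => this.1 (Finset.mem_insert_of_mem h), this.2⟩

/-- The lattice condition for the marginal weights. -/
theorem Nm_lat (hμ : ∀ a, 0 < μ a) (hl : ∀ a b, μ a * μ b ≤ μ (a ∩ b) * μ (a ∪ b))
    (S A B : Finset ι) :
    Nm E μ S A * Nm E μ S B ≤ Nm E μ S (A ∩ B) * Nm E μ S (A ∪ B) := by
  unfold Nm Sm
  simp only [mul_one]
  exact four E (rs_nonneg hμ S A) (rs_nonneg hμ S B) (rs_nonneg hμ _ _) (rs_nonneg hμ _ _)
    fun a _ b _ => rs_lat' hμ hl S A B a b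

/-- The mean conditional covariance is at most the covariance. -/
theorem sum_cov (hμ : ∀ a, 0 < μ a) (hl : ∀ a b, μ a * μ b ≤ μ (a ∩ b) * μ (a ∪ b))
    (hg : ∀ a, 0 ≤ g a) (hm : ∀ a b, a ⊆ b → g a ≤ g b) {S : Finset ι} {e : ι} (he : e ∉ S)
    (hE : e ∈ E) (hS : S ⊆ E) :
    ∑ B ∈ S.powerset, Nm E μ S B * (pp E μ S B e * (1 - pp E μ S B e) *
      (mm E μ g (insert e S) (insert e B) - mm E μ g (insert e S) B)) ≤
      (Sm E μ fun _ => 1) * cv E μ g e := by
  have hS' : insert e S ⊆ E := Finset.insert_subset hE hS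
  have hZ : 0 < Sm E μ fun _ => 1 := Sm_one_pos hμ
  -- each term
  have h1 : ∀ B ∈ S.powerset, Nm E μ S B * (pp E μ S B e * (1 - pp E μ S B e) *
      (mm E μ g (insert e S) (insert e B) - mm E μ g (insert e S) B)) =
      Sm E (rs S B μ) (fun ω => g ω * if e ∈ ω then 1 else 0) -
        Nm E μ S B * (pp E μ S B e * mm E μ g S B) := by
    intro B hB
    rw [Finset.mem_powerset] at hB
    have h2 := mm_split hμ g he hE hB hS
    have h3 := pp_mul hμ hB hS e
    have h4 : mm E μ g (insert e S) (insert e B) * Nm E μ (insert e S) (insert e B) =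
        Sm E (rs (insert e S) (insert e B) μ) g :=
      div_mul_cancel₀ _ (Nm_pos hμ (Finset.insert_subset_insert e hB) hS').ne'
    rw [Sm_rs_mem E he hB] at h4
    rw [← h4, ← h3]
    set a := pp E μ S B e
    set x := mm E μ g (insert e S) (insert e B)
    set y := mm E μ g (insert e S) B
    set z := mm E μ g S B
    have h5 : a * (1 - a) * (x - y) = a * x - a * z := by rw [h2]; ring
    rw [h5]
    ring
  rw [Finset.sum_congr rfl h1, Finset.sum_sub_distrib, sum_rs]
  -- positive association of the conditional means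
  have h6 := fkg_mul S (μ := fun B => Nm E μ S B) (f := fun B => pp E μ S B e)
    (g := fun B => mm E μ g S B) (fun B => Nm_nonneg hμ S B) (fun B => pp_nonneg hμ S B e)
    (fun B => div_nonneg (Finset.sum_nonneg fun a _ => mul_nonneg (rs_nonneg hμ S B a) (hg a))
      (Nm_nonneg hμ S B))
    (fun a b hab hb => pp_mono hμ hl he hab hb hS)
    (fun a b hab hb => mm_mono hμ hl hg hm hab hb hS)
    (fun a _ b _ => Nm_lat hμ hl S a b)
  have e1 : Sm S (fun B => Nm E μ S B) (fun _ => 1) = Sm E μ fun _ => 1 := by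
    rw [← sum_rs (E := E) (S := S) μ fun _ => 1]
    unfold Sm Nm
    exact Finset.sum_congr rfl fun _ _ => mul_one _
  have e2 : Sm S (fun B => Nm E μ S B) (fun B => mm E μ g S B) = Sm E μ g := by
    rw [← sum_rs (E := E) (S := S) μ g]
    refine Finset.sum_congr rfl fun B hB => ?_
    exact mul_div_cancel₀ _ (Nm_pos hμ (Finset.mem_powerset.1 hB) hS).ne'
  have e3 : Sm S (fun B => Nm E μ S B) (fun B => pp E μ S B e) =
      Sm E μ fun ω => if e ∈ ω then 1 else 0 := by
    rw [← sum_rs (E := E) (S := S) μ]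
    refine Finset.sum_congr rfl fun B hB => ?_
    have h8 := pp_eq (E := E) (μ := μ) e he (Finset.mem_powerset.1 hB)
    change Nm E μ S B * pp E μ S B e = _
    rw [h8]
    exact mul_div_cancel₀ _ (Nm_pos hμ (Finset.mem_powerset.1 hB) hS).ne'
  rw [e1, e2, e3] at h6
  have e4 : Sm S (fun B => Nm E μ S B) (fun B => pp E μ S B e * mm E μ g S B) =
      ∑ B ∈ S.powerset, Nm E μ S B * (pp E μ S B e * mm E μ g S B) := rfl
  rw [e4] at h6
  have e5 : (Sm E μ fun _ => 1) * cv E μ g e =
      Sm E μ (fun ω => g ω * if e ∈ ω then 1 else 0) -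
        Sm E μ g * Sm E μ (fun ω => if e ∈ ω then 1 else 0) / Sm E μ fun _ => 1 := by
    unfold cv Ex
    have i1 : (Sm E μ fun ω => g ω * ind (fun ω => e ∈ ω) ω) =
        Sm E μ (fun ω => g ω * if e ∈ ω then 1 else 0) :=
      Sm_congr fun ω _ => by unfold ind; congr
    have i2 : (Sm E μ (ind fun ω => e ∈ ω)) = Sm E μ (fun ω => if e ∈ ω then 1 else 0) :=
      Sm_congr fun ω _ => by unfold ind; congr
    rw [i1, i2]
    field_simp
  rw [e5]
  have h7 : Sm E μ g * Sm E μ (fun ω => if e ∈ ω then 1 else 0) / (Sm E μ fun _ => 1) ≤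
      ∑ B ∈ S.powerset, Nm E μ S B * (pp E μ S B e * mm E μ g S B) := by
    rw [div_le_iff₀ hZ]
    linarith
  linarith

/-- The main induction. -/
theorem osss_aux (hμ : ∀ a, 0 < μ a) (hl : ∀ a b, μ a * μ b ≤ μ (a ∩ b) * μ (a ∪ b))
    (hg : ∀ a, 0 ≤ g a) (hm : ∀ a b, a ⊆ b → g a ≤ g b) (t : DT ι) :
    ∀ S A : Finset ι, t.ok E S → S ⊆ E → A ⊆ S →
      ∑ B ∈ S.powerset, Nm E μ S B * Hc E μ g t S A B ≤ (Sm E μ fun _ => 1) *
        mm E μ (fun ω => t.val ω * Ex E μ g + ∑ e ∈ t.qs ω, cv E μ g e) S A := by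
  have hZ : 0 < Sm E μ fun _ => 1 := Sm_one_pos hμ
  induction t with
  | leaf c =>
    intro S A _ hS hA
    have h1 : ∑ B ∈ S.powerset, Nm E μ S B * Hc E μ g (DT.leaf c) S A B = c * Sm E μ g := by
      rw [← sum_rs (E := E) (S := S) μ g, Finset.mul_sum]
      refine Finset.sum_congr rfl fun B hB => ?_
      have h2 : Nm E μ S B * mm E μ g S B = Sm E (rs S B μ) g :=
        mul_div_cancel₀ _ (Nm_pos hμ (Finset.mem_powerset.1 hB) hS).ne'
      simp only [Hc]
      rw [← h2]
      ring
    have h3 : mm E μ (fun ω => (DT.leaf c).val ω * Ex E μ g +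
        ∑ e ∈ (DT.leaf c : DT ι).qs ω, cv E μ g e) S A = c * Ex E μ g := by
      simp only [DT.val, DT.qs, Finset.sum_empty, add_zero]
      unfold mm
      have h4 : (Sm E (rs S A μ) fun _ => c * Ex E μ g) = c * Ex E μ g * Nm E μ S A := by
        have := Sm_const_mul E (rs S A μ) (fun _ => 1) (c * Ex E μ g)
        simp only [mul_one] at this
        exact this
      rw [h4, mul_div_assoc, div_self (Nm_pos hμ hA hS).ne', mul_one]
    rw [h1, h3]
    unfold Ex
    rw [show (Sm E μ fun _ => 1) * (c * (Sm E μ g / Sm E μ fun _ => 1)) = c * Sm E μ g by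
      field_simp]
  | node e t0 t1 ih0 ih1 =>
    intro S A hok hS hA
    have hok' := hok
    obtain ⟨hE, he, h0, h1⟩ := hok
    have hS' : insert e S ⊆ E := Finset.insert_subset hE hS
    have i1 : insert e A ⊆ insert e S := Finset.insert_subset_insert e hA
    have i0 : A ⊆ insert e S := hA.trans (Finset.subset_insert e S)
    have heA : e ∉ A := fun h => he (hA h)
    have hp0 := pp_nonneg (E := E) hμ S A e
    have hp1 := pp_le_one hμ he hA hS
    set p := pp E μ S A e with hp
    have g1 := ih1 _ _ h1 hS' i1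
    have g0 := ih0 _ _ h0 hS' i0
    rw [Finset.sum_powerset_insert he] at g1 g0
    -- the step
    have st : ∀ B ∈ S.powerset, Nm E μ S B * Hc E μ g (DT.node e t0 t1) S A B ≤
        p * (Nm E μ (insert e S) B * Hc E μ g t1 (insert e S) (insert e A) B +
          Nm E μ (insert e S) (insert e B) *
            Hc E μ g t1 (insert e S) (insert e A) (insert e B)) +
        (1 - p) * (Nm E μ (insert e S) B * Hc E μ g t0 (insert e S) A B +
          Nm E μ (insert e S) (insert e B) * Hc E μ g t0 (insert e S) A (insert e B)) +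
        Nm E μ S B * (pp E μ S B e * (1 - pp E μ S B e) *
          (mm E μ g (insert e S) (insert e B) - mm E μ g (insert e S) B)) := by
      intro B hB
      rw [Finset.mem_powerset] at hB
      have k0 : B ⊆ insert e S := hB.trans (Finset.subset_insert e S)
      have k1 : insert e B ⊆ insert e S := Finset.insert_subset_insert e hB
      have n1 := pp_mul hμ hB hS e
      have n0 := pp_mul' hμ he hB hS
      have hq0 := pp_nonneg (E := E) hμ S B e
      have hq1 := pp_le_one hμ he hB hS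
      have a1 := Hc_bounds hμ hl hg hm t1 (insert e S) (insert e A) B (insert e B) h1 hS' i1
        (Finset.subset_insert e B) k1
      have a0 := Hc_bounds hμ hl hg hm t0 (insert e S) A B (insert e B) h0 hS' i0
        (Finset.subset_insert e B) k1
      have a2 := mm_mono hμ hl hg hm (Finset.subset_insert e B) k1 hS'
      have w := Wc_le hp0 hp1 hq0 hq1 a1.2 a0.1 a2
      have w2 := mul_le_mul_of_nonneg_left w (Nm_nonneg (E := E) hμ S B)
      simp only [Hc]
      refine w2.trans (le_of_eq ?_)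
      rw [← n1, ← n0]
      ring
    refine (Finset.sum_le_sum st).trans ?_
    rw [Finset.sum_add_distrib, Finset.sum_add_distrib, ← Finset.mul_sum, ← Finset.mul_sum,
      Finset.sum_add_distrib, Finset.sum_add_distrib]
    have sc := sum_cov hμ hl hg hm he hE hS
    have g1' := mul_le_mul_of_nonneg_left g1 hp0
    have g0' := mul_le_mul_of_nonneg_left g0 (sub_nonneg.2 hp1)
    -- the right hand side
    have r : mm E μ (fun ω => (DT.node e t0 t1).val ω * Ex E μ g +
        ∑ e' ∈ (DT.node e t0 t1).qs ω, cv E μ g e') S A = cv E μ g e +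
        p * mm E μ (fun ω => t1.val ω * Ex E μ g + ∑ e' ∈ t1.qs ω, cv E μ g e') (insert e S)
          (insert e A) + (1 - p) * mm E μ (fun ω => t0.val ω * Ex E μ g +
            ∑ e' ∈ t0.qs ω, cv E μ g e') (insert e S) A := by
      rw [mm_split hμ _ he hE hA hS]
      have q1 : mm E μ (fun ω => (DT.node e t0 t1).val ω * Ex E μ g +
          ∑ e' ∈ (DT.node e t0 t1).qs ω, cv E μ g e') (insert e S) (insert e A) =
          cv E μ g e + mm E μ (fun ω => t1.val ω * Ex E μ g + ∑ e' ∈ t1.qs ω, cv E μ g e')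
            (insert e S) (insert e A) := by
        have hn := (Nm_pos hμ i1 hS').ne'
        have h2 : cv E μ g e = (Sm E (rs (insert e S) (insert e A) μ) fun _ => cv E μ g e) /
            Nm E μ (insert e S) (insert e A) := by
          have := Sm_const_mul E (rs (insert e S) (insert e A) μ) (fun _ => 1) (cv E μ g e)
          simp only [mul_one] at this
          rw [this, mul_div_assoc]
          unfold Nm at hn ⊢
          rw [div_self hn, mul_one]
        unfold mm
        rw [h2, ← add_div, ← Sm_add]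
        congr 1
        unfold Sm
        refine Finset.sum_congr rfl fun ω _ => ?_
        by_cases hω : ω ∩ insert e S = insert e A
        · have h3 : e ∈ ω := by
            have : e ∈ ω ∩ insert e S := by rw [hω]; exact Finset.mem_insert_self _ _
            exact (Finset.mem_inter.1 this).1
          have h4 : e ∉ t1.qs ω := fun h =>
            (qs_notMem t1 _ ω h1 e h).1 (Finset.mem_insert_self _ _)
          simp only [DT.val, DT.qs, if_pos h3]
          rw [Finset.sum_insert h4]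
          ring
        · simp only [rs, if_neg hω, zero_mul]
      have q0 : mm E μ (fun ω => (DT.node e t0 t1).val ω * Ex E μ g +
          ∑ e' ∈ (DT.node e t0 t1).qs ω, cv E μ g e') (insert e S) A =
          cv E μ g e + mm E μ (fun ω => t0.val ω * Ex E μ g + ∑ e' ∈ t0.qs ω, cv E μ g e')
            (insert e S) A := by
        have hn := (Nm_pos hμ i0 hS').ne'
        have h2 : cv E μ g e = (Sm E (rs (insert e S) A μ) fun _ => cv E μ g e) /
            Nm E μ (insert e S) A := by
          have := Sm_const_mul E (rs (insert e S) A μ) (fun _ => 1) (cv E μ g e)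
          simp only [mul_one] at this
          rw [this, mul_div_assoc]
          unfold Nm at hn ⊢
          rw [div_self hn, mul_one]
        unfold mm
        rw [h2, ← add_div, ← Sm_add]
        congr 1
        unfold Sm
        refine Finset.sum_congr rfl fun ω _ => ?_
        by_cases hω : ω ∩ insert e S = A
        · have h3 : e ∉ ω := by
            intro h
            exact heA (hω ▸ Finset.mem_inter.2 ⟨h, Finset.mem_insert_self _ _⟩)
          have h4 : e ∉ t0.qs ω := fun h =>
            (qs_notMem t0 _ ω h0 e h).1 (Finset.mem_insert_self _ _)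
          simp only [DT.val, DT.qs, if_neg h3]
          rw [Finset.sum_insert h4]
          ring
        · simp only [rs, if_neg hω, zero_mul]
      rw [q1, q0, ← hp]
      ring
    rw [r]
    nlinarith [sc, g1', g0']

/-- The OSSS inequality for a monotonic measure. -/
theorem osss (E : Finset ι) {μ g : Finset ι → ℝ} (hμ : ∀ a, 0 < μ a)
    (hl : ∀ a b, μ a * μ b ≤ μ (a ∩ b) * μ (a ∪ b)) (hg : ∀ a, 0 ≤ g a)
    (hm : ∀ a b, a ⊆ b → g a ≤ g b) (T : DT ι) (hT : T.ok E ∅) :
    Ex E μ (fun ω => T.val ω * g ω) ≤ Ex E μ T.val * Ex E μ g +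
      ∑ e ∈ E, Ex E μ (ind fun ω => e ∈ T.qs ω) * cv E μ g e := by
  have hZ : 0 < Sm E μ fun _ => 1 := Sm_one_pos hμ
  have h1 := osss_aux hμ hl hg hm T ∅ ∅ hT (Finset.empty_subset E) (Finset.Subset.refl _)
  rw [Finset.powerset_empty, Finset.sum_singleton,
    Hc_diag hμ T ∅ ∅ hT (Finset.empty_subset E) (Finset.Subset.refl _)] at h1
  have e0 : ∀ f : Finset ι → ℝ, mm E μ f ∅ ∅ = Ex E μ f := by
    intro f
    unfold mm Ex Nm
    rw [rs_empty]
  have e1 : Nm E μ ∅ ∅ = Sm E μ fun _ => 1 := by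
    unfold Nm
    rw [rs_empty]
  rw [e0, e0, e1] at h1
  have h2 := le_of_mul_le_mul_left h1 hZ
  refine h2.trans (le_of_eq ?_)
  have h3 : ∀ ω, ∑ e ∈ T.qs ω, cv E μ g e =
      ∑ e ∈ E, ind (fun ω => e ∈ T.qs ω) ω * cv E μ g e := by
    intro ω
    have h4 : T.qs ω ⊆ E := fun e he => (qs_notMem T ∅ ω hT e he).2
    rw [← Finset.sum_subset h4 (f := fun e => ind (fun ω => e ∈ T.qs ω) ω * cv E μ g e)]
    · refine Finset.sum_congr rfl fun e he => ?_
      unfold ind
      rw [if_pos he, one_mul]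
    · intro e _ he
      unfold ind
      rw [if_neg he, zero_mul]
  unfold Ex
  rw [Sm_add]
  have h5 : (Sm E μ fun ω => ∑ e ∈ T.qs ω, cv E μ g e) =
      ∑ e ∈ E, Sm E μ (ind fun ω => e ∈ T.qs ω) * cv E μ g e := by
    rw [Sm_congr fun ω _ => h3 ω, Sm_sum]
    refine Finset.sum_congr rfl fun e _ => ?_
    rw [mul_comm (Sm E μ _) _, ← Sm_const_mul]
    exact Sm_congr fun ω _ => by ring
  have h6 : (Sm E μ fun ω => T.val ω * (Sm E μ g / Sm E μ fun _ => 1)) =
      Sm E μ T.val * (Sm E μ g / Sm E μ fun _ => 1) := by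
    rw [mul_comm (Sm E μ T.val) _, ← Sm_const_mul]
    exact Sm_congr fun ω _ => by ring
  have h7 : (Sm E μ fun ω => T.val ω * (Sm E μ g / Sm E μ fun _ => 1)) = _ := h6
  rw [h5, add_div, h7, Finset.sum_div, mul_div_right_comm]
  congr 1
  exact Finset.sum_congr rfl fun e _ => by rw [mul_div_right_comm]

end S1

end Pool.Agent.DLS
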