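import Mathlib

/-! ROW S5: the lemma on sequences (Duminil-Copin, Raoufi, Tassion). -/

set_option autoImplicit false

namespace Pool.Agent.DLS

open Finset Filter Topology

theorem decay_aux {g g' : ℝ → ℝ} {a b K : ℝ} (hab : a ≤ b)
    (hd : ∀ x, a ≤ x → x ≤ b → HasDerivAt g (g' x) x)
    (hK : ∀ x, a ≤ x → x ≤ b → K * g x ≤ g' x) : g a ≤ g b * Real.exp (-(K * (b - a))) := by
  have hder : ∀ x, a ≤ x → x ≤ b → HasDerivAt (fun y => g y * Real.exp (-(K * y)))
      (g' x * Real.exp (-(K * x)) + g x * (Real.exp (-(K * x)) * (-(K * 1)))) x := by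
    intro x h1 h2
    exact (hd x h1 h2).mul (((hasDerivAt_id x).const_mul K).neg.exp)
  have hmono : MonotoneOn (fun y => g y * Real.exp (-(K * y))) (Set.Icc a b) := by
    refine monotoneOn_of_deriv_nonneg (convex_Icc a b) ?_ ?_ ?_
    · intro x hx
      exact (hder x hx.1 hx.2).continuousAt.continuousWithinAt
    · intro x hx
      rw [interior_Icc] at hx
      exact (hder x hx.1.le hx.2.le).differentiableAt.differentiableWithinAt
    · intro x hx
      rw [interior_Icc] at hx
      rw [(hder x hx.1.le hx.2.le).deriv]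
      have h1 := hK x hx.1.le hx.2.le
      have h2 := Real.exp_pos (-(K * x))
      nlinarith [mul_nonneg (sub_nonneg.2 h1) h2.le]
  have h1 := hmono (Set.left_mem_Icc.2 hab) (Set.right_mem_Icc.2 hab) hab
  simp only at h1
  have h2 : Real.exp (-(K * b)) = Real.exp (-(K * (b - a))) * Real.exp (-(K * a)) := by
    rw [← Real.exp_add]
    congr 1
    ring
  rw [h2, ← mul_assoc] at h1
  exact le_of_mul_le_mul_right h1 (Real.exp_pos _)

theorem sub_ge_aux {g g' : ℝ → ℝ} {a b K : ℝ} (hab : a ≤ b)
    (hd : ∀ x, a ≤ x → x ≤ b → HasDerivAt g (g' x) x)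
    (hK : ∀ x, a ≤ x → x ≤ b → K ≤ g' x) : K * (b - a) ≤ g b - g a := by
  refine (convex_Icc a b).mul_sub_le_image_sub_of_le_deriv ?_ ?_ ?_ a
    (Set.left_mem_Icc.2 hab) b (Set.right_mem_Icc.2 hab) hab
  · intro x hx
    exact (hd x hx.1 hx.2).continuousAt.continuousWithinAt
  · intro x hx
    rw [interior_Icc] at hx
    exact (hd x hx.1.le hx.2.le).differentiableAt.differentiableWithinAt
  · intro x hx
    rw [interior_Icc] at hx
    rw [(hd x hx.1.le hx.2.le).deriv]
    exact hK x hx.1.le hx.2.le

theorem exp_neg_le_aux {t : ℝ} (ht : 0 < t) : Real.exp (-t) ≤ 24 / t ^ 4 := by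
  have h1 := Real.pow_div_factorial_le_exp t ht.le 4
  have h2 : ((Nat.factorial 4 : ℕ) : ℝ) = 24 := by norm_num [Nat.factorial]
  rw [h2] at h1
  rw [Real.exp_neg, inv_eq_one_div, div_le_div_iff₀ (Real.exp_pos t) (by positivity)]
  rw [div_le_iff₀ (by norm_num)] at h1
  linarith

theorem seq_decay (f f' : ℕ → ℝ → ℝ) {a b c : ℝ} (hab : a < b) (hc : 0 < c)
    (hd : ∀ n x, a ≤ x → x ≤ b → HasDerivAt (f n) (f' n x) x)
    (h0 : ∀ n x, a ≤ x → x ≤ b → 0 ≤ f n x) (h1 : ∀ n x, a ≤ x → x ≤ b → f n x ≤ 1)
    (hf0 : ∀ x, a ≤ x → x ≤ b → f 0 x = 1)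
    (hanti : ∀ n x, a ≤ x → x ≤ b → f (n + 1) x ≤ f n x)
    (hmono : ∀ n x y, a ≤ x → x ≤ y → y ≤ b → f n x ≤ f n y)
    (hineq : ∀ n x, 1 ≤ n → a ≤ x → x ≤ b →
      c * n / (∑ k ∈ range n, f k x) * f n x ≤ f' n x)
    (hlim : Tendsto (fun n => f n b) atTop (𝓝 0)) :
    ∃ C δ : ℝ, 0 < δ ∧ ∀ n, f n a ≤ C * Real.exp (-(δ * n)) := by
  set m : ℝ := (a + b) / 2 with hm
  have ham : a < m := by rw [hm]; linarith
  have hmb : m < b := by rw [hm]; linarith
  -- the sums
  have hSmono : ∀ n x y, a ≤ x → x ≤ y → y ≤ b →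
      ∑ k ∈ range n, f k x ≤ ∑ k ∈ range n, f k y := fun n x y hx hxy hy =>
    sum_le_sum fun k _ => hmono k x y hx hxy hy
  have hS1 : ∀ n x, 1 ≤ n → a ≤ x → x ≤ b → 1 ≤ ∑ k ∈ range n, f k x := by
    intro n x hn hx hx'
    have h2 := single_le_sum (f := fun k => f k x) (s := range n)
      (fun k _ => h0 k x hx hx') (mem_range.2 hn)
    simp only [hf0 x hx hx'] at h2
    exact h2
  by_cases hcase : ∃ N0 : ℕ, ∀ n, N0 ≤ n → ∑ k ∈ range n, f k m ≤ Real.sqrt n
  · -- the sums are small at `m`
    obtain ⟨N0, hN0⟩ := hcase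
    set x1 : ℝ := (a + m) / 2 with hx1
    have hax : a < x1 := by rw [hx1]; linarith
    have hxm : x1 < m := by rw [hx1]; linarith
    set d : ℝ := c * (m - x1) with hdd
    have hd0 : 0 < d := mul_pos hc (by linarith)
    set N1 : ℕ := max N0 1 with hN1
    have hdec : ∀ k, N1 ≤ k → f k x1 ≤ 24 / d ^ 4 * (1 / (k : ℝ) ^ 2) := by
      intro k hk
      have hk0 : N0 ≤ k := (le_max_left _ _).trans hk
      have hk1 : 1 ≤ k := (le_max_right _ _).trans hk
      have hkpos : (0 : ℝ) < k := by exact_mod_cast hk1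
      have hs := Real.sqrt_pos.2 hkpos
      have h2 : f k x1 ≤ f k m * Real.exp (-(c * Real.sqrt k * (m - x1))) := by
        refine decay_aux (g' := f' k) hxm.le (fun x hx hx' => hd k x (hax.le.trans hx)
          (hx'.trans hmb.le)) fun x hx hx' => ?_
        have e1 : a ≤ x := hax.le.trans hx
        have e2 : x ≤ b := hx'.trans hmb.le
        refine le_trans (mul_le_mul_of_nonneg_right ?_ (h0 k x e1 e2)) (hineq k x hk1 e1 e2)
        have e3 := hS1 k x hk1 e1 e2
        have e4 := (hSmono k x m e1 hx' hmb.le).trans (hN0 k hk0)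
        rw [le_div_iff₀ (by linarith), mul_assoc]
        refine mul_le_mul_of_nonneg_left ?_ hc.le
        calc Real.sqrt k * ∑ k ∈ range k, f k x ≤ Real.sqrt k * Real.sqrt k :=
              mul_le_mul_of_nonneg_left e4 hs.le
          _ = k := Real.mul_self_sqrt hkpos.le
      have h3 : f k m * Real.exp (-(c * Real.sqrt k * (m - x1))) ≤
          Real.exp (-(d * Real.sqrt k)) := by
        have e1 : c * Real.sqrt k * (m - x1) = d * Real.sqrt k := by rw [hdd]; ring
        rw [e1]
        exact mul_le_of_le_one_left (Real.exp_pos _).le (h1 k m ham.le hmb.le)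
      refine (h2.trans h3).trans ((exp_neg_le_aux (mul_pos hd0 hs)).trans (le_of_eq ?_))
      have e1 : Real.sqrt k ^ 4 = (k : ℝ) ^ 2 := by
        rw [show (4 : ℕ) = 2 * 2 from rfl, pow_mul, Real.sq_sqrt hkpos.le]
      rw [mul_pow, e1]
      field_simp
    -- the summable bound
    set u : ℕ → ℝ := fun k => (if k < N1 then 1 else 0) + 24 / d ^ 4 * (1 / (k : ℝ) ^ 2)
      with hu
    have hu0 : ∀ k, 0 ≤ u k := by
      intro k
      have : 0 ≤ 24 / d ^ 4 * (1 / (k : ℝ) ^ 2) := by positivity
      simp only [hu]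
      split_ifs <;> linarith
    have husum : Summable u := by
      refine Summable.add ?_ ?_
      · refine summable_of_ne_finset_zero (s := range N1) fun k hk => ?_
        rw [if_neg (fun h => hk (mem_range.2 h))]
      · exact ((Real.summable_one_div_nat_pow (p := 2)).2 one_lt_two).mul_left _
    have hfu : ∀ k, f k x1 ≤ u k := by
      intro k
      have e0 : 0 ≤ 24 / d ^ 4 * (1 / (k : ℝ) ^ 2) := by positivity
      simp only [hu]
      by_cases hk : k < N1
      · rw [if_pos hk]
        linarith [h1 k x1 hax.le (hxm.le.trans hmb.le)]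
      · rw [if_neg hk, zero_add]
        exact hdec k (not_lt.1 hk)
    set B : ℝ := ∑' k, u k with hB
    have hSB : ∀ n, ∑ k ∈ range n, f k x1 ≤ B := fun n =>
      (sum_le_sum fun k _ => hfu k).trans (husum.sum_le_tsum _ fun k _ => hu0 k)
    have hB1 : 1 ≤ B := (hS1 1 x1 le_rfl hax.le (hxm.le.trans hmb.le)).trans (hSB 1)
    refine ⟨1, c * (x1 - a) / B, div_pos (mul_pos hc (by linarith)) (by linarith), fun n => ?_⟩
    rcases Nat.eq_zero_or_pos n with rfl | hn
    · rw [hf0 a le_rfl hab.le]
      simp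
    · have h2 : f n a ≤ f n x1 * Real.exp (-(c * n / B * (x1 - a))) := by
        refine decay_aux (g' := f' n) hax.le (fun x hx hx' => hd n x hx
          (hx'.trans (hxm.le.trans hmb.le))) fun x hx hx' => ?_
        have e2 : x ≤ b := hx'.trans (hxm.le.trans hmb.le)
        refine le_trans (mul_le_mul_of_nonneg_right ?_ (h0 n x hx e2)) (hineq n x hn hx e2)
        have e3 := hS1 n x hn hx e2
        have e4 := (hSmono n x x1 hx hx' (hxm.le.trans hmb.le)).trans (hSB n)
        exact div_le_div_of_nonneg_left (by positivity) (by linarith) e4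
      refine h2.trans ?_
      have e1 : c * n / B * (x1 - a) = c * (x1 - a) / B * n := by ring
      rw [e1]
      exact mul_le_mul_of_nonneg_right (h1 n x1 hax.le (hxm.le.trans hmb.le))
        (Real.exp_pos _).le
  · -- otherwise the limit at `b` is positive
    exfalso
    push Not at hcase
    set ε : ℝ := c * (b - m) / 4 with hε
    have hε0 : 0 < ε := by
      rw [hε]
      exact div_pos (mul_pos hc (by linarith)) (by norm_num)
    obtain ⟨N, hN⟩ := (eventually_atTop.1 (hlim.eventually_le_const hε0))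
    obtain ⟨n0, hn0⟩ := exists_nat_gt (Real.exp ((N + ε) / ε))
    obtain ⟨n, hn, hnS⟩ := hcase (max n0 1)
    have hn1 : 1 ≤ n := (le_max_right _ _).trans hn
    have hnpos : (0 : ℝ) < n := by exact_mod_cast hn1
    have hlog : (N + ε) / ε < Real.log n := by
      rw [Real.lt_log_iff_exp_lt hnpos]
      refine hn0.trans_le ?_
      exact_mod_cast (le_max_left _ _).trans hn
    -- the function `T`
    have hT : ∀ x, a ≤ x → x ≤ b → HasDerivAt
        (fun y => ∑ i ∈ range n, f (i + 1) y / ((i : ℝ) + 1))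
        (∑ i ∈ range n, f' (i + 1) x / ((i : ℝ) + 1)) x := by
      intro x hx hx'
      exact HasDerivAt.fun_sum fun i _ => (hd (i + 1) x hx hx').div_const _
    have hT' : ∀ x, m ≤ x → x ≤ b → c / 2 * Real.log n ≤
        ∑ i ∈ range n, f' (i + 1) x / ((i : ℝ) + 1) := by
      intro x hx hx'
      have hax : a ≤ x := ham.le.trans hx
      have e1 : ∀ i ∈ range n, c * (Real.log (∑ k ∈ range (i + 2), f k x) -
          Real.log (∑ k ∈ range (i + 1), f k x)) ≤ f' (i + 1) x / ((i : ℝ) + 1) := by
        intro i _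
        have hS := hS1 (i + 1) x (by omega) hax hx'
        have hS0 : 0 < ∑ k ∈ range (i + 1), f k x := by linarith
        have hf := h0 (i + 1) x hax hx'
        have e2 := hineq (i + 1) x (by omega) hax hx'
        push_cast at e2
        have hi : (0 : ℝ) < (i : ℝ) + 1 := by positivity
        have e3 : c * (f (i + 1) x / ∑ k ∈ range (i + 1), f k x) ≤
            f' (i + 1) x / ((i : ℝ) + 1) := by
          rw [le_div_iff₀ hi]
          refine le_trans (le_of_eq ?_) e2
          ring
        refine le_trans (mul_le_mul_of_nonneg_left ?_ hc.le) e3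
        rw [sum_range_succ (fun k => f k x) (i + 1),
          ← Real.log_div (by linarith) hS0.ne', add_div, div_self hS0.ne']
        have e4 : 0 ≤ f (i + 1) x / ∑ k ∈ range (i + 1), f k x := div_nonneg hf hS0.le
        have e5 := Real.log_le_sub_one_of_pos
          (show 0 < 1 + f (i + 1) x / ∑ k ∈ range (i + 1), f k x by linarith)
        linarith
      refine le_trans ?_ (sum_le_sum e1)
      rw [← mul_sum]
      have e2 := sum_range_sub (fun i => Real.log (∑ k ∈ range (i + 1), f k x)) n
      rw [show (∑ i ∈ range n, (Real.log (∑ k ∈ range (i + 2), f k x) -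
        Real.log (∑ k ∈ range (i + 1), f k x))) =
        ∑ i ∈ range n, (Real.log (∑ k ∈ range (i + 1 + 1), f k x) -
        Real.log (∑ k ∈ range (i + 1), f k x)) from rfl, e2]
      have e3 : Real.log (∑ k ∈ range (0 + 1), f k x) = 0 := by
        simp [hf0 x hax hx']
      rw [e3, sub_zero, div_mul_eq_mul_div, mul_div_assoc]
      refine mul_le_mul_of_nonneg_left ?_ hc.le
      have e4 : Real.sqrt n ≤ ∑ k ∈ range (n + 1), f k x := by
        rw [sum_range_succ]
        have := hSmono n m x ham.le hx hx'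
        linarith [h0 n x hax hx']
      have e5 := Real.log_le_log (Real.sqrt_pos.2 hnpos) e4
      rw [Real.log_sqrt hnpos.le] at e5
      exact e5
    have hlow := sub_ge_aux hmb.le (fun x hx hx' => hT x (ham.le.trans hx) hx')
      (fun x hx hx' => hT' x hx hx')
    have hTm : 0 ≤ ∑ i ∈ range n, f (i + 1) m / ((i : ℝ) + 1) :=
      sum_nonneg fun i _ => div_nonneg (h0 _ _ ham.le hmb.le) (by positivity)
    have hTb : ∑ i ∈ range n, f (i + 1) b / ((i : ℝ) + 1) ≤ N + ε * (1 + Real.log n) := by
      have e1 : ∀ i ∈ range n, f (i + 1) b / ((i : ℝ) + 1) ≤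
          (if i < N then 1 else 0) + ε * (1 / ((i : ℝ) + 1)) := by
        intro i _
        have hi : (0 : ℝ) < (i : ℝ) + 1 := by positivity
        have e2 : 0 ≤ ε * (1 / ((i : ℝ) + 1)) := by positivity
        by_cases hiN : i < N
        · rw [if_pos hiN]
          have e3 : f (i + 1) b / ((i : ℝ) + 1) ≤ 1 := by
            rw [div_le_one hi]
            have := h1 (i + 1) b hab.le le_rfl
            have : (0 : ℝ) ≤ (i : ℝ) := by positivity
            linarith
          linarith
        · rw [if_neg hiN, zero_add, mul_one_div]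
          refine div_le_div_of_nonneg_right (hN (i + 1) ?_) hi.le
          omega
      refine (sum_le_sum e1).trans ?_
      rw [sum_add_distrib, ← mul_sum]
      have e2 : (∑ i ∈ range n, if i < N then (1 : ℝ) else 0) ≤ N := by
        rw [sum_ite, sum_const_zero, add_zero, sum_const, nsmul_eq_mul, mul_one]
        have : ((range n).filter fun i => i < N).card ≤ N := by
          refine (card_le_card (t := range N) fun i hi => ?_).trans (card_range N).le
          exact mem_range.2 (mem_filter.1 hi).2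
        exact_mod_cast this
      have e3 : ∑ i ∈ range n, 1 / ((i : ℝ) + 1) ≤ 1 + Real.log n := by
        have := harmonic_le_one_add_log n
        refine le_trans (le_of_eq ?_) this
        rw [harmonic]
        push_cast
        refine sum_congr rfl fun i _ => ?_
        rw [one_div]
      have e4 := mul_le_mul_of_nonneg_left e3 hε0.le
      linarith
    have h5 : (N + ε) < Real.log n * ε := by
      rwa [div_lt_iff₀ hε0] at hlog
    have h6 : c / 2 * Real.log n * (b - m) = 2 * (ε * Real.log n) := by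
      rw [hε]
      ring
    rw [h6] at hlow
    nlinarith

end Pool.Agent.DLS
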