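import Pool.Agent.DLS.Hom
import Pool.Agent.DLS.Oss
import Pool.Agent.DLS.Expl
import Pool.Agent.DLS.Seq

/-!
# The differential inequality for the connection probabilities
-/

set_option autoImplicit false
set_option linter.unusedSectionVars false

namespace Pool.Agent.DLS

open Finset Filter Topology

section Rch

variable {V ι : Type} {G : DL.Gr V ι}

theorem iq_step_symm {ω : Finset ι} {x y : V} (h : G.Step ω x y) : G.Step ω y x := by
  obtain ⟨e, he, h1 | h1⟩ := h
  · exact ⟨e, he, Or.inr h1⟩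
  · exact ⟨e, he, Or.inl h1⟩

theorem iq_rch_symm {ω : Finset ι} {x y : V} (h : G.Rch ω x y) : G.Rch ω y x := by
  induction h with
  | refl => exact Relation.ReflTransGen.refl
  | tail _ h2 ih => exact Relation.ReflTransGen.head (iq_step_symm h2) ih

theorem iq_rch_trans {ω : Finset ι} {x y z : V} (h : G.Rch ω x y) (h' : G.Rch ω y z) :
    G.Rch ω x z := Relation.ReflTransGen.trans h h'

theorem iq_rch_mono {a b : Finset ι} (hab : a ⊆ b) {x y : V} (h : G.Rch a x y) : G.Rch b x y := by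
  induction h with
  | refl => exact Relation.ReflTransGen.refl
  | tail _ h2 ih =>
    obtain ⟨e, he, h1⟩ := h2
    exact Relation.ReflTransGen.tail ih ⟨e, hab he, h1⟩

variable [DecidableEq V] [DecidableEq ι]

/-- Connections of a point whose cluster meets `P` are connections in the explored part. -/
theorem iq_rch_clus {P : V → Prop} {ω : Finset ι} {x y z : V} (hz : P z) (hxz : G.Rch ω x z)
    (h : G.Rch ω x y) : G.Rch (clus G P ω) x y := by
  classical
  have key : G.Rch ω x y ∧ G.Rch (clus G P ω) x y := by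
    induction h with
    | refl => exact ⟨Relation.ReflTransGen.refl, Relation.ReflTransGen.refl⟩
    | @tail b c h1 h2 ih =>
      refine ⟨Relation.ReflTransGen.tail h1 h2, Relation.ReflTransGen.tail ih.2 ?_⟩
      obtain ⟨e, he, h3⟩ := h2
      refine ⟨e, ?_, h3⟩
      unfold clus
      rw [Finset.mem_filter]
      refine ⟨he, z, hz, ?_⟩
      have hbz : G.Rch ω b z := iq_rch_trans (iq_rch_symm h1) hxz
      rcases h3 with h3 | h3
      · rw [h3.1]
        exact hbz
      · rw [h3.1]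
        exact Relation.ReflTransGen.head ⟨e, he, Or.inl h3⟩ hbz
  exact key.2

end Rch

section Sums

theorem iq_sum_half (a : ℕ → ℝ) (n : ℕ) :
    ∑ i ∈ range (2 * n), a (i / 2) = 2 * ∑ j ∈ range n, a j := by
  induction n with
  | zero => simp
  | succ n ih =>
    rw [show 2 * (n + 1) = 2 * n + 1 + 1 by ring, Finset.sum_range_succ, Finset.sum_range_succ, ih,
      Finset.sum_range_succ, show (2 * n) / 2 = n by omega, show (2 * n + 1) / 2 = n by omega]
    ring

theorem iq_sum_dist {a : ℕ → ℝ} (ha : ∀ i, 0 ≤ a i) {n c : ℕ} (hn : 1 ≤ n) (hc : c ≤ n) :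
    ∑ k ∈ Finset.Icc 1 n, a ((k - c + (c - k)) / 2) ≤ 4 * ∑ j ∈ range n, a j := by
  have h0 : ∑ i ∈ range (n + 1), a (i / 2) ≤ 2 * ∑ j ∈ range n, a j := by
    rw [← iq_sum_half]
    refine Finset.sum_le_sum_of_subset_of_nonneg ?_ fun i _ _ => ha _
    intro i hi
    rw [Finset.mem_range] at hi ⊢
    omega
  have h1 : ∑ k ∈ (Finset.Icc 1 n).filter (fun k => k ≤ c), a ((k - c + (c - k)) / 2) ≤
      ∑ i ∈ range (n + 1), a (i / 2) := by
    have e : ∑ k ∈ (Finset.Icc 1 n).filter (fun k => k ≤ c), a ((k - c + (c - k)) / 2) =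
        ∑ i ∈ ((Finset.Icc 1 n).filter (fun k => k ≤ c)).image (fun k => c - k), a (i / 2) := by
      rw [Finset.sum_image]
      · refine Finset.sum_congr rfl fun k hk => ?_
        rw [Finset.mem_filter] at hk
        rw [show k - c + (c - k) = c - k by omega]
      · intro x hx y hy hxy
        have hx' := (Finset.mem_filter.1 (Finset.mem_coe.1 hx)).2
        have hy' := (Finset.mem_filter.1 (Finset.mem_coe.1 hy)).2
        have : c - x = c - y := hxy
        omega
    rw [e]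
    refine Finset.sum_le_sum_of_subset_of_nonneg ?_ fun i _ _ => ha _
    intro i hi
    rw [Finset.mem_image] at hi
    obtain ⟨k, _, rfl⟩ := hi
    rw [Finset.mem_range]
    omega
  have h2 : ∑ k ∈ (Finset.Icc 1 n).filter (fun k => ¬ k ≤ c), a ((k - c + (c - k)) / 2) ≤
      ∑ i ∈ range (n + 1), a (i / 2) := by
    have e : ∑ k ∈ (Finset.Icc 1 n).filter (fun k => ¬ k ≤ c), a ((k - c + (c - k)) / 2) =
        ∑ i ∈ ((Finset.Icc 1 n).filter (fun k => ¬ k ≤ c)).image (fun k => k - c), a (i / 2) := by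
      rw [Finset.sum_image]
      · refine Finset.sum_congr rfl fun k hk => ?_
        rw [Finset.mem_filter] at hk
        rw [show k - c + (c - k) = k - c by omega]
      · intro x hx y hy hxy
        have hx' := (Finset.mem_filter.1 (Finset.mem_coe.1 hx)).2
        have hy' := (Finset.mem_filter.1 (Finset.mem_coe.1 hy)).2
        have : x - c = y - c := hxy
        omega
    rw [e]
    refine Finset.sum_le_sum_of_subset_of_nonneg ?_ fun i _ _ => ha _
    intro i hi
    rw [Finset.mem_image] at hi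
    obtain ⟨k, hk, rfl⟩ := hi
    rw [Finset.mem_filter, Finset.mem_Icc] at hk
    rw [Finset.mem_range]
    omega
  rw [← Finset.sum_filter_add_sum_filter_not (Finset.Icc 1 n) (fun k => k ≤ c)]
  linarith

theorem iq_ok_mono {α : Type} [DecidableEq α] {E E' : Finset α} (hE : E ⊆ E') (t : DT α) :
    ∀ S, t.ok E S → t.ok E' S := by
  induction t with
  | leaf c => exact fun S h => h
  | node e t0 t1 ih0 ih1 =>
    rintro S ⟨h1, h2, h3, h4⟩
    exact ⟨hE h1, h2, ih0 _ h3, ih1 _ h4⟩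

end Sums

section S4
variable {V κ : Type} [AddCommGroup V] [DecidableEq V] [Fintype κ] [DecidableEq κ] (h : Hg V κ)
  (q : ℕ) [NeZero q]

theorem iq_N_sub_le (x y : V) : h.N x ≤ h.N (x - y) + h.N y := by
  have := h.Nadd (x - y) y
  rwa [sub_add_cancel] at this

theorem iq_N_sub_comm (x y : V) : h.N (x - y) = h.N (y - x) := by
  rw [← h.Nneg, neg_sub]

theorem iq_N_dist (x y : V) : h.N x - h.N y + (h.N y - h.N x) ≤ h.N (x - y) := by
  have h1 := iq_N_sub_le h x y
  have h2 := iq_N_sub_le h y x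
  rw [iq_N_sub_comm h y x] at h2
  omega

theorem iq_N_step {ω : Finset (V × κ)} {x y : V} (hs : h.G.Step ω x y) : h.N y ≤ h.N x + 1 := by
  obtain ⟨e, _, h1 | h1⟩ := hs
  · obtain ⟨h1, h2⟩ := h1
    have h3 : y = x + h.u e.2 := by rw [← h1, ← h2]; rfl
    rw [h3]
    exact (h.Nadd _ _).trans (Nat.add_le_add_left (h.Nu _) _)
  · obtain ⟨h1, h2⟩ := h1
    have h3 : x = y + h.u e.2 := by rw [← h1, ← h2]; rfl
    have h4 : y = x + -h.u e.2 := by rw [h3]; abel
    rw [h4]
    refine (h.Nadd _ _).trans (Nat.add_le_add_left ?_ _)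
    rw [h.Nneg]
    exact h.Nu _

/-- A path from the origin meets every sphere up to its end. -/
theorem iq_ivt {ω : Finset (V × κ)} {y : V} (hr : h.G.Rch ω 0 y) {k : ℕ} (hk : k ≤ h.N y) :
    ∃ z, h.G.Rch ω 0 z ∧ h.N z = k := by
  induction hr with
  | refl =>
    rw [h.N0] at hk
    exact ⟨0, Relation.ReflTransGen.refl, by rw [h.N0]; omega⟩
  | @tail b c h1 h2 ih =>
    by_cases hb : k ≤ h.N b
    · exact ih hb
    · refine ⟨c, Relation.ReflTransGen.tail h1 h2, ?_⟩
      have := iq_N_step h h2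
      omega

theorem iq_far_clus {ω : Finset (V × κ)} {n k : ℕ} (hk : k ≤ n) :
    h.far ω 0 n ↔ h.far (clus h.G (fun y => h.N y = k) ω) 0 n := by
  classical
  constructor
  · rintro ⟨y, hy, hn⟩
    rw [sub_zero] at hn
    obtain ⟨z, hz, hzk⟩ := iq_ivt h hy (hk.trans hn)
    exact ⟨y, iq_rch_clus hzk hz hy, by rw [sub_zero]; exact hn⟩
  · rintro ⟨y, hy, hn⟩
    exact ⟨y, iq_rch_mono (Finset.filter_subset _ _) hy, hn⟩

theorem iq_ends_le {n : ℕ} {e : V × κ} (he : e ∈ h.te (h.ball n)) :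
    h.N (h.G.s e) ≤ n ∧ h.N (h.G.t e) ≤ n := by
  have hu := h.Nu e.2
  have h1 : h.G.t e = h.G.s e + h.u e.2 := rfl
  have h2 : h.G.s e = h.G.t e + -h.u e.2 := by rw [h1]; abel
  have h3 : h.N (h.G.t e) ≤ h.N (h.G.s e) + 1 := by
    rw [h1]
    exact (h.Nadd _ _).trans (Nat.add_le_add_left hu _)
  have h4 : h.N (h.G.s e) ≤ h.N (h.G.t e) + 1 := by
    have h5 := h.Nadd (h.G.t e) (-h.u e.2)
    rw [← h2, h.Nneg] at h5
    omega
  rcases (mem_te h _ e).1 he with h5 | h5
  · rw [h.mem_ball] at h5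
    omega
  · rw [h.mem_ball] at h5
    omega

theorem iq_ind_mono {α : Type} {A B : α → Prop} (a : α) (hAB : A a → B a) : ind A a ≤ ind B a := by
  unfold ind
  by_cases hA : A a
  · rw [if_pos hA, if_pos (hAB hA)]
  · rw [if_neg hA]
    split_ifs
    · exact zero_le_one
    · exact le_refl _

theorem iq_ind_nonneg {α : Type} (A : α → Prop) (a : α) : 0 ≤ ind A a := by
  unfold ind
  split_ifs
  · exact zero_le_one
  · exact le_refl _

theorem iq_Ex_le {ι : Type} [DecidableEq ι] {E : Finset ι} {μ f g : Finset ι → ℝ}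
    (hμ : ∀ a, 0 < μ a) (hfg : ∀ a, a ⊆ E → f a ≤ g a) : Ex E μ f ≤ Ex E μ g := by
  unfold Ex
  exact div_le_div_of_nonneg_right (Sm_mono (fun a => (hμ a).le) hfg) (Sm_one_pos hμ).le

theorem iq_v_pos {β : ℝ} (hβ : 0 < β) : 0 < Real.exp β - 1 := by
  have := Real.add_one_lt_exp hβ.ne'
  linarith

/-- The sum over the radii of the probabilities of being connected to the spheres. -/
theorem iq_sum_far {β : ℝ} (hβ : 0 < β) {n : ℕ} (hn : 1 ≤ n) {z : V} (hz : h.N z ≤ n) :
    ∑ k ∈ Finset.Icc 1 n, Ex (h.te (h.ball (2 * n))) (w h.G q (h.ball (2 * n)) (Real.exp β - 1))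
      (ind fun ω => h.far ω z (k - h.N z + (h.N z - k))) ≤
      4 * ∑ j ∈ range n, h.th q j β := by
  refine le_trans (Finset.sum_le_sum fun k hk => ?_)
    (iq_sum_dist (a := fun j => h.th q j β) (fun j => th_nonneg h q hβ j) hn hz)
  rw [Finset.mem_Icc] at hk
  set m := (k - h.N z + (h.N z - k)) / 2 with hm
  have hmk : m ≤ k - h.N z + (h.N z - k) := by omega
  refine le_trans (iq_Ex_le (fun a => w_pos h.G q (iq_v_pos hβ) _ a) fun ω _ =>
    iq_ind_mono (A := fun ω => h.far ω z (k - h.N z + (h.N z - k)))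
      (B := fun ω => h.far ω z m) ω fun hf => far_mono h (Finset.Subset.refl ω) hmk hf) ?_
  refine far_le_th h q hβ _ _ (Finset.Subset.refl _) z m fun y hy => ?_
  rw [h.mem_ball]
  have := iq_N_sub_le h y z
  omega

theorem th_deriv {β : ℝ} (hβ : 0 < β) (n : ℕ) : HasDerivAt (fun β => h.th q n β)
    ((∑ e ∈ h.te (h.ball (2 * n)), cv (h.te (h.ball (2 * n)))
      (w h.G q (h.ball (2 * n)) (Real.exp β - 1)) (ind fun ω => h.far ω 0 n) e) /
        (Real.exp β - 1) * Real.exp β) β := by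
  have h1 := hasDeriv h.G q (h.te (h.ball (2 * n))) (h.ball (2 * n)) (iq_v_pos hβ)
    (ind fun ω => h.far ω 0 n)
  have h2 : HasDerivAt (fun β => Real.exp β - 1) (Real.exp β) β :=
    (Real.hasDerivAt_exp β).sub_const 1
  exact HasDerivAt.comp β h1 h2

theorem iq_ind_far_mono (x : V) (n : ℕ) : ∀ a b : Finset (V × κ), a ⊆ b →
    (ind fun ω => h.far ω x n) a ≤ (ind fun ω => h.far ω x n) b := by
  intro a b hab
  unfold ind
  by_cases hA : h.far a x n
  · rw [if_pos hA, if_pos (far_mono h hab le_rfl hA)]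
  · rw [if_neg hA]
    split_ifs
    · exact zero_le_one
    · exact le_refl _

theorem th_ineq' {β : ℝ} (hβ : 0 < β) {n : ℕ} (hn : 1 ≤ n) :
    n * (h.th q n β * (1 - h.th q n β)) ≤ 8 * (∑ k ∈ range n, h.th q k β) *
      ∑ e ∈ h.te (h.ball (2 * n)), cv (h.te (h.ball (2 * n)))
        (w h.G q (h.ball (2 * n)) (Real.exp β - 1)) (ind fun ω => h.far ω 0 n) e := by
  set E := h.te (h.ball (2 * n)) with hE
  set μ := w h.G q (h.ball (2 * n)) (Real.exp β - 1) with hμd
  set g : Finset (V × κ) → ℝ := ind fun ω => h.far ω 0 n with hgd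
  have hμ : ∀ a, 0 < μ a := fun a => w_pos h.G q (iq_v_pos hβ) _ a
  have hl : ∀ a b, μ a * μ b ≤ μ (a ∩ b) * μ (a ∪ b) := fun a b =>
    w_lat h.G q (Finset.Subset.refl _) (iq_v_pos hβ) le_rfl a b
  have hg : ∀ a, 0 ≤ g a := fun a => iq_ind_nonneg _ a
  have hm : ∀ a b, a ⊆ b → g a ≤ g b := iq_ind_far_mono h 0 n
  have hEn : h.te (h.ball n) ⊆ E := by
    intro e he
    rw [hE, mem_te]
    rw [mem_te] at he
    rw [h.mem_ball, h.mem_ball] at he ⊢
    omega
  have hgg : ∀ ω, g ω * g ω = g ω := by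
    intro ω
    rw [hgd]
    unfold ind
    split_ifs
    · rw [mul_one]
    · rw [mul_zero]
  -- the exploration for one radius
  have one : ∀ k ∈ Finset.Icc 1 n, h.th q n β * (1 - h.th q n β) ≤ ∑ e ∈ E,
      (Ex E μ (ind fun ω => e ∈ h.te (h.ball n) ∧ h.far ω (h.G.s e)
          (k - h.N (h.G.s e) + (h.N (h.G.s e) - k))) +
        Ex E μ (ind fun ω => e ∈ h.te (h.ball n) ∧ h.far ω (h.G.t e)
          (k - h.N (h.G.t e) + (h.N (h.G.t e) - k)))) * cv E μ g e := by
    intro k hk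
    rw [Finset.mem_Icc] at hk
    obtain ⟨T, hT1, hT2, hT3⟩ := explore h.G (h.te (h.ball n)) (fun y => h.N y = k)
      (fun ω => h.far ω 0 n) (fun ω _ => iq_far_clus h hk.2)
    have hval : ∀ ω, T.val ω = g ω := by
      intro ω
      rw [hT2 ω, hgd]
      unfold ind
      have h1 := far_te h ω 0 n (h.ball n) (fun y hy => by
        rw [h.mem_ball]; rwa [sub_zero] at hy)
      by_cases hf : h.far ω 0 n
      · rw [if_pos (h1.1 hf), if_pos hf]
      · rw [if_neg (fun h2 => hf (h1.2 h2)), if_neg hf]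
    have h1 := osss E hμ hl hg hm T (iq_ok_mono hEn T ∅ hT1)
    have h2 : Ex E μ (fun ω => T.val ω * g ω) = h.th q n β := by
      unfold Hg.th Ex
      rw [Sm_congr fun ω _ => by rw [hval ω, hgg ω]]
    have h3 : Ex E μ T.val = h.th q n β := by
      unfold Hg.th Ex
      rw [Sm_congr fun ω _ => hval ω]
    have h4 : Ex E μ g = h.th q n β := rfl
    rw [h2, h3, h4] at h1
    have h5 : ∀ e ∈ E, Ex E μ (ind fun ω => e ∈ T.qs ω) * cv E μ g e ≤
        (Ex E μ (ind fun ω => e ∈ h.te (h.ball n) ∧ h.far ω (h.G.s e)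
          (k - h.N (h.G.s e) + (h.N (h.G.s e) - k))) +
        Ex E μ (ind fun ω => e ∈ h.te (h.ball n) ∧ h.far ω (h.G.t e)
          (k - h.N (h.G.t e) + (h.N (h.G.t e) - k)))) * cv E μ g e := by
      intro e _
      refine mul_le_mul_of_nonneg_right ?_ (cv_nonneg h.G q E (iq_v_pos hβ) hg hm e)
      have e1 : Ex E μ (ind fun ω => e ∈ h.te (h.ball n) ∧ h.far ω (h.G.s e)
          (k - h.N (h.G.s e) + (h.N (h.G.s e) - k))) +
        Ex E μ (ind fun ω => e ∈ h.te (h.ball n) ∧ h.far ω (h.G.t e)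
          (k - h.N (h.G.t e) + (h.N (h.G.t e) - k))) = Ex E μ (fun ω =>
          ind (fun ω => e ∈ h.te (h.ball n) ∧ h.far ω (h.G.s e)
            (k - h.N (h.G.s e) + (h.N (h.G.s e) - k))) ω +
          ind (fun ω => e ∈ h.te (h.ball n) ∧ h.far ω (h.G.t e)
            (k - h.N (h.G.t e) + (h.N (h.G.t e) - k))) ω) := by
        unfold Ex
        rw [Sm_add, add_div]
      rw [e1]
      refine iq_Ex_le hμ fun ω _ => ?_
      by_cases hq : e ∈ T.qs ω
      · obtain ⟨hen, h6⟩ := hT3 ω e hq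
        have h7 : (ind (fun ω => e ∈ T.qs ω) ω : ℝ) = 1 := if_pos hq
        rw [h7]
        rcases h6 with ⟨y, hy, hr⟩ | ⟨y, hy, hr⟩
        · have h8 : h.far ω (h.G.s e) (k - h.N (h.G.s e) + (h.N (h.G.s e) - k)) := by
            refine ⟨y, iq_rch_mono Finset.inter_subset_left hr, ?_⟩
            rw [← hy]
            exact iq_N_dist h y _
          have h9 : (ind (fun ω => e ∈ h.te (h.ball n) ∧ h.far ω (h.G.s e)
            (k - h.N (h.G.s e) + (h.N (h.G.s e) - k))) ω : ℝ) = 1 := if_pos ⟨hen, h8⟩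
          rw [h9]
          have := iq_ind_nonneg (fun ω => e ∈ h.te (h.ball n) ∧ h.far ω (h.G.t e)
            (k - h.N (h.G.t e) + (h.N (h.G.t e) - k))) ω
          linarith
        · have h8 : h.far ω (h.G.t e) (k - h.N (h.G.t e) + (h.N (h.G.t e) - k)) := by
            refine ⟨y, iq_rch_mono Finset.inter_subset_left hr, ?_⟩
            rw [← hy]
            exact iq_N_dist h y _
          have h9 : (ind (fun ω => e ∈ h.te (h.ball n) ∧ h.far ω (h.G.t e)
            (k - h.N (h.G.t e) + (h.N (h.G.t e) - k))) ω : ℝ) = 1 := if_pos ⟨hen, h8⟩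
          rw [h9]
          have := iq_ind_nonneg (fun ω => e ∈ h.te (h.ball n) ∧ h.far ω (h.G.s e)
            (k - h.N (h.G.s e) + (h.N (h.G.s e) - k))) ω
          linarith
      · have h7 : (ind (fun ω => e ∈ T.qs ω) ω : ℝ) = 0 := if_neg hq
        rw [h7]
        exact add_nonneg (iq_ind_nonneg _ _) (iq_ind_nonneg _ _)
    have h6 := Finset.sum_le_sum h5
    have h7 : h.th q n β * (1 - h.th q n β) = h.th q n β - h.th q n β * h.th q n β := by ring
    rw [h7]
    linarith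
  have h1 := Finset.sum_le_sum one
  rw [Finset.sum_const, Nat.card_Icc, Finset.sum_comm, nsmul_eq_mul] at h1
  have h2 : ((n + 1 - 1 : ℕ) : ℝ) = n := by norm_num
  rw [h2] at h1
  refine h1.trans ?_
  rw [Finset.mul_sum]
  refine Finset.sum_le_sum fun e _ => ?_
  rw [← Finset.sum_mul]
  refine mul_le_mul_of_nonneg_right ?_ (cv_nonneg h.G q E (iq_v_pos hβ) hg hm e)
  rw [Finset.sum_add_distrib]
  have hS : 0 ≤ ∑ j ∈ range n, h.th q j β :=
    Finset.sum_nonneg fun j _ => th_nonneg h q hβ j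
  have bd : ∀ z : V, (e ∈ h.te (h.ball n) → h.N z ≤ n) → ∑ k ∈ Finset.Icc 1 n,
      Ex E μ (ind fun ω => e ∈ h.te (h.ball n) ∧ h.far ω z (k - h.N z + (h.N z - k))) ≤
      4 * ∑ j ∈ range n, h.th q j β := by
    intro z hz
    by_cases he : e ∈ h.te (h.ball n)
    · refine le_trans (Finset.sum_le_sum fun k _ => ?_) (iq_sum_far h q hβ hn (hz he))
      exact iq_Ex_le hμ fun ω _ => iq_ind_mono ω fun hf => hf.2
    · have h3 : ∀ k ∈ Finset.Icc 1 n, Ex E μ (ind fun ω => e ∈ h.te (h.ball n) ∧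
          h.far ω z (k - h.N z + (h.N z - k))) = 0 := by
        intro k _
        unfold Ex
        have h4 : (Sm E μ (ind fun ω => e ∈ h.te (h.ball n) ∧
          h.far ω z (k - h.N z + (h.N z - k)))) = 0 := by
          unfold Sm
          refine Finset.sum_eq_zero fun ω _ => ?_
          have : (ind (fun ω => e ∈ h.te (h.ball n) ∧
            h.far ω z (k - h.N z + (h.N z - k))) ω : ℝ) = 0 := if_neg fun h5 => he h5.1
          rw [this, mul_zero]
        rw [h4, zero_div]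
      rw [Finset.sum_eq_zero h3]
      linarith
  have b1 := bd (h.G.s e) (fun he => (iq_ends_le h he).1)
  have b2 := bd (h.G.t e) (fun he => (iq_ends_le h he).2)
  linarith

theorem iq_sum_th_pos {β : ℝ} (hβ : 0 < β) {n : ℕ} (hn : 1 ≤ n) :
    0 < ∑ k ∈ range n, h.th q k β := by
  refine Finset.sum_pos' (fun k _ => th_nonneg h q hβ k) ⟨0, Finset.mem_range.2 hn, ?_⟩
  rw [th_zero h q hβ]
  exact one_pos

theorem iq_arith_aux {n S t c v x : ℝ} (hS : 0 < S) (hc : 0 ≤ c) (hv : 0 < v)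
    (hx : x = v + 1) (h1 : n * t ≤ 8 * S * c) : n / (8 * S) * t ≤ c / v * x := by
  have h2 : n / (8 * S) * t ≤ c := by
    rw [div_mul_eq_mul_div, div_le_iff₀ (by positivity)]
    linarith
  have h3 : c ≤ c / v * x := by
    rw [div_mul_eq_mul_div, le_div_iff₀ hv, hx]
    nlinarith
  exact h2.trans h3

/-- The sum of the covariances. -/
noncomputable def scv (n : ℕ) (β : ℝ) : ℝ :=
  ∑ e ∈ h.te (h.ball (2 * n)), cv (h.te (h.ball (2 * n)))
    (w h.G q (h.ball (2 * n)) (Real.exp β - 1)) (ind fun ω => h.far ω 0 n) e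

theorem scv_nonneg {β : ℝ} (hβ : 0 < β) (n : ℕ) : 0 ≤ scv h q n β :=
  Finset.sum_nonneg fun e _ => cv_nonneg h.G q _ (iq_v_pos hβ)
    (fun a => iq_ind_nonneg _ a) (iq_ind_far_mono h 0 n) e

theorem th_deriv' {β : ℝ} (hβ : 0 < β) (n : ℕ) : HasDerivAt (fun β => h.th q n β)
    (scv h q n β / (Real.exp β - 1) * Real.exp β) β := th_deriv h q hβ n

theorem th_ineq'' {β : ℝ} (hβ : 0 < β) {n : ℕ} (hn : 1 ≤ n) :
    n * (h.th q n β * (1 - h.th q n β)) ≤ 8 * (∑ k ∈ range n, h.th q k β) * scv h q n β :=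
  th_ineq' h q hβ hn

theorem th_ineq {β : ℝ} (hβ : 0 < β) {n : ℕ} (hn : 1 ≤ n) : ∃ d : ℝ,
    HasDerivAt (fun β => h.th q n β) d β ∧
      n / (8 * ∑ k ∈ range n, h.th q k β) * (h.th q n β * (1 - h.th q n β)) ≤ d :=
  ⟨scv h q n β / (Real.exp β - 1) * Real.exp β, th_deriv' h q hβ n,
    iq_arith_aux (iq_sum_th_pos h q hβ hn) (scv_nonneg h q hβ n) (iq_v_pos hβ) (by ring)
      (th_ineq'' h q hβ hn)⟩

theorem iq_arith_aux2 {c n S t y : ℝ} (hn : 0 ≤ n) (hS : 0 < S) (ht : 0 ≤ t) (hc : c ≤ y) :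
    c / 8 * n / S * t ≤ n / (8 * S) * (t * y) := by
  have h7 : c / 8 * n / S * t = n / (8 * S) * (t * c) := by
    field_simp
  rw [h7]
  exact mul_le_mul_of_nonneg_left (mul_le_mul_of_nonneg_left hc ht) (by positivity)

theorem th_decay {β β' : ℝ} (hβ : 0 < β) (hb : β < β')
    (hlim : Tendsto (fun n => h.th q n β') atTop (𝓝 0)) :
    ∃ C δ : ℝ, 0 < δ ∧ ∀ n, h.th q n β ≤ C * Real.exp (-(δ * n)) := by
  have hpos : ∀ x, β ≤ x → 0 < x := fun x hx => lt_of_lt_of_le hβ hx
  refine seq_decay (fun n x => h.th q n x) (fun n x => deriv (fun x => h.th q n x) x)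
    (a := β) (b := β') (c := Real.exp (-(2 * Fintype.card κ * β')) / 8) hb (by positivity)
    ?_ ?_ ?_ ?_ ?_ ?_ ?_ hlim
  · intro n x hx _
    exact (th_deriv h q (hpos x hx) n).differentiableAt.hasDerivAt
  · intro n x hx _
    exact th_nonneg h q (hpos x hx) n
  · intro n x hx _
    exact th_le_one h q (hpos x hx) n
  · intro x hx _
    exact th_zero h q (hpos x hx)
  · intro n x hx _
    exact th_anti h q (hpos x hx) n
  · intro n x y hx hxy _
    exact th_mono h q (hpos x hx) hxy n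
  · intro n x hn hx hx'
    have h0 := hpos x hx
    obtain ⟨d, hd1, hd2⟩ := th_ineq h q h0 hn
    have h3 : deriv (fun x => h.th q n x) x = d := hd1.deriv
    rw [h3]
    refine le_trans ?_ hd2
    have hS := iq_sum_th_pos h q h0 hn
    have h4 := th_lt_one h q h0 hn
    have h5 : Real.exp (-(2 * Fintype.card κ * β')) ≤ Real.exp (-(2 * Fintype.card κ * x)) := by
      apply Real.exp_le_exp.2
      have : (0 : ℝ) ≤ Fintype.card κ := Nat.cast_nonneg _
      nlinarith
    have h6 := th_nonneg h q h0 n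
    exact iq_arith_aux2 (Nat.cast_nonneg n) hS h6 (h5.trans h4)

end S4

end Pool.Agent.DLS
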