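import Pool.Agent.DLS.Hom
import Pool.Agent.DLS.Ineq
import Pool.Agent.DLS.Spin

/-!
# Sharpness of the phase transition, in spin language
-/

set_option autoImplicit false
set_option linter.unusedSectionVars false

namespace Pool.Agent.DLS

open Finset Filter Topology

theorem s6_ind_nonneg' {α : Type} (A : α → Prop) (a : α) : 0 ≤ ind A a := by
  unfold ind
  split_ifs
  · exact zero_le_one
  · exact le_refl _

theorem s6_ind_le' {α : Type} {A B : α → Prop} {a b : α} (h : A a → B b) : ind A a ≤ ind B b := by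
  unfold ind
  by_cases ha : A a
  · rw [if_pos ha, if_pos (h ha)]
  · rw [if_neg ha]
    split_ifs
    · exact zero_le_one
    · exact le_refl _

theorem s6_ind_congr' {α : Type} {A B : α → Prop} {a b : α} (h : A a ↔ B b) : ind A a = ind B b :=
  le_antisymm (s6_ind_le' h.1) (s6_ind_le' h.2)

theorem s6_Ex_le_of_le {α : Type} [DecidableEq α] {E : Finset α} {μ f g : Finset α → ℝ}
    (hμ : ∀ a, 0 < μ a) (h : ∀ ω, ω ⊆ E → f ω ≤ g ω) : Ex E μ f ≤ Ex E μ g := by
  unfold Ex
  exact div_le_div_of_nonneg_right (Sm_mono (fun a => (hμ a).le) h) (Sm_one_pos hμ).le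

theorem s6_Ex_nonneg' {α : Type} [DecidableEq α] {E : Finset α} {μ f : Finset α → ℝ}
    (hμ : ∀ a, 0 < μ a) (h : ∀ ω, 0 ≤ f ω) : 0 ≤ Ex E μ f := by
  unfold Ex Sm
  exact div_nonneg (Finset.sum_nonneg fun a _ => mul_nonneg (hμ a).le (h a))
    (Finset.sum_nonneg fun a _ => mul_nonneg (hμ a).le zero_le_one)

theorem s6_exp_sub_one_pos' {β : ℝ} (hβ : 0 < β) : 0 < Real.exp β - 1 := by
  have := Real.add_one_lt_exp hβ.ne'
  linarith

/-- A path leaving `I` uses edges with an end in `I` up to its first exit. -/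
theorem s6_exit_te {V κ : Type} [AddCommGroup V] [DecidableEq V] [Fintype κ] [DecidableEq κ]
    (h : Hg V κ) (I : Finset V) (ω : Finset (V × κ)) {x y : V} (hy : y ∉ I)
    (hr : h.G.Rch ω x y) : ∃ z, z ∉ I ∧ h.G.Rch (ω ∩ h.te I) x z := by
  unfold DL.Gr.Rch at hr
  induction hr using Relation.ReflTransGen.head_induction_on with
  | refl => exact ⟨y, hy, Relation.ReflTransGen.refl⟩
  | head h1 _ ih =>
    rename_i a b _
    by_cases ha : a ∈ I
    · obtain ⟨z, hz, hr2⟩ := ih
      refine ⟨z, hz, Relation.ReflTransGen.head ?_ hr2⟩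
      obtain ⟨e, he, hab⟩ := h1
      refine ⟨e, Finset.mem_inter.2 ⟨he, ?_⟩, hab⟩
      rw [mem_te]
      rcases hab with ⟨h2, _⟩ | ⟨_, h3⟩
      · left
        rw [h2]
        exact ha
      · right
        rw [h3]
        exact ha
    · exact ⟨a, ha, Relation.ReflTransGen.refl⟩

theorem s6_rch_mono' {V ι : Type} (G : DL.Gr V ι) {a b : Finset ι} (h : a ⊆ b) {x y : V}
    (hr : G.Rch a x y) : G.Rch b x y := by
  unfold DL.Gr.Rch at hr ⊢
  refine Relation.ReflTransGen.mono ?_ x y hr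
  rintro u v ⟨e, he, h1⟩
  exact ⟨e, h he, h1⟩

theorem s6_te_mono' {V κ : Type} [AddCommGroup V] [DecidableEq V] [Fintype κ] [DecidableEq κ]
    (h : Hg V κ) {I I' : Finset V} (hI : I ⊆ I') : h.te I ⊆ h.te I' := by
  intro e he
  rw [mem_te] at he ⊢
  exact he.imp (fun h1 => hI h1) fun h1 => hI h1

section P

variable (D q : ℕ) [NeZero q]

theorem s6_one_sub_inv_nonneg (hq : 2 ≤ q) : (0 : ℝ) < 1 - 1 / q := by
  have h2 : (2 : ℝ) ≤ q := by exact_mod_cast hq
  have : (1 : ℝ) / q ≤ 1 / 2 := one_div_le_one_div_of_le (by norm_num) h2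
  linarith

theorem plus_le_th (hq : 2 ≤ q) {β : ℝ} (hβ : 0 < β) (L n : ℕ)
    (hn : 2 * n ≤ L) : plus D q β L - 1 / q ≤ (latH D).th q n β := by
  have hv := s6_exp_sub_one_pos' hβ
  rw [plus_eq D q hq hβ L]
  have h1 : Ex ((latH D).te (SB.box D L)) (w (DL.lat D) q (SB.box D L) (Real.exp β - 1))
      (ind fun ω => ∃ y, y ∉ SB.box D L ∧ (DL.lat D).Rch ω 0 y) ≤
      Ex ((latH D).te (SB.box D L)) (w (DL.lat D) q (SB.box D L) (Real.exp β - 1))
      (ind fun ω => (latH D).far ω 0 n) := by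
    refine s6_Ex_le_of_le (fun a => w_pos _ q hv _ a) fun ω _ => s6_ind_le' ?_
    rintro ⟨y, hy, hr⟩
    refine ⟨y, hr, ?_⟩
    rw [sub_zero, latH_N]
    by_contra hc
    exact hy (mem_box_of_dist1 (by omega))
  have h2 := far_le_th (latH D) q hβ (SB.box D L) ((latH D).te (SB.box D L))
    (Finset.Subset.refl _) 0 n (fun y hy => by
      rw [sub_zero, latH_N] at hy
      exact mem_box_of_dist1 (by omega))
  have h3 : Ex ((latH D).te (SB.box D L)) (w (DL.lat D) q (SB.box D L) (Real.exp β - 1))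
      (ind fun ω => ∃ y, y ∉ SB.box D L ∧ (DL.lat D).Rch ω 0 y) ≤ (latH D).th q n β :=
    h1.trans h2
  have h4 : 0 ≤ Ex ((latH D).te (SB.box D L)) (w (DL.lat D) q (SB.box D L) (Real.exp β - 1))
      (ind fun ω => ∃ y, y ∉ SB.box D L ∧ (DL.lat D).Rch ω 0 y) :=
    s6_Ex_nonneg' (fun a => w_pos _ q hv _ a) fun ω => s6_ind_nonneg' _ _
  have h5 : (1 : ℝ) - 1 / q ≤ 1 := by
    have : (0 : ℝ) ≤ 1 / q := by positivity
    linarith
  have h6 := mul_le_mul_of_nonneg_right h5 h4
  rw [one_mul] at h6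
  exact h6.trans h3

theorem th_le_plus (hq : 2 ≤ q) {β : ℝ} (hβ : 0 < β) (L n : ℕ)
    (hn : (D + 1) * (L + 1) ≤ n) : (1 - 1 / q) * (latH D).th q n β ≤ plus D q β L - 1 / q := by
  have hv := s6_exp_sub_one_pos' hβ
  rw [plus_eq D q hq hβ L]
  refine mul_le_mul_of_nonneg_left ?_ (s6_one_sub_inv_nonneg q hq).le
  have hsub : SB.box D L ⊆ (latH D).ball (2 * n) := by
    intro x hx
    rw [mem_latH_ball]
    have := dist1_le_of_mem_box hx
    nlinarith
  have h1 : (latH D).th q n β ≤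
      Ex ((latH D).te ((latH D).ball (2 * n)))
        (w (DL.lat D) q ((latH D).ball (2 * n)) (Real.exp β - 1))
        (ind fun ω => ∃ y, y ∉ SB.box D L ∧ (DL.lat D).Rch ω 0 y) := by
    unfold Hg.th
    refine s6_Ex_le_of_le (fun a => w_pos _ q hv _ a) fun ω _ => s6_ind_le' ?_
    rintro ⟨y, hr, hy⟩
    refine ⟨y, fun hc => ?_, hr⟩
    rw [sub_zero, latH_N] at hy
    have := dist1_le_of_mem_box hc
    nlinarith
  refine h1.trans ?_
  have h2 := Ex_mono (DL.lat D) q ((latH D).te ((latH D).ball (2 * n))) hsub hv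
    (le_refl (Real.exp β - 1))
    (g := ind fun ω => ∃ y, y ∉ SB.box D L ∧ (DL.lat D).Rch ω 0 y)
    (fun a => s6_ind_nonneg' _ _) (fun a b hab => s6_ind_le' (by
      rintro ⟨y, hy, hr⟩
      exact ⟨y, hy, s6_rch_mono' _ hab hr⟩))
  refine h2.trans (le_of_eq ?_)
  refine Ex_indep (DL.lat D) q (s6_te_mono' (latH D) hsub) hv ?_ ?_
  · intro e _ he
    rw [mem_te, not_or] at he
    exact he
  · intro ω _
    refine s6_ind_congr' ?_
    constructor
    · rintro ⟨y, hy, hr⟩
      exact s6_exit_te (latH D) (SB.box D L) ω hy hr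
    · rintro ⟨y, hy, hr⟩
      exact ⟨y, hy, s6_rch_mono' _ Finset.inter_subset_left hr⟩

theorem s6_ext_add_const {Λ : Finset (DL.Site D)} (s : Λ → ZMod q) (c : ZMod q) {x : DL.Site D}
    (hx : x ∈ Λ) : SB.ext (s + fun _ => c) x = SB.ext s x + c := by
  unfold SB.ext
  rw [dif_pos hx, dif_pos hx]
  rfl

/-- At infinite temperature the colours are uniform. -/
theorem s6_plus_zero (L : ℕ) : plus D q 0 L = 1 / q := by
  classical
  have h0 : (0 : DL.Site D) ∈ SB.box D L := mem_box_of_dist1 (by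
    rw [dist1_zero_iff_def]
    simp)
  have hnum : ∀ c : ZMod q,
      (∑ s : SB.box D L → ZMod q, if SB.ext s 0 = 0 then (1 : ℝ) else 0) =
        ∑ s : SB.box D L → ZMod q, if SB.ext s 0 = c then (1 : ℝ) else 0 := by
    intro c
    refine Fintype.sum_equiv (Equiv.addRight (fun _ => c)) _ _ fun s => ?_
    have h1 : (Equiv.addRight (fun _ => c) : (SB.box D L → ZMod q) ≃ _) s = s + fun _ => c := rfl
    rw [h1, s6_ext_add_const D q s c h0]
    by_cases hs : SB.ext s 0 = 0
    · rw [if_pos hs, if_pos (by rw [hs, zero_add])]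
    · rw [if_neg hs, if_neg]
      intro h2
      apply hs
      simpa using h2
  have htot : (q : ℝ) * (∑ s : SB.box D L → ZMod q, if SB.ext s 0 = 0 then (1 : ℝ) else 0) =
      ∑ _s : SB.box D L → ZMod q, (1 : ℝ) := by
    have h2 : ∑ c : ZMod q, (∑ s : SB.box D L → ZMod q, if SB.ext s 0 = c then (1 : ℝ) else 0) =
        ∑ _s : SB.box D L → ZMod q, (1 : ℝ) := by
      rw [Finset.sum_comm]
      refine Finset.sum_congr rfl fun s _ => ?_
      rw [Finset.sum_ite_eq Finset.univ (SB.ext s 0) fun _ => (1 : ℝ)]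
      rw [if_pos (Finset.mem_univ _)]
    rw [← h2, Finset.sum_congr rfl fun c _ => (hnum c).symm, Finset.sum_const, Finset.card_univ,
      ZMod.card, nsmul_eq_mul]
  have hpos : 0 < ∑ _s : SB.box D L → ZMod q, (1 : ℝ) := by
    rw [Finset.sum_const, nsmul_eq_mul, mul_one]
    exact_mod_cast Finset.card_pos.2 Finset.univ_nonempty
  unfold plus
  simp only [zero_mul, Real.exp_zero]
  rw [← htot] at hpos ⊢
  have hq0 : (q : ℝ) ≠ 0 := by
    have := NeZero.ne q
    exact_mod_cast this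
  have hne : (∑ s : SB.box D L → ZMod q, if SB.ext s 0 = 0 then (1 : ℝ) else 0) ≠ 0 := by
    intro h
    rw [h, mul_zero] at hpos
    exact lt_irrefl _ hpos
  field_simp

/-- RESULT of the block SHARP: exponential decay below the threshold of spontaneous order. -/
theorem sharp (hq : 2 ≤ q) {β β' : ℝ} (hβ : 0 ≤ β) (hb : β < β')
    (hlim : Tendsto (plus D q β') atTop (𝓝 (1 / q))) :
    ∃ C c : ℝ, 0 < c ∧ ∀ L : ℕ, plus D q β L - 1 / q ≤ C * Real.exp (-(c * L)) := by
  rcases hβ.eq_or_lt with h0 | hpos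
  · subst h0
    refine ⟨0, 1, one_pos, fun L => ?_⟩
    rw [s6_plus_zero, sub_self, zero_mul]
  · have hβ' : 0 < β' := hpos.trans hb
    have hq1 := s6_one_sub_inv_nonneg q hq
    -- the limit of th
    have hL : Tendsto (fun n : ℕ => n / (D + 1) - 1) atTop atTop := by
      refine tendsto_atTop_atTop.2 fun b => ⟨(b + 1) * (D + 1), fun n hn => ?_⟩
      have : b + 1 ≤ n / (D + 1) := (Nat.le_div_iff_mul_le (Nat.succ_pos D)).2 hn
      omega
    have h1 : Tendsto (fun n : ℕ => (1 - 1 / (q : ℝ))⁻¹ * (plus D q β' (n / (D + 1) - 1) - 1 / q))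
        atTop (𝓝 0) := by
      have h2 := (hlim.comp hL).sub_const (1 / (q : ℝ))
      rw [sub_self] at h2
      have h3 := h2.const_mul (1 - 1 / (q : ℝ))⁻¹
      rw [mul_zero] at h3
      exact h3
    have h4 : Tendsto (fun n => (latH D).th q n β') atTop (𝓝 0) := by
      refine squeeze_zero' (Eventually.of_forall fun n => th_nonneg (latH D) q hβ' n) ?_ h1
      refine eventually_atTop.2 ⟨D + 1, fun n hn => ?_⟩
      have h5 : 1 ≤ n / (D + 1) := (Nat.le_div_iff_mul_le (Nat.succ_pos D)).2 (by omega)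
      have h6 : (D + 1) * (n / (D + 1) - 1 + 1) ≤ n := by
        rw [Nat.sub_add_cancel h5]
        exact Nat.mul_div_le n (D + 1)
      have h7 := th_le_plus D q hq hβ' (n / (D + 1) - 1) n h6
      rw [← div_eq_inv_mul, le_div_iff₀ hq1, mul_comm]
      exact h7
    obtain ⟨C, δ, hδ, hC⟩ := th_decay (latH D) q hpos hb h4
    have hC0 : 0 ≤ C := by
      have h5 := hC 0
      have h6 := th_nonneg (latH D) q hpos 0
      rw [Nat.cast_zero, mul_zero, neg_zero, Real.exp_zero, mul_one] at h5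
      exact h6.trans h5
    refine ⟨C * Real.exp δ, δ / 2, by linarith, fun L => ?_⟩
    have h5 := plus_le_th D q hq hpos L (L / 2) (by omega)
    refine (h5.trans (hC (L / 2))).trans ?_
    rw [mul_assoc, ← Real.exp_add]
    refine mul_le_mul_of_nonneg_left (Real.exp_le_exp.2 ?_) hC0
    have h6 : (L : ℝ) ≤ 2 * ((L / 2 : ℕ) : ℝ) + 1 := by
      have : L ≤ 2 * (L / 2) + 1 := by omega
      exact_mod_cast this
    nlinarith

end P

end Pool.Agent.DLS
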