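import Pool.Agent.DLS.Bridge
import Pool.Agent.DLS.Sharp

/-!
# Sharpness in the random-cluster form with ranks
-/

set_option autoImplicit false
set_option linter.unusedSectionVars false

namespace Pool.Agent.DLS

open Finset Filter Topology

theorem vJ_one (D : ℕ) (β : ℝ) : (DL.vJ β 1 : DL.Edge D → ℝ) = fun _ => Real.exp β - 1 := by
  funext e
  unfold DL.vJ
  rw [mul_one, ite_self]

theorem sharp_fk (D q : ℕ) [NeZero q] (hD : 1 ≤ D) (hq : 2 ≤ q) {β β' : ℝ} (hβ : 0 ≤ β)
    (hb : β < β') (hlim : Tendsto (plus D q β') atTop (𝓝 (1 / q))) :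
    ∃ C c : ℝ, 0 < C ∧ 0 < c ∧ ∀ N : ℕ, 1 ≤ N →
      wsp D q (Real.exp β - 1) N ≤ C * Real.exp (-(c * N)) := by
  classical
  obtain ⟨C, c, hc, h⟩ := sharp D q hq hβ hb hlim
  refine ⟨2 * (|C| + 1) * Real.exp c, c, by positivity, hc, fun N hN => ?_⟩
  have hq0 : (2 : ℝ) ≤ q := by exact_mod_cast hq
  have hqi : 1 / (q : ℝ) ≤ 1 / 2 := one_div_le_one_div_of_le (by norm_num) hq0
  rcases hβ.eq_or_lt with h0 | hpos
  · have h1 : wsp D q (Real.exp β - 1) N = 0 := by
      unfold wsp DL.Gr.pr
      have h2 : ∀ S : Finset (Finset (DL.Edge D)), (∀ ω ∈ S, sphE D N ⊆ ω) →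
          ∑ ω ∈ S, (DL.lat D).wt (q : ℝ) (fun _ => Real.exp β - 1) ω = 0 := by
        intro S hS
        refine sum_eq_zero fun ω hω => ?_
        have h3 := hS ω hω
        have h4 : ∃ e, e ∈ sphE D N := by
          have hcr := crn_mem (D := D) hN
          by_contra hcon
          have h5 : sphE D N = ∅ := by
            rw [eq_empty_iff_forall_notMem]
            exact fun e he => hcon ⟨e, he⟩
          have hneg : -crn D N ∈ SB.box D N ∧ -crn D N ∉ SB.box D (N - 1) := by
            have hco : ∀ k, co (-crn D N) k = -(N : ℤ) := by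
              intro k
              cases k <;> rfl
            exact ⟨(mem_box_co _).2 fun k => by rw [hco]; omega,
              not_box_of_coord hN (k := none) (by rw [hco]; omega)⟩
          have h6 := sph_conn hD hN hcr.1 hcr.2 hneg.1 hneg.2
          rw [h5] at h6
          have h7 : crn D N = -crn D N := by
            rcases Relation.ReflTransGen.cases_head h6 with h | ⟨_, ⟨e, he, _⟩, _⟩
            · exact h
            · exact absurd he (notMem_empty e)
          have h8 := congrArg (fun x => co x none) h7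
          have h9 : (N : ℤ) = -(N : ℤ) := h8
          omega
        obtain ⟨e, he⟩ := h4
        unfold DL.Gr.wt
        rw [prod_const, ← h0, Real.exp_zero, sub_self, zero_pow, zero_mul]
        exact (card_pos.2 ⟨e, h3 he⟩).ne'
      rw [h2 _ (by intro ω hω; simp only [mem_filter] at hω; exact hω.2.1), zero_div, zero_div]
    rw [h1]
    positivity
  · have hv : 0 < Real.exp β - 1 := by
      have := Real.add_one_lt_exp hpos.ne'
      linarith
    have h1 : wsp D q (Real.exp β - 1) N = Ex ((latH D).te (SB.box D (N - 1)))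
        (w (DL.lat D) q (SB.box D (N - 1)) (Real.exp β - 1))
        (ind fun ω => ∃ y, y ∉ SB.box D (N - 1) ∧ (DL.lat D).Rch ω 0 y) :=
      bridge q hD hN hv
    have h2 := plus_eq D q hq hpos (N - 1)
    rw [← h1] at h2
    have h3 := h (N - 1)
    rw [h2] at h3
    have h4 : C * Real.exp (-(c * ((N - 1 : ℕ) : ℝ))) ≤ (|C| + 1) *
        (Real.exp c * Real.exp (-(c * N))) := by
      rw [← Real.exp_add]
      have h5 : -(c * ((N - 1 : ℕ) : ℝ)) = c + -(c * N) := by
        rw [Nat.cast_sub hN]
        push_cast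
        ring
      rw [h5]
      refine mul_le_mul_of_nonneg_right ?_ (Real.exp_pos _).le
      linarith [le_abs_self C]
    have h5 : 1 / 2 * wsp D q (Real.exp β - 1) N ≤
        (|C| + 1) * (Real.exp c * Real.exp (-(c * N))) := by
      by_cases hneg : 0 ≤ wsp D q (Real.exp β - 1) N
      · have h6 : 1 / 2 * wsp D q (Real.exp β - 1) N ≤
            (1 - 1 / (q : ℝ)) * wsp D q (Real.exp β - 1) N :=
          mul_le_mul_of_nonneg_right (by linarith) hneg
        linarith
      · have h6 : 0 ≤ (|C| + 1) * (Real.exp c * Real.exp (-(c * N))) := by positivity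
        have h7 : wsp D q (Real.exp β - 1) N ≤ 0 := (not_le.1 hneg).le
        linarith
    nlinarith [h5]

end Pool.Agent.DLS
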