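import Pool.Agent.DLS.Der

/-!
# The weights given by numbers of colourings
-/

set_option autoImplicit false
set_option linter.unusedSectionVars false

namespace Pool.Agent.DLS

open Finset

section Grp

variable {M : Type*} [AddCommGroup M]

/-- The sum map on a product of two subgroups. -/
def wtAdd (A B : AddSubgroup M) : A × B →+ M where
  toFun p := p.1.1 + p.2.1
  map_zero' := by simp
  map_add' a b := by
    simp only [Prod.fst_add, Prod.snd_add, AddSubgroup.coe_add]
    abel

/-- The kernel of the sum map is the intersection. -/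
def wtKer (A B : AddSubgroup M) : (wtAdd A B).ker ≃ (A ⊓ B : AddSubgroup M) where
  toFun p := ⟨p.1.1.1, p.1.1.2, by
    have h : p.1.1.1 + p.1.2.1 = 0 := p.2
    rw [eq_neg_of_add_eq_zero_left h]
    exact B.neg_mem p.1.2.2⟩
  invFun c := ⟨(⟨c.1, c.2.1⟩, ⟨-c.1, B.neg_mem c.2.2⟩), by
    change c.1 + -c.1 = 0
    exact add_neg_cancel _⟩
  left_inv := by
    rintro ⟨⟨⟨a, ha⟩, ⟨b, hb⟩⟩, h⟩
    have h1 : a + b = 0 := h
    simp only [Subtype.mk.injEq, Prod.mk.injEq, true_and]
    exact neg_eq_of_add_eq_zero_right h1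
  right_inv := by
    rintro ⟨c, hc⟩
    rfl

theorem wt_card_mul_le (A B C : AddSubgroup M) [Finite C] (hA : A ≤ C) (hB : B ≤ C) :
    Nat.card A * Nat.card B ≤ Nat.card C * Nat.card (A ⊓ B : AddSubgroup M) := by
  have h1 : Nat.card A * Nat.card B = Nat.card (wtAdd A B).range * Nat.card (wtAdd A B).ker := by
    rw [← Nat.card_prod, AddSubgroup.card_eq_card_quotient_mul_card_addSubgroup (wtAdd A B).ker,
      Nat.card_congr (QuotientAddGroup.quotientKerEquivRange (wtAdd A B)).toEquiv]
  have h2 : Nat.card (wtAdd A B).range ≤ Nat.card C := by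
    have h3 : (wtAdd A B).range ≤ C := by
      rintro _ ⟨p, rfl⟩
      exact C.add_mem (hA p.1.2) (hB p.2.2)
    exact Nat.card_le_card_of_injective (AddSubgroup.inclusion h3)
      (AddSubgroup.inclusion_injective h3)
  rw [h1, Nat.card_congr (wtKer A B)]
  exact Nat.mul_le_mul_right _ h2

end Grp

section A
variable {V ι : Type} [DecidableEq V] [DecidableEq ι] (G : DL.Gr V ι) (q : ℕ) [NeZero q]

theorem nc_pos (I : Finset V) (ω : Finset ι) : 0 < nc G q I ω := nc_pos_aux G q I ω

theorem w_pos {v : ℝ} (hv : 0 < v) (I : Finset V) (ω : Finset ι) : 0 < w G q I v ω :=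
  w_pos_aux G q hv I ω

theorem finite_Cg (I : Finset V) (ω : Finset ι) : Finite (Cg G q I ω) := by
  refine Finite.of_injective (fun (σ : Cg G q I ω) (x : I) => σ.1 x.1) ?_
  intro σ τ h
  apply Subtype.ext
  funext x
  by_cases hx : x ∈ I
  · exact congrFun h ⟨x, hx⟩
  · rw [σ.2.1 x hx, τ.2.1 x hx]

theorem Cg_mono {I I' : Finset V} (hI : I ⊆ I') {a b : Finset ι} (hab : a ⊆ b) :
    Cg G q I b ≤ Cg G q I' a := fun _ hσ =>
  ⟨fun x hx => hσ.1 x fun h => hx (hI h), fun e he => hσ.2 e (hab he)⟩

theorem Cg_inf {I I' : Finset V} (hI : I ⊆ I') (a b : Finset ι) :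
    Cg G q I' a ⊓ Cg G q I b = Cg G q I (a ∪ b) := by
  ext σ
  rw [AddSubgroup.mem_inf]
  constructor
  · rintro ⟨h1, h2⟩
    refine ⟨h2.1, fun e he => ?_⟩
    rcases Finset.mem_union.1 he with he | he
    · exact h1.2 e he
    · exact h2.2 e he
  · intro h
    exact ⟨⟨fun x hx => h.1 x fun h' => hx (hI h'), fun e he => h.2 e (Finset.mem_union_left _ he)⟩,
      ⟨h.1, fun e he => h.2 e (Finset.mem_union_right _ he)⟩⟩

theorem nc_lat {I I' : Finset V} (hI : I ⊆ I') (a b : Finset ι) :
    nc G q I' a * nc G q I b ≤ nc G q I' (a ∩ b) * nc G q I (a ∪ b) := by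
  have := finite_Cg G q I' (a ∩ b)
  have h := wt_card_mul_le (Cg G q I' a) (Cg G q I b) (Cg G q I' (a ∩ b))
    (Cg_mono G q (Finset.Subset.refl _) Finset.inter_subset_left)
    (Cg_mono G q hI Finset.inter_subset_right)
  rw [Cg_inf G q hI] at h
  unfold nc
  exact_mod_cast h

theorem nc_mono (I : Finset V) {a b : Finset ι} (hab : a ⊆ b) : nc G q I b ≤ nc G q I a := by
  have := finite_Cg G q I a
  unfold nc
  exact_mod_cast Nat.card_le_card_of_injective
    (AddSubgroup.inclusion (Cg_mono G q (Finset.Subset.refl I) hab))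
    (AddSubgroup.inclusion_injective _)

theorem w_lat {I I' : Finset V} (hI : I ⊆ I') {v v' : ℝ} (hv : 0 < v) (hvv : v ≤ v')
    (a b : Finset ι) :
    w G q I' v a * w G q I v' b ≤ w G q I' v (a ∩ b) * w G q I v' (a ∪ b) := by
  have h1 := nc_lat G q hI a b
  have h2 : (a ∪ b).card + (a ∩ b).card = a.card + b.card := Finset.card_union_add_card_inter a b
  have h3 : (a ∩ b).card ≤ a.card := Finset.card_le_card Finset.inter_subset_left
  obtain ⟨m, hm⟩ := Nat.exists_eq_add_of_le h3
  have h4 : (a ∪ b).card = m + b.card := by omega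
  have h5 : v ^ a.card * v' ^ b.card ≤ v ^ (a ∩ b).card * v' ^ (a ∪ b).card := by
    rw [hm, h4, pow_add, pow_add, mul_assoc]
    refine mul_le_mul_of_nonneg_left ?_ (pow_pos hv _).le
    refine mul_le_mul_of_nonneg_right (pow_le_pow_left₀ hv.le hvv m) ?_
    exact (pow_pos (hv.trans_le hvv) _).le
  unfold w
  calc v ^ a.card * nc G q I' a * (v' ^ b.card * nc G q I b)
      = v ^ a.card * v' ^ b.card * (nc G q I' a * nc G q I b) := by ring
    _ ≤ v ^ (a ∩ b).card * v' ^ (a ∪ b).card *
        (nc G q I' (a ∩ b) * nc G q I (a ∪ b)) :=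
      mul_le_mul h5 h1 (mul_nonneg (nc_pos G q _ _).le (nc_pos G q _ _).le)
        (mul_nonneg (pow_pos hv _).le (pow_pos (hv.trans_le hvv) _).le)
    _ = v ^ (a ∩ b).card * nc G q I' (a ∩ b) * (v' ^ (a ∪ b).card * nc G q I (a ∪ b)) := by ring

/-- Smaller volume with wired boundary condition, larger edge weight: larger mean. -/
theorem Ex_mono (E : Finset ι) {I I' : Finset V} (hI : I ⊆ I') {v v' : ℝ} (hv : 0 < v)
    (hvv : v ≤ v') {g : Finset ι → ℝ} (hg : ∀ a, 0 ≤ g a) (hm : ∀ a b, a ⊆ b → g a ≤ g b) :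
    Ex E (w G q I' v) g ≤ Ex E (w G q I v') g :=
  Ex_le_Ex E (w_pos G q hv I') (w_pos G q (hv.trans_le hvv) I) hg hm
    fun a _ b _ => w_lat G q hI hv hvv a b

/-- An edge with no end in `I` does not change the number of colourings. -/
theorem nc_insert {I : Finset V} {e : ι} (h1 : G.s e ∉ I) (h2 : G.t e ∉ I) (ω : Finset ι) :
    nc G q I (insert e ω) = nc G q I ω := by
  have h : Cg G q I (insert e ω) = Cg G q I ω := by
    ext σ
    constructor
    · intro h
      exact ⟨h.1, fun e' he' => h.2 e' (Finset.mem_insert_of_mem he')⟩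
    · intro h
      refine ⟨h.1, fun e' he' => ?_⟩
      rcases Finset.mem_insert.1 he' with rfl | he'
      · rw [h.1 _ h1, h.1 _ h2]
      · exact h.2 e' he'
  unfold nc
  rw [h]

theorem Sm_insert_indep {I : Finset V} {v : ℝ} {E : Finset ι} {e : ι} (he : e ∉ E)
    (h1 : G.s e ∉ I) (h2 : G.t e ∉ I) {g : Finset ι → ℝ}
    (hg : ∀ ω, ω ⊆ E → g (insert e ω) = g ω) :
    Sm (insert e E) (w G q I v) g = (1 + v) * Sm E (w G q I v) g := by
  unfold Sm
  rw [Finset.sum_powerset_insert he, add_mul, one_mul, Finset.mul_sum]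
  congr 1
  refine Finset.sum_congr rfl fun ω hω => ?_
  rw [Finset.mem_powerset] at hω
  have h3 : e ∉ ω := fun h => he (hω h)
  rw [hg ω hω]
  unfold w
  rw [nc_insert G q h1 h2, Finset.card_insert_of_notMem h3, pow_succ]
  ring

/-- Edges with no end in `I` do not matter. -/
theorem Ex_indep {E E' : Finset ι} (hE : E ⊆ E') {I : Finset V} {v : ℝ} (hv : 0 < v)
    (hI : ∀ e ∈ E', e ∉ E → G.s e ∉ I ∧ G.t e ∉ I) {g : Finset ι → ℝ}
    (hg : ∀ ω, ω ⊆ E' → g ω = g (ω ∩ E)) : Ex E' (w G q I v) g = Ex E (w G q I v) g := by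
  have key : ∀ g : Finset ι → ℝ, (∀ ω, ω ⊆ E' → g ω = g (ω ∩ E)) → ∀ F : Finset ι, F ⊆ E' \ E →
      Sm (E ∪ F) (w G q I v) g = (1 + v) ^ F.card * Sm E (w G q I v) g := by
    intro g hg F
    induction F using Finset.induction_on with
    | empty =>
      intro _
      rw [Finset.union_empty, Finset.card_empty, pow_zero, one_mul]
    | insert e F he ih =>
      intro hF
      have hF' : F ⊆ E' \ E := (Finset.subset_insert e F).trans hF
      have heE : e ∈ E' \ E := hF (Finset.mem_insert_self _ _)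
      rw [Finset.mem_sdiff] at heE
      have h1 : e ∉ E ∪ F := by
        rw [Finset.mem_union]
        rintro (h | h)
        · exact heE.2 h
        · exact he h
      have h2 : E ∪ insert e F = insert e (E ∪ F) := by
        rw [Finset.union_insert]
      have h3 := hI e heE.1 heE.2
      rw [h2, Sm_insert_indep G q h1 h3.1 h3.2, ih hF', Finset.card_insert_of_notMem he, pow_succ]
      · ring
      · intro ω hω
        have h4 : ω ⊆ E' := hω.trans (Finset.union_subset hE (hF'.trans Finset.sdiff_subset))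
        rw [hg (insert e ω) (Finset.insert_subset heE.1 h4), hg ω h4,
          Finset.insert_inter_of_notMem heE.2]
  have h0 : E ∪ (E' \ E) = E' := Finset.union_sdiff_of_subset hE
  have h1 := key g hg (E' \ E) (Finset.Subset.refl _)
  have h2 := key (fun _ => 1) (fun _ _ => rfl) (E' \ E) (Finset.Subset.refl _)
  rw [h0] at h1 h2
  unfold Ex
  rw [h1, h2]
  have h3 : (0 : ℝ) < (1 + v) ^ (E' \ E).card := pow_pos (by linarith) _
  exact mul_div_mul_left _ _ h3.ne'

/-- Closing one more edge. -/
theorem close_one {E F : Finset ι} {e : ι} (he : e ∈ E) (heF : e ∉ F) {I : Finset V} {v : ℝ}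
    (hv : 0 < v) : Sm E (w G q I v) (ind fun ω => Disjoint ω F) ≤
      (1 + v) * Sm E (w G q I v) (ind fun ω => Disjoint ω (insert e F)) := by
  have h0 : insert e (E.erase e) = E := Finset.insert_erase he
  have h1 : e ∉ E.erase e := Finset.notMem_erase e E
  rw [← h0]
  unfold Sm
  rw [Finset.sum_powerset_insert h1, Finset.sum_powerset_insert h1, mul_add, add_mul, one_mul,
    Finset.mul_sum]
  have h2 : ∀ ω ∈ (E.erase e).powerset, w G q I v ω * ind (fun ω => Disjoint ω F) ω =
      w G q I v ω * ind (fun ω => Disjoint ω (insert e F)) ω := by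
    intro ω hω
    rw [Finset.mem_powerset] at hω
    have h3 : e ∉ ω := fun h => h1 (hω h)
    congr 1
    unfold ind
    by_cases h4 : Disjoint ω F
    · rw [if_pos h4, if_pos (Finset.disjoint_insert_right.2 ⟨h3, h4⟩)]
    · rw [if_neg h4, if_neg fun h5 => h4 (Finset.disjoint_insert_right.1 h5).2]
  have h5 : ∀ ω ∈ (E.erase e).powerset,
      w G q I v (insert e ω) * ind (fun ω => Disjoint ω F) (insert e ω) ≤
      v * (w G q I v ω * ind (fun ω => Disjoint ω (insert e F)) ω) := by
    intro ω hω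
    rw [← h2 ω hω]
    rw [Finset.mem_powerset] at hω
    have h3 : e ∉ ω := fun h => h1 (hω h)
    have h6 : w G q I v (insert e ω) ≤ v * w G q I v ω := by
      unfold w
      rw [Finset.card_insert_of_notMem h3, pow_succ]
      have h7 := nc_mono G q I (Finset.subset_insert e ω)
      have h8 : 0 < v ^ ω.card * v := mul_pos (pow_pos hv _) hv
      have h9 := mul_le_mul_of_nonneg_left h7 h8.le
      calc v ^ ω.card * v * nc G q I (insert e ω) ≤ v ^ ω.card * v * nc G q I ω := h9
        _ = v * (v ^ ω.card * nc G q I ω) := by ring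
    have h7 : ind (fun ω => Disjoint ω F) (insert e ω) = ind (fun ω => Disjoint ω F) ω := by
      unfold ind
      by_cases h4 : Disjoint ω F
      · rw [if_pos h4, if_pos (Finset.disjoint_insert_left.2 ⟨heF, h4⟩)]
      · rw [if_neg h4, if_neg fun h5 => h4 (Finset.disjoint_insert_left.1 h5).2]
    rw [h7, ← mul_assoc]
    refine mul_le_mul_of_nonneg_right h6 ?_
    unfold ind
    split_ifs
    · exact zero_le_one
    · exact le_refl _
  have h6 : ∀ ω ∈ (E.erase e).powerset,
      0 ≤ w G q I v (insert e ω) * ind (fun ω => Disjoint ω (insert e F)) (insert e ω) := by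
    intro ω _
    refine mul_nonneg (w_pos G q hv _ _).le ?_
    unfold ind
    split_ifs
    · exact zero_le_one
    · exact le_refl _
  have e1 := Finset.sum_congr rfl h2
  have e2 := Finset.sum_le_sum h5
  have e3 := Finset.sum_nonneg h6
  rw [← Finset.mul_sum] at e2
  rw [← Finset.mul_sum]
  have e4 : 0 ≤ v * ∑ ω ∈ (E.erase e).powerset,
      w G q I v (insert e ω) * ind (fun ω => Disjoint ω (insert e F)) (insert e ω) :=
    mul_nonneg hv.le e3
  rw [e1]
  linarith

/-- Finite energy. -/
theorem fin_energy {E E0 : Finset ι} (hE : E0 ⊆ E) {I : Finset V} {v : ℝ} (hv : 0 < v) :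
    ((1 + v) ^ E0.card)⁻¹ ≤ Ex E (w G q I v) (ind fun ω => Disjoint ω E0) := by
  have hZ : 0 < Sm E (w G q I v) fun _ => 1 := Sm_one_pos fun a => w_pos G q hv I a
  have key : ∀ F : Finset ι, F ⊆ E → (Sm E (w G q I v) fun _ => 1) ≤
      (1 + v) ^ F.card * Sm E (w G q I v) (ind fun ω => Disjoint ω F) := by
    intro F
    induction F using Finset.induction_on with
    | empty =>
      intro _
      rw [Finset.card_empty, pow_zero, one_mul]
      refine le_of_eq (Sm_congr fun ω _ => ?_)
      unfold ind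
      rw [if_pos (Finset.disjoint_empty_right ω)]
    | insert e F he ih =>
      intro hF
      have h1 := ih ((Finset.subset_insert e F).trans hF)
      have h2 := close_one G q (E := E) (F := F) (I := I) (hF (Finset.mem_insert_self _ _)) he hv
      rw [Finset.card_insert_of_notMem he, pow_succ]
      have h3 : (0 : ℝ) < (1 + v) ^ F.card := pow_pos (by linarith) _
      have h4 := mul_le_mul_of_nonneg_left h2 h3.le
      linarith
  have h1 := key E0 hE
  have h3 : (0 : ℝ) < (1 + v) ^ E0.card := pow_pos (by linarith) _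
  unfold Ex
  rw [inv_eq_one_div, div_le_div_iff₀ h3 hZ]
  linarith

/-- Positive correlation of an increasing function with the edges. -/
theorem cv_nonneg (E : Finset ι) {I : Finset V} {v : ℝ} (hv : 0 < v) {g : Finset ι → ℝ}
    (hg : ∀ a, 0 ≤ g a) (hm : ∀ a b, a ⊆ b → g a ≤ g b) (e : ι) :
    0 ≤ cv E (w G q I v) g e := by
  have hZ : 0 < Sm E (w G q I v) fun _ => 1 := Sm_one_pos fun a => w_pos G q hv I a
  have h1 := fkg_mul E (μ := w G q I v) (f := g) (g := ind fun ω => e ∈ ω)
    (fun a => (w_pos G q hv I a).le) hg (fun a => by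
      unfold ind
      split_ifs
      · exact zero_le_one
      · exact le_refl _) (fun a b hab _ => hm a b hab) (fun a b hab _ => by
      unfold ind
      by_cases h : e ∈ a
      · rw [if_pos h, if_pos (hab h)]
      · rw [if_neg h]
        split_ifs
        · exact zero_le_one
        · exact le_refl _)
    (fun a _ b _ => w_lat G q (Finset.Subset.refl I) hv le_rfl a b)
  unfold cv Ex
  rw [sub_nonneg, div_mul_div_comm, div_le_div_iff₀ (mul_pos hZ hZ) hZ]
  have h2 := mul_le_mul_of_nonneg_right h1 hZ.le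
  nlinarith [h2]

end A

end Pool.Agent.DLS
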